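import Pool.Agent.Run7.h505.RT.V

/-!
Arbitrarily large 2-groups and 3-groups with bounded abelianization and with a subgroup of bounded
index that is abelian and generated by two elements.
-/

set_option autoImplicit false

namespace Run7.h505.RT

open Module Finset
open scoped commutatorElement

/-- powers of an automorphism of order dividing `p` -/
def powHom {V : Type} [Group V] (p : ℕ) [NeZero p] (s : MulAut V) (hs : s ^ p = 1) :
    Multiplicative (ZMod p) →* MulAut V where
  toFun i := s ^ i.toAdd.val
  map_one' := by simp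
  map_mul' i j := by
    rw [toAdd_mul, ZMod.val_add, ← pow_add, ← pow_eq_pow_mod _ hs]

theorem gen_pair (n : ℕ) [NeZero n] (v : ZMod n × ZMod n) :
    v = v.1.val • ((1, 0) : ZMod n × ZMod n) + v.2.val • ((0, 1) : ZMod n × ZMod n) := by
  apply Prod.ext
  · change v.1 = v.1.val • (1 : ZMod n) + v.2.val • (0 : ZMod n)
    rw [nsmul_eq_mul, mul_one, smul_zero, add_zero, ZMod.natCast_zmod_val]
  · change v.2 = v.1.val • (0 : ZMod n) + v.2.val • (1 : ZMod n)
    rw [smul_zero, zero_add, nsmul_eq_mul, mul_one, ZMod.natCast_zmod_val]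

theorem semi (p : ℕ) [hp : Fact p.Prime] (hp3 : p ≤ 3) (k : ℕ)
    (s : MulAut (Multiplicative (ZMod (p ^ k) × ZMod (p ^ k)))) (hs : s ^ p = 1)
    (hw : ∀ v : ZMod (p ^ k) × ZMod (p ^ k), ∃ w : ZMod (p ^ k) × ZMod (p ^ k),
      s (Multiplicative.ofAdd w) = Multiplicative.ofAdd (w + p • v)) :
    ∃ (G : Type) (_ : Group G) (_ : Fintype G), IsPGroup p G ∧ p ^ k ≤ Fintype.card G ∧
      (∃ g h : G, Commute g h ∧ (Subgroup.closure {g, h}).index ≤ 3) ∧
      Nat.card (Abelianization G) ≤ 27 := by
  have hp2 : 2 ≤ p := hp.out.two_le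
  have : NeZero p := ⟨hp.out.ne_zero⟩
  have : NeZero (p ^ k) := ⟨pow_ne_zero _ hp.out.ne_zero⟩
  set V := ZMod (p ^ k) × ZMod (p ^ k) with hV
  let φ := powHom p s hs
  let G := Multiplicative V ⋊[φ] Multiplicative (ZMod p)
  have hfin : Finite G := Finite.of_equiv _ (SemidirectProduct.equivProd (φ := φ)).symm
  have hcardV : Nat.card V = p ^ k * p ^ k := by
    rw [hV, Nat.card_prod, Nat.card_zmod]
  have hcardV' : Nat.card (Multiplicative V) = p ^ k * p ^ k := hcardV
  have hcardZ : Nat.card (Multiplicative (ZMod p)) = p := Nat.card_zmod p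
  have hcardG : Nat.card G = p ^ k * p ^ k * p := by
    have := SemidirectProduct.card (φ := φ)
    rw [hcardV', hcardZ] at this
    exact this
  let _ : Fintype G := Fintype.ofFinite G
  refine ⟨G, inferInstance, inferInstance, ?_, ?_, ?_, ?_⟩
  · apply IsPGroup.of_card (n := k + k + 1)
    rw [hcardG, pow_succ, pow_add]
  · rw [← Nat.card_eq_fintype_card, hcardG]
    have h1 : 1 ≤ p ^ k := Nat.pow_pos hp.out.pos
    calc p ^ k = p ^ k * 1 * 1 := by ring
      _ ≤ p ^ k * p ^ k * p := Nat.mul_le_mul (Nat.mul_le_mul_left _ h1) (by omega)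
  · let e1 : G := SemidirectProduct.inl (Multiplicative.ofAdd ((1, 0) : V))
    let e2 : G := SemidirectProduct.inl (Multiplicative.ofAdd ((0, 1) : V))
    refine ⟨e1, e2, ?_, ?_⟩
    · exact (Commute.all (Multiplicative.ofAdd ((1, 0) : V))
        (Multiplicative.ofAdd ((0, 1) : V))).map SemidirectProduct.inl
    · have h1 : (SemidirectProduct.inl : Multiplicative V →* G).range ≤
          Subgroup.closure {e1, e2} := by
        rintro _ ⟨v, rfl⟩
        have h2 : v = (Multiplicative.ofAdd ((1, 0) : V)) ^ (v.toAdd.1.val) *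
            (Multiplicative.ofAdd ((0, 1) : V)) ^ (v.toAdd.2.val) := by
          apply Multiplicative.toAdd.injective
          rw [toAdd_mul, toAdd_pow, toAdd_pow, toAdd_ofAdd, toAdd_ofAdd]
          exact gen_pair _ _
        rw [h2, map_mul, map_pow, map_pow]
        exact Subgroup.mul_mem _ (Subgroup.pow_mem _ (Subgroup.subset_closure (by simp [e1])) _)
          (Subgroup.pow_mem _ (Subgroup.subset_closure (by simp [e2])) _)
      have h2 := Subgroup.index_antitone h1
      refine h2.trans ?_
      rw [SemidirectProduct.range_inl_eq_ker_rightHom, Subgroup.index_ker,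
        MonoidHom.range_eq_top.2 SemidirectProduct.rightHom_surjective]
      have : Nat.card (⊤ : Subgroup (Multiplicative (ZMod p))) = Nat.card (ZMod p) :=
        Nat.card_congr (Subgroup.topEquiv).toEquiv
      rw [this, Nat.card_zmod]
      exact hp3
  · -- the abelianization
    set f := nsmulAddMonoidHom (α := V) p with hf
    have h1 : ∀ v : V, (SemidirectProduct.inl (Multiplicative.ofAdd (p • v)) : G) ∈
        commutator G := by
      intro v
      obtain ⟨w, hw⟩ := hw v
      have h2 : (SemidirectProduct.inl (Multiplicative.ofAdd (p • v)) : G) =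
          ⁅(SemidirectProduct.inr (Multiplicative.ofAdd 1) : G),
            (SemidirectProduct.inl (Multiplicative.ofAdd w) : G)⁆ := by
        rw [commutatorElement_def, ← map_inv (SemidirectProduct.inr : _ →* G),
          ← SemidirectProduct.inl_aut]
        have h3 : φ (Multiplicative.ofAdd 1) = s := by
          change s ^ (1 : ZMod p).val = s
          have : Fact (1 < p) := ⟨hp.out.one_lt⟩
          rw [ZMod.val_one, pow_one]
        rw [h3, hw, ← map_inv, ← map_mul]
        congr 1
        apply Multiplicative.toAdd.injective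
        simp
      rw [h2]
      exact Subgroup.commutator_mem_commutator (Subgroup.mem_top _) (Subgroup.mem_top _)
    have h2 : Nat.card f.range ≤ Nat.card (commutator G) := by
      let ι : f.range → commutator G := fun u => ⟨SemidirectProduct.inl (Multiplicative.ofAdd u.1),
        by
          obtain ⟨v, hv⟩ := u.2
          rw [← hv]
          exact h1 v⟩
      apply Nat.card_le_card_of_injective ι
      intro a b hab
      have h3 := congrArg Subtype.val hab
      have h4 := SemidirectProduct.inl_injective h3
      exact Subtype.ext (Multiplicative.ofAdd.injective h4)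
    have h3 : Nat.card f.ker * Nat.card f.range = Nat.card V := by
      rw [← AddSubgroup.index_ker, AddSubgroup.card_mul_index]
    have h4 : Nat.card f.ker ≤ p ^ 2 := by
      have h5 := card_torsion (V := V) (a := (1, 0)) (b := (0, 1)) (by
        intro v
        exact ⟨v.1.val, v.2.val, gen_pair _ _⟩) (n := p) hp.out.pos
      exact h5
    have h5 : Nat.card (commutator G) * (commutator G).index = Nat.card G :=
      (commutator G).card_mul_index
    have hpos : 0 < Nat.card (commutator G) := Nat.card_pos
    have h6 : (commutator G).index ≤ p ^ 3 := by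
      apply Nat.le_of_mul_le_mul_left _ hpos
      rw [h5, hcardG, ← hcardV, ← h3]
      calc Nat.card f.ker * Nat.card f.range * p ≤ p ^ 2 * Nat.card (commutator G) * p :=
            Nat.mul_le_mul_right _ (Nat.mul_le_mul h4 h2)
        _ = _ := by ring
    have h7 : p ^ 3 ≤ 27 := by
      calc p ^ 3 ≤ 3 ^ 3 := Nat.pow_le_pow_left hp3 3
        _ = 27 := by norm_num
    exact h6.trans h7

/-- Arbitrarily large examples for `p = 2` and `p = 3`. -/
theorem examples (p : ℕ) [hp : Fact p.Prime] (hp3 : p ≤ 3) (k : ℕ) :
    ∃ (G : Type) (_ : Group G) (_ : Fintype G), IsPGroup p G ∧ p ^ k ≤ Fintype.card G ∧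
      (∃ g h : G, Commute g h ∧ (Subgroup.closure {g, h}).index ≤ 3) ∧
      Nat.card (Abelianization G) ≤ 27 := by
  have hp2 : 2 ≤ p := hp.out.two_le
  obtain rfl | rfl : p = 2 ∨ p = 3 := by omega
  · -- inversion
    let s : MulAut (Multiplicative (ZMod (2 ^ k) × ZMod (2 ^ k))) := MulEquiv.inv _
    refine semi 2 (by norm_num) k s ?_ ?_
    · rw [pow_two]
      apply MulEquiv.ext
      intro v
      exact inv_inv v
    · intro v
      refine ⟨-v, ?_⟩
      change (Multiplicative.ofAdd (-v))⁻¹ = _
      apply Multiplicative.toAdd.injective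
      rw [toAdd_inv, toAdd_ofAdd, toAdd_ofAdd, two_nsmul]
      abel
  · let e : (ZMod (3 ^ k) × ZMod (3 ^ k)) ≃+ (ZMod (3 ^ k) × ZMod (3 ^ k)) :=
      { toFun := fun v => (-v.2, v.1 - v.2)
        invFun := fun v => (v.2 - v.1, -v.1)
        left_inv := fun v => by ext <;> simp
        right_inv := fun v => by ext <;> simp
        map_add' := fun v w => by
          ext
          · simp; ring
          · simp; ring }
    let s : MulAut (Multiplicative (ZMod (3 ^ k) × ZMod (3 ^ k))) := AddEquiv.toMultiplicative e
    have hs : ∀ v, s (Multiplicative.ofAdd v) = Multiplicative.ofAdd (-v.2, v.1 - v.2) :=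
      fun v => rfl
    refine semi 3 le_rfl k s ?_ ?_
    · apply MulEquiv.ext
      intro v
      rw [pow_succ, pow_two]
      change s (s (s (Multiplicative.ofAdd v.toAdd))) = v
      rw [hs, hs, hs]
      apply Multiplicative.toAdd.injective
      rw [toAdd_ofAdd]
      ext
      · simp
      · simp
        ring
    · intro v
      refine ⟨(-v.1 - v.1 + v.2, -v.1 - v.2), ?_⟩
      rw [hs]
      apply Multiplicative.toAdd.injective
      rw [toAdd_ofAdd, toAdd_ofAdd]
      ext
      · simp
        ring
      · simp
        ring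

end Run7.h505.RT
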