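import Mathlib

/-!
Two commuting operators `X`, `Y` on a vector space and a linear observation `ev`: vectors which
satisfy a monic recurrence in `Y` with coefficients in `F[X]` are determined by finitely many rows.
-/

set_option autoImplicit false

namespace Run7.h505.RT

open Module Polynomial Finset

variable {F V W : Type*} [Field F] [AddCommGroup V] [Module F V] [AddCommGroup W] [Module F W]

/-- the row `j` of `v` vanishes -/
def RowZ (X Y : End F V) (ev : V →ₗ[F] W) (v : V) (j : ℕ) : Prop :=
  ∀ i : ℕ, ev ((X ^ i) ((Y ^ j) v)) = 0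

/-- the operator of a monic recurrence of order `k` -/
noncomputable def Pk (X Y : End F V) (k : ℕ) (c : ℕ → F[X]) : End F V :=
  Y ^ k - ∑ j ∈ range k, aeval X (c j) * Y ^ j

/-- a monic recurrence of order `k` -/
def Rec (X Y : End F V) (k : ℕ) (u : V) : Prop := ∃ c : ℕ → F[X], Pk X Y k c u = 0

variable {X Y : End F V} {ev : V →ₗ[F] W}

theorem commute_aeval_left (h : Commute X Y) (q : F[X]) : Commute (aeval X q) Y := by
  induction q using Polynomial.induction_on' with
  | add p q hp hq => rw [map_add]; exact hp.add_left hq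
  | monomial n a =>
    rw [aeval_monomial]
    exact (show Commute (algebraMap F (End F V) a) Y from Algebra.commutes a Y).mul_left
      (h.pow_left n)

theorem commute_aeval_aeval (q r : F[X]) : Commute (aeval X q) (aeval X r) := by
  rw [commute_iff_eq, ← map_mul, ← map_mul, mul_comm]

theorem RowZ.add {u v : V} {j : ℕ} (hu : RowZ X Y ev u j) (hv : RowZ X Y ev v j) :
    RowZ X Y ev (u + v) j := by
  intro i
  rw [map_add, map_add, map_add, hu i, hv i, add_zero]

theorem RowZ.sub {u v : V} {j : ℕ} (hu : RowZ X Y ev u j) (hv : RowZ X Y ev v j) :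
    RowZ X Y ev (u - v) j := by
  intro i
  rw [map_sub, map_sub, map_sub, hu i, hv i, sub_zero]

theorem RowZ.sum {ι : Type*} (s : Finset ι) (f : ι → V) {j : ℕ} (h : ∀ a ∈ s, RowZ X Y ev (f a) j) :
    RowZ X Y ev (∑ a ∈ s, f a) j := by
  intro i
  rw [map_sum, map_sum, map_sum]
  exact Finset.sum_eq_zero fun a ha => h a ha i

theorem RowZ.aeval (hXY : Commute X Y) {v : V} {j : ℕ} (hv : RowZ X Y ev v j) (q : F[X]) :
    RowZ X Y ev (aeval X q v) j := by
  induction q using Polynomial.induction_on' with
  | add p q hp hq => rw [map_add, LinearMap.add_apply]; exact hp.add hq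
  | monomial n a =>
    intro i
    rw [aeval_monomial, Algebra.algebraMap_eq_smul_one, smul_mul_assoc, one_mul,
      LinearMap.smul_apply, map_smul, map_smul, map_smul]
    have h1 : (X ^ i) ((Y ^ j) ((X ^ n) v)) = (X ^ (i + n)) ((Y ^ j) v) := by
      have h2 : Y ^ j * X ^ n = X ^ n * Y ^ j := ((hXY.symm.pow_pow j n)).eq
      have h3 : (Y ^ j) ((X ^ n) v) = (X ^ n) ((Y ^ j) v) := by
        have := congrArg (fun T : End F V => T v) h2
        simpa using this
      rw [h3, pow_add]
      rfl
    rw [h1, hv, smul_zero]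

theorem RowZ.shift {v : V} {j l : ℕ} : RowZ X Y ev ((Y ^ l) v) j ↔ RowZ X Y ev v (j + l) := by
  unfold RowZ
  have h : ∀ i, (X ^ i) ((Y ^ j) ((Y ^ l) v)) = (X ^ i) ((Y ^ (j + l)) v) := by
    intro i
    rw [pow_add]
    rfl
  constructor
  · intro H i
    rw [← h]; exact H i
  · intro H i
    rw [h]; exact H i

theorem row_rec (hXY : Commute X Y) {k : ℕ} {c : ℕ → F[X]} {z : V} (hz : Pk X Y k c z = 0)
    (h0 : ∀ j < k, RowZ X Y ev z j) (j : ℕ) : RowZ X Y ev z j := by
  induction j using Nat.strong_induction_on with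
  | _ j ih =>
    rcases Nat.lt_or_ge j k with hj | hj
    · exact h0 j hj
    · obtain ⟨l, rfl⟩ := Nat.exists_eq_add_of_le' hj
      rw [← RowZ.shift]
      have h1 : (Y ^ k) z = ∑ i ∈ range k, Polynomial.aeval X (c i) ((Y ^ i) z) := by
        have h2 := hz
        unfold Pk at h2
        rw [LinearMap.sub_apply, sub_eq_zero, LinearMap.sum_apply] at h2
        rw [h2]
        rfl
      rw [h1]
      apply RowZ.sum
      intro i hi
      apply RowZ.aeval hXY
      rw [RowZ.shift]
      exact ih _ (by have := mem_range.1 hi; omega)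

theorem Pk_row (hXY : Commute X Y) {k : ℕ} (c : ℕ → F[X]) {v : V} {j : ℕ}
    (h : ∀ l ≤ k, RowZ X Y ev v (j + l)) : RowZ X Y ev (Pk X Y k c v) j := by
  unfold Pk
  rw [LinearMap.sub_apply, LinearMap.sum_apply]
  apply RowZ.sub
  · rw [RowZ.shift]; exact h k le_rfl
  · apply RowZ.sum
    intro i hi
    show RowZ X Y ev (Polynomial.aeval X (c i) ((Y ^ i) v)) j
    apply RowZ.aeval hXY
    rw [RowZ.shift]
    exact h i (by have := mem_range.1 hi; omega)

theorem Pk_comm (hXY : Commute X Y) {k k' : ℕ} (c c' : ℕ → F[X]) :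
    Commute (Pk X Y k c) (Pk X Y k' c') := by
  have key : ∀ (q r : F[X]) (i j : ℕ), Commute (aeval X q * Y ^ i) (aeval X r * Y ^ j) := by
    intro q r i j
    have h1 := commute_aeval_left hXY q
    have h2 := commute_aeval_left hXY r
    apply Commute.mul_left
    · exact (commute_aeval_aeval q r).mul_right (h1.pow_right j)
    · exact ((h2.pow_right i).symm).mul_right (Commute.pow_pow_self Y i j)
  have one : ∀ i, Y ^ i = aeval X (1 : F[X]) * Y ^ i := by
    intro i; rw [map_one, one_mul]
  unfold Pk
  rw [one k, one k']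
  apply Commute.sub_left
  · apply Commute.sub_right (key _ _ _ _)
    exact Commute.sum_right _ _ _ fun j _ => key _ _ _ _
  · apply Commute.sub_right
    · exact Commute.sum_left _ _ _ fun j _ => key _ _ _ _
    · exact Commute.sum_left _ _ _ fun j _ => Commute.sum_right _ _ _ fun i _ => key _ _ _ _

/-- two vectors which satisfy monic recurrences of the same order `k` (maybe different ones) and
which have the same rows `0, ..., 2k - 1` are equal -/
theorem eq_of_rows (hXY : Commute X Y) (sep : ∀ v : V, (∀ j, RowZ X Y ev v j) → v = 0)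
    {k : ℕ} {u u' : V} (hu : Rec X Y k u) (hu' : Rec X Y k u')
    (h : ∀ j < 2 * k, RowZ X Y ev (u - u') j) : u = u' := by
  obtain ⟨c, hc⟩ := hu
  obtain ⟨c', hc'⟩ := hu'
  have hz : Pk X Y k c' u = 0 := by
    apply sep
    have h1 : Pk X Y k c' u = Pk X Y k c' (u - u') := by
      rw [map_sub, hc', sub_zero]
    apply row_rec hXY (c := c) (k := k)
    · have h2 := (Pk_comm hXY c c' (k := k) (k' := k)).eq
      have h3 := congrArg (fun T : End F V => T u) h2
      simp only [Module.End.mul_apply] at h3
      rw [h3, hc, map_zero]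
    · intro j hj
      rw [h1]
      apply Pk_row hXY
      intro l hl
      by_cases hlk : j + l < 2 * k
      · exact h _ hlk
      · omega
  have h4 : u - u' = 0 := by
    apply sep
    apply row_rec hXY (c := c') (k := k)
    · rw [map_sub, hz, hc', sub_zero]
    · intro j hj
      exact h j (by omega)
  exact sub_eq_zero.1 h4

end Run7.h505.RT
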