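import Pool.Agent.Run7.h505.RT.A

/-!
The submodule generated by a vector under two commuting operators `X`, `Y`; the numbers
`κ(t) = dim (ker D ∩ D^t ⟨w⟩)`, `D = X - 1`, are decreasing with sum `dim ⟨w⟩`, and `D^t w`
satisfies a monic recurrence of order `κ(t)`.
-/

set_option autoImplicit false

namespace Run7.h505.RT

open Module Polynomial Finset

variable {F V W : Type*} [Field F] [AddCommGroup V] [Module F V] [AddCommGroup W] [Module F W]

/-- the submodule generated by `w` under `X` and `Y` -/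
def cyc (X Y : End F V) (w : V) : Submodule F V :=
  Submodule.span F (Set.range fun ij : ℕ × ℕ => (X ^ ij.1) ((Y ^ ij.2) w))

variable {X Y : End F V}

theorem mem_cyc (w : V) (i j : ℕ) : (X ^ i) ((Y ^ j) w) ∈ cyc X Y w :=
  Submodule.subset_span ⟨(i, j), rfl⟩

theorem self_mem_cyc (w : V) : w ∈ cyc X Y w := mem_cyc w 0 0

theorem comm_apply (h : Commute X Y) (i j : ℕ) (v : V) :
    (Y ^ j) ((X ^ i) v) = (X ^ i) ((Y ^ j) v) := by
  have h2 := (h.symm.pow_pow j i).eq
  have := congrArg (fun T : End F V => T v) h2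
  simpa using this

theorem cyc_le (_hXY : Commute X Y) {w : V} {S : Submodule F V} (hw : w ∈ S)
    (hX : ∀ v ∈ S, X v ∈ S) (hY : ∀ v ∈ S, Y v ∈ S) : cyc X Y w ≤ S := by
  unfold cyc
  rw [Submodule.span_le]
  rintro _ ⟨⟨i, j⟩, rfl⟩
  have h1 : ∀ j : ℕ, (Y ^ j) w ∈ S := by
    intro j
    induction j with
    | zero => exact hw
    | succ j ih => rw [pow_succ']; exact hY _ ih
  have h2 : ∀ i : ℕ, (X ^ i) ((Y ^ j) w) ∈ S := by
    intro i
    induction i with
    | zero => exact h1 j
    | succ i ih => rw [pow_succ']; exact hX _ ih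
  exact h2 i

theorem cyc_X (w : V) : ∀ v ∈ cyc X Y w, X v ∈ cyc X Y w := by
  intro v hv
  unfold cyc at hv
  induction hv using Submodule.span_induction with
  | mem x hx =>
    obtain ⟨⟨i, j⟩, rfl⟩ := hx
    have : X ((X ^ i) ((Y ^ j) w)) = (X ^ (i + 1)) ((Y ^ j) w) := by rw [pow_succ']; rfl
    show X ((X ^ i) ((Y ^ j) w)) ∈ _
    rw [this]
    exact mem_cyc w _ _
  | zero => rw [map_zero]; exact Submodule.zero_mem _
  | add x y _ _ hx hy => rw [map_add]; exact Submodule.add_mem _ hx hy
  | smul a x _ hx => rw [map_smul]; exact Submodule.smul_mem _ _ hx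

theorem cyc_Y (hXY : Commute X Y) (w : V) : ∀ v ∈ cyc X Y w, Y v ∈ cyc X Y w := by
  intro v hv
  unfold cyc at hv
  induction hv using Submodule.span_induction with
  | mem x hx =>
    obtain ⟨⟨i, j⟩, rfl⟩ := hx
    have : Y ((X ^ i) ((Y ^ j) w)) = (X ^ i) ((Y ^ (j + 1)) w) := by
      have := comm_apply hXY i 1 ((Y ^ j) w)
      rw [pow_one] at this
      rw [this, pow_succ']
      rfl
    show Y ((X ^ i) ((Y ^ j) w)) ∈ _
    rw [this]
    exact mem_cyc w _ _
  | zero => rw [map_zero]; exact Submodule.zero_mem _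
  | add x y _ _ hx hy => rw [map_add]; exact Submodule.add_mem _ hx hy
  | smul a x _ hx => rw [map_smul]; exact Submodule.smul_mem _ _ hx

/-- images of the generated submodule under an operator that commutes with `X` and `Y` -/
theorem cyc_map {T : End F V} (hX : Commute T X) (hY : Commute T Y) (w : V) :
    cyc X Y (T w) = (cyc X Y w).map T := by
  unfold cyc
  rw [Submodule.map_span, ← Set.range_comp]
  congr 1
  ext v
  constructor
  · rintro ⟨⟨i, j⟩, rfl⟩
    refine ⟨(i, j), ?_⟩
    have h1 := (hX.pow_right i).eq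
    have h2 := (hY.pow_right j).eq
    have h3 := congrArg (fun S : End F V => S ((Y ^ j) w)) h1
    have h4 := congrArg (fun S : End F V => S w) h2
    simp only [Module.End.mul_apply] at h3 h4
    simp only [Function.comp_apply]
    rw [h3, h4]
  · rintro ⟨⟨i, j⟩, rfl⟩
    refine ⟨(i, j), ?_⟩
    have h1 := (hX.pow_right i).eq
    have h2 := (hY.pow_right j).eq
    have h3 := congrArg (fun S : End F V => S ((Y ^ j) w)) h1
    have h4 := congrArg (fun S : End F V => S w) h2
    simp only [Module.End.mul_apply] at h3 h4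
    simp only [Function.comp_apply]
    rw [h3, h4]

/-- the submodule of `∑_{i<k} F[X] Y^i u` -/
def Nk (X Y : End F V) (u : V) (k : ℕ) : Submodule F V :=
  Submodule.span F (Set.range fun ij : ℕ × Fin k => (X ^ ij.1) ((Y ^ (ij.2 : ℕ)) u))

theorem mem_Nk (u : V) {k i j : ℕ} (hj : j < k) : (X ^ i) ((Y ^ j) u) ∈ Nk X Y u k :=
  Submodule.subset_span ⟨(i, ⟨j, hj⟩), rfl⟩

theorem Nk_X (u : V) (k : ℕ) : ∀ v ∈ Nk X Y u k, X v ∈ Nk X Y u k := by
  intro v hv
  unfold Nk at hv
  induction hv using Submodule.span_induction with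
  | mem x hx =>
    obtain ⟨⟨i, j⟩, rfl⟩ := hx
    have : X ((X ^ i) ((Y ^ (j : ℕ)) u)) = (X ^ (i + 1)) ((Y ^ (j : ℕ)) u) := by
      rw [pow_succ']; rfl
    show X ((X ^ i) ((Y ^ (j : ℕ)) u)) ∈ _
    rw [this]
    exact mem_Nk u j.2
  | zero => rw [map_zero]; exact Submodule.zero_mem _
  | add x y _ _ hx hy => rw [map_add]; exact Submodule.add_mem _ hx hy
  | smul a x _ hx => rw [map_smul]; exact Submodule.smul_mem _ _ hx

theorem Nk_Y (hXY : Commute X Y) (u : V) (k : ℕ) : ∀ v ∈ Nk X Y u k, Y v ∈ Nk X Y u (k + 1) := by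
  intro v hv
  unfold Nk at hv
  induction hv using Submodule.span_induction with
  | mem x hx =>
    obtain ⟨⟨i, j⟩, rfl⟩ := hx
    have : Y ((X ^ i) ((Y ^ (j : ℕ)) u)) = (X ^ i) ((Y ^ ((j : ℕ) + 1)) u) := by
      have := comm_apply hXY i 1 ((Y ^ (j : ℕ)) u)
      rw [pow_one] at this
      rw [this, pow_succ']
      rfl
    show Y ((X ^ i) ((Y ^ (j : ℕ)) u)) ∈ _
    rw [this]
    exact mem_Nk u (by have := j.2; omega)
  | zero => rw [map_zero]; exact Submodule.zero_mem _
  | add x y _ _ hx hy => rw [map_add]; exact Submodule.add_mem _ hx hy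
  | smul a x _ hx => rw [map_smul]; exact Submodule.smul_mem _ _ hx

theorem Nk_le_cyc (u : V) (k : ℕ) : Nk X Y u k ≤ cyc X Y u := by
  unfold Nk
  rw [Submodule.span_le]
  rintro _ ⟨⟨i, j⟩, rfl⟩
  exact mem_cyc u _ _

theorem Nk_mono (u : V) {k l : ℕ} (h : k ≤ l) : Nk X Y u k ≤ Nk X Y u l := by
  unfold Nk
  rw [Submodule.span_le]
  rintro _ ⟨⟨i, j⟩, rfl⟩
  exact mem_Nk u (lt_of_lt_of_le j.2 h)

theorem rec_of_mem {u : V} {k : ℕ} (h : (Y ^ k) u ∈ Nk X Y u k) : Rec X Y k u := by
  have key : ∀ v ∈ Nk X Y u k, ∃ c : ℕ → F[X], v = ∑ j ∈ range k, aeval X (c j) ((Y ^ j) u) := by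
    intro v hv
    unfold Nk at hv
    induction hv using Submodule.span_induction with
    | mem x hx =>
      obtain ⟨⟨i, j⟩, rfl⟩ := hx
      refine ⟨fun l => if l = (j : ℕ) then Polynomial.X ^ i else 0, ?_⟩
      rw [Finset.sum_eq_single (j : ℕ)]
      · simp
      · intro l _ hl
        simp [hl]
      · intro hj
        exact absurd (mem_range.2 j.2) hj
    | zero => exact ⟨fun _ => 0, by simp⟩
    | add x y _ _ hx hy =>
      obtain ⟨c, rfl⟩ := hx
      obtain ⟨c', rfl⟩ := hy
      refine ⟨fun l => c l + c' l, ?_⟩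
      rw [← Finset.sum_add_distrib]
      refine Finset.sum_congr rfl fun l _ => ?_
      rw [map_add, LinearMap.add_apply]
    | smul a x _ hx =>
      obtain ⟨c, rfl⟩ := hx
      refine ⟨fun l => a • c l, ?_⟩
      rw [Finset.smul_sum]
      refine Finset.sum_congr rfl fun l _ => ?_
      rw [map_smul, LinearMap.smul_apply]
  obtain ⟨c, hc⟩ := key _ h
  refine ⟨c, ?_⟩
  unfold Pk
  rw [LinearMap.sub_apply, LinearMap.sum_apply, sub_eq_zero, hc]
  rfl

/-- the order of the recurrence -/
noncomputable def ord (X Y : End F V) (u : V) : ℕ :=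
  finrank F ↥(LinearMap.ker (X - 1) ⊓ cyc X Y u)

theorem finrank_map_ker (T : End F V) (U : Submodule F V) [FiniteDimensional F U] :
    finrank F (U.map T) + finrank F ↥(LinearMap.ker T ⊓ U) = finrank F U := by
  have h := LinearMap.finrank_range_add_finrank_ker (T.domRestrict U)
  rw [LinearMap.range_domRestrict] at h
  have h2 : finrank F (LinearMap.ker (T.domRestrict U)) = finrank F ↥(LinearMap.ker T ⊓ U) := by
    have e : (LinearMap.ker (T.domRestrict U)).map U.subtype = LinearMap.ker T ⊓ U := by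
      ext v
      constructor
      · rintro ⟨x, hx, rfl⟩
        exact ⟨hx, x.2⟩
      · rintro ⟨h1, h2⟩
        exact ⟨⟨v, h2⟩, h1, rfl⟩
    rw [← e]
    exact (LinearEquiv.finrank_eq
      (Submodule.equivMapOfInjective U.subtype U.injective_subtype _))
  rw [h2] at h
  exact h

theorem rec_ord (hXY : Commute X Y) {u : V} [FiniteDimensional F (cyc X Y u)] {s : ℕ}
    (hs : ((X - 1) ^ s) u = 0) : Rec X Y (ord X Y u) u := by
  set D : End F V := X - 1 with hD
  set U := cyc X Y u with hU
  have hDX : Commute D X := by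
    rw [hD]; exact (Commute.refl X).sub_left (Commute.one_left X)
  have hDY : Commute D Y := by
    rw [hD]; exact hXY.sub_left (Commute.one_left Y)
  have hUX := cyc_X (X := X) (Y := Y) u
  have hUY := cyc_Y hXY u
  have hUD : ∀ v ∈ U, D v ∈ U := by
    intro v hv
    rw [hD, LinearMap.sub_apply]
    exact Submodule.sub_mem _ (hUX v hv) hv
  have hmap : U.map D ≤ U := by
    rintro _ ⟨v, hv, rfl⟩
    exact hUD v hv
  have hmapX : ∀ v ∈ U.map D, X v ∈ U.map D := by
    rintro _ ⟨v, hv, rfl⟩
    refine ⟨X v, hUX v hv, ?_⟩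
    have := congrArg (fun T : End F V => T v) hDX.eq
    simpa using this
  have hmapY : ∀ v ∈ U.map D, Y v ∈ U.map D := by
    rintro _ ⟨v, hv, rfl⟩
    refine ⟨Y v, hUY v hv, ?_⟩
    have := congrArg (fun T : End F V => T v) hDY.eq
    simpa using this
  -- the chain `N_j + DU`
  let S : ℕ → Submodule F V := fun j => Nk X Y u j ⊔ U.map D
  have hSU : ∀ j, S j ≤ U := fun j => sup_le (Nk_le_cyc u j) hmap
  have hSX : ∀ j, ∀ v ∈ S j, X v ∈ S j := by
    intro j v hv
    obtain ⟨a, ha, b, hb, rfl⟩ := Submodule.mem_sup.1 hv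
    rw [map_add]
    exact Submodule.add_mem_sup (Nk_X u j a ha) (hmapX b hb)
  have hSY : ∀ j, ∀ v ∈ S j, Y v ∈ S (j + 1) := by
    intro j v hv
    obtain ⟨a, ha, b, hb, rfl⟩ := Submodule.mem_sup.1 hv
    rw [map_add]
    exact Submodule.add_mem_sup (Nk_Y hXY u j a ha) (hmapY b hb)
  have hchain : ∀ j, S j = U ∨ finrank F (U.map D) + j ≤ finrank F (S j) := by
    intro j
    induction j with
    | zero =>
      right
      have : U.map D ≤ S 0 := le_sup_right
      have hfd : FiniteDimensional F (S 0) := Submodule.finiteDimensional_of_le (hSU 0)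
      simpa using Submodule.finrank_mono this
    | succ j ih =>
      by_cases hj : S (j + 1) = U
      · exact Or.inl hj
      right
      have hle : S j ≤ S (j + 1) := sup_le_sup_right (Nk_mono u (Nat.le_succ j)) _
      have hne : S j ≠ S (j + 1) := by
        intro heq
        apply hj
        apply le_antisymm (hSU _)
        apply cyc_le hXY
        · exact (le_sup_left : Nk X Y u (j + 1) ≤ S (j + 1))
            (by simpa using mem_Nk (X := X) (Y := Y) u (i := 0) (j := 0) (Nat.succ_pos j))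
        · exact hSX _
        · intro v hv
          rw [← heq] at hv
          exact hSY j v hv
      have hfd : FiniteDimensional F (S (j + 1)) := Submodule.finiteDimensional_of_le (hSU _)
      have h1 := Submodule.finrank_lt_finrank_of_lt (lt_of_le_of_ne hle hne)
      rcases ih with h2 | h2
      · exfalso
        apply hj
        exact le_antisymm (hSU _) (h2 ▸ hle)
      · omega
  have hk : S (ord X Y u) = U := by
    rcases hchain (ord X Y u) with h | h
    · exact h
    · apply Submodule.eq_of_le_of_finrank_le (hSU _)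
      have h3 := finrank_map_ker D U
      have h4 : ord X Y u = finrank F ↥(LinearMap.ker D ⊓ U) := rfl
      omega
  -- Nakayama
  have hN : ∀ s : ℕ, U ≤ Nk X Y u (ord X Y u) ⊔ U.map (D ^ s) := by
    intro s
    induction s with
    | zero =>
      rw [pow_zero]
      intro v hv
      exact (le_sup_right : U.map (1 : End F V) ≤ _) ⟨v, hv, rfl⟩
    | succ s ih =>
      refine ih.trans (sup_le le_sup_left ?_)
      rintro _ ⟨v, hv, rfl⟩
      rw [← hk] at hv
      obtain ⟨a, ha, b, ⟨b', hb', rfl⟩, rfl⟩ := Submodule.mem_sup.1 hv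
      rw [map_add]
      apply Submodule.add_mem_sup
      · have : ∀ s : ℕ, (D ^ s) a ∈ Nk X Y u (ord X Y u) := by
          intro s
          induction s with
          | zero => exact ha
          | succ s ih2 =>
            rw [pow_succ', hD]
            show (X - 1 : End F V) (((X - 1) ^ s) a) ∈ _
            rw [LinearMap.sub_apply]
            exact Submodule.sub_mem _ (Nk_X u _ _ ih2) ih2
        exact this s
      · refine ⟨b', hb', ?_⟩
        rw [pow_succ]
        rfl
  have h0 : U.map (D ^ s) = ⊥ := by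
    rw [hU, ← cyc_map (hDX.pow_left s) (hDY.pow_left s), hs]
    rw [eq_bot_iff]
    exact cyc_le hXY (Submodule.zero_mem _) (by simp) (by simp)
  have h1 := hN s
  rw [h0, sup_bot_eq] at h1
  apply rec_of_mem
  apply h1
  have := mem_cyc (X := X) (Y := Y) u 0 (ord X Y u)
  simpa using this

end Run7.h505.RT
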