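import Pool.Agent.Run7.h505.RT.B

/-!
The numbers `κ(t)`: monotone, sum, weighted sum; and the decoding lemma: `w` is determined by the
numbers `κ(0), κ(1), κ(p), κ(p^2), ...` and its values on a set of size `O(dim ⟨w⟩)`.
-/

set_option autoImplicit false

namespace Run7.h505.RT

open Module Polynomial Finset

variable {F V W : Type*} [Field F] [AddCommGroup V] [Module F V] [AddCommGroup W] [Module F W]
variable {X Y : End F V}

theorem D_comm_X (X : End F V) : Commute (X - 1) X := (Commute.refl X).sub_left (Commute.one_left X)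

theorem D_comm_Y (h : Commute X Y) : Commute (X - 1) Y := h.sub_left (Commute.one_left Y)

theorem D_pow (p : ℕ) [Fact p.Prime] [CharP F p] (X : End F V) (i : ℕ) :
    (X - 1) ^ (p ^ i) = X ^ (p ^ i) - 1 := by
  have h : ((Polynomial.X - 1 : F[X])) ^ (p ^ i) = Polynomial.X ^ (p ^ i) - 1 := by
    rw [sub_pow_char_pow, one_pow]
  have h2 := congrArg (aeval X) h
  simpa using h2

/-- the orders of the recurrences -/
noncomputable def kap (X Y : End F V) (w : V) (t : ℕ) : ℕ := ord X Y (((X - 1) ^ t) w)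

theorem cyc_D (hXY : Commute X Y) (w : V) (t : ℕ) :
    cyc X Y (((X - 1) ^ t) w) = (cyc X Y w).map ((X - 1) ^ t) :=
  cyc_map ((D_comm_X X).pow_left t) ((D_comm_Y hXY).pow_left t) w

theorem cyc_D_le (hXY : Commute X Y) (w : V) (t : ℕ) :
    cyc X Y (((X - 1) ^ (t + 1)) w) ≤ cyc X Y (((X - 1) ^ t) w) := by
  apply cyc_le hXY _ (cyc_X _) (cyc_Y hXY _)
  rw [pow_succ']
  show (X - 1 : End F V) (((X - 1) ^ t) w) ∈ _
  rw [LinearMap.sub_apply]
  exact Submodule.sub_mem _ (cyc_X _ _ (self_mem_cyc _)) (self_mem_cyc _)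

theorem cyc_D_fd (hXY : Commute X Y) (w : V) (t : ℕ) [FiniteDimensional F (cyc X Y w)] :
    FiniteDimensional F (cyc X Y (((X - 1) ^ t) w)) := by
  rw [cyc_D hXY]
  infer_instance

theorem kap_anti (hXY : Commute X Y) (w : V) [FiniteDimensional F (cyc X Y w)] (t : ℕ) :
    kap X Y w (t + 1) ≤ kap X Y w t := by
  unfold kap ord
  have := cyc_D_fd hXY w t
  have h := inf_le_inf_left (LinearMap.ker (X - 1)) (cyc_D_le hXY w t)
  have hfd : FiniteDimensional F ↥(LinearMap.ker (X - 1) ⊓ cyc X Y (((X - 1) ^ t) w)) :=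
    Submodule.finiteDimensional_of_le inf_le_right
  exact Submodule.finrank_mono h

theorem kap_antitone (hXY : Commute X Y) (w : V) [FiniteDimensional F (cyc X Y w)] :
    Antitone (kap X Y w) := antitone_nat_of_succ_le (kap_anti hXY w)

theorem kap_sum (hXY : Commute X Y) (w : V) [FiniteDimensional F (cyc X Y w)] (T : ℕ) :
    ∑ t ∈ range T, kap X Y w t + finrank F (cyc X Y (((X - 1) ^ T) w)) =
      finrank F (cyc X Y w) := by
  induction T with
  | zero => simp only [Finset.range_zero, Finset.sum_empty, zero_add]; rfl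
  | succ T ih =>
    rw [Finset.sum_range_succ]
    have := cyc_D_fd hXY w T
    have h := finrank_map_ker (X - 1) (cyc X Y (((X - 1) ^ T) w))
    have e : (cyc X Y (((X - 1) ^ T) w)).map (X - 1) = cyc X Y (((X - 1) ^ (T + 1)) w) := by
      rw [← cyc_map (D_comm_X X) (D_comm_Y hXY), pow_succ']
      rfl
    rw [e] at h
    have h2 : kap X Y w T = finrank F ↥(LinearMap.ker (X - 1) ⊓ cyc X Y (((X - 1) ^ T) w)) := rfl
    omega

theorem kap_sum_le (hXY : Commute X Y) (w : V) [FiniteDimensional F (cyc X Y w)] (T : ℕ) :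
    ∑ t ∈ range T, kap X Y w t ≤ finrank F (cyc X Y w) := by
  have := kap_sum hXY w T
  omega

theorem kap_le (hXY : Commute X Y) (w : V) [FiniteDimensional F (cyc X Y w)] (t : ℕ) :
    kap X Y w t ≤ finrank F (cyc X Y w) :=
  (Finset.single_le_sum (f := kap X Y w) (fun _ _ => Nat.zero_le _)
    (mem_range.2 (Nat.lt_succ_self t))).trans (kap_sum_le hXY w (t + 1))

/-- the scales `0, 1, p, p ^ 2, ...` -/
def sc (p : ℕ) : ℕ → ℕ
  | 0 => 0
  | i + 1 => p ^ i

theorem weighted (κ : ℕ → ℕ) (hκ : Antitone κ) (p : ℕ) (hp : 2 ≤ p) (j : ℕ) :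
    ∑ i ∈ range (j + 1), p ^ i * κ (p ^ i) ≤ 2 * ∑ t ∈ range (p ^ j + 1), κ t := by
  induction j with
  | zero =>
    simp only [zero_add, Finset.sum_range_one, pow_zero, one_mul]
    rw [Finset.sum_range_succ, Finset.sum_range_one]
    omega
  | succ j ih =>
    rw [Finset.sum_range_succ]
    have h1 : p ^ j ≤ p ^ (j + 1) := Nat.pow_le_pow_right (by omega) (Nat.le_succ j)
    have h2 : ∑ t ∈ range (p ^ (j + 1) + 1), κ t =
        ∑ t ∈ range (p ^ j + 1), κ t + ∑ t ∈ Ico (p ^ j + 1) (p ^ (j + 1) + 1), κ t := by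
      rw [Finset.range_eq_Ico, Finset.range_eq_Ico, Finset.sum_Ico_consecutive] <;> omega
    have h3 : (p ^ (j + 1) - p ^ j) * κ (p ^ (j + 1)) ≤
        ∑ t ∈ Ico (p ^ j + 1) (p ^ (j + 1) + 1), κ t := by
      have h4 : (Ico (p ^ j + 1) (p ^ (j + 1) + 1)).card = p ^ (j + 1) - p ^ j := by
        rw [Nat.card_Ico]; omega
      rw [← h4, ← smul_eq_mul]
      apply Finset.card_nsmul_le_sum
      intro t ht
      apply hκ
      have := (mem_Ico.1 ht).2
      omega
    have h5 : p ^ (j + 1) ≤ 2 * (p ^ (j + 1) - p ^ j) := by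
      have : 2 * p ^ j ≤ p ^ (j + 1) := by rw [pow_succ']; exact Nat.mul_le_mul_right _ hp
      omega
    have h6 : p ^ (j + 1) * κ (p ^ (j + 1)) ≤ 2 * ((p ^ (j + 1) - p ^ j) * κ (p ^ (j + 1))) := by
      rw [← mul_assoc]; exact Nat.mul_le_mul_right _ h5
    omega

theorem weighted_sc (hXY : Commute X Y) (w : V) [FiniteDimensional F (cyc X Y w)] (p : ℕ)
    (hp : 2 ≤ p) (N : ℕ) :
    ∑ i ∈ range (N + 1), p ^ i * kap X Y w (sc p i) ≤ 3 * p * finrank F (cyc X Y w) := by
  rw [Finset.sum_range_succ']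
  have h0 : p ^ 0 * kap X Y w (sc p 0) ≤ finrank F (cyc X Y w) := by
    rw [pow_zero, one_mul]; exact kap_le hXY w _
  have h1 : ∑ i ∈ range N, p ^ (i + 1) * kap X Y w (sc p (i + 1)) =
      p * ∑ i ∈ range N, p ^ i * kap X Y w (p ^ i) := by
    rw [Finset.mul_sum]
    refine Finset.sum_congr rfl fun i _ => ?_
    show p ^ (i + 1) * kap X Y w (p ^ i) = _
    rw [pow_succ']; ring
  have h2 : ∑ i ∈ range N, p ^ i * kap X Y w (p ^ i) ≤ 2 * finrank F (cyc X Y w) := by
    rcases N with _ | N
    · simp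
    · exact (weighted _ (kap_antitone hXY w) p hp N).trans
        (Nat.mul_le_mul_left 2 (kap_sum_le hXY w _))
  have h3 := Nat.mul_le_mul_left p h2
  have h4 : 1 * finrank F (cyc X Y w) ≤ p * finrank F (cyc X Y w) :=
    Nat.mul_le_mul_right _ (by omega)
  rw [h1]
  calc _ ≤ p * (2 * finrank F (cyc X Y w)) + finrank F (cyc X Y w) := Nat.add_le_add h3 h0
    _ ≤ 3 * p * finrank F (cyc X Y w) := by nlinarith

/-- the decoding lemma -/
theorem decode (p : ℕ) [hp : Fact p.Prime] [CharP F p] (hXY : Commute X Y) (ev : V →ₗ[F] W)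
    (sep : ∀ v : V, (∀ j, RowZ X Y ev v j) → v = 0) (N : ℕ) (w w' : V)
    [FiniteDimensional F (cyc X Y w)] [FiniteDimensional F (cyc X Y w')]
    (hw : ((X - 1) ^ (p ^ N)) w = 0) (hw' : ((X - 1) ^ (p ^ N)) w' = 0)
    (hk : ∀ i ≤ N, kap X Y w (sc p i) = kap X Y w' (sc p i))
    (hE : ∀ i ≤ N, ∀ a < 2 * p ^ i, ∀ b < 2 * kap X Y w (sc p i),
      ev ((X ^ a) ((Y ^ b) w)) = ev ((X ^ a) ((Y ^ b) w'))) : w = w' := by
  have hp1 : 1 ≤ p := hp.out.one_lt.le
  -- downward induction over the scales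
  have key : ∀ j ≤ N + 1, ((X - 1) ^ (sc p (N + 1 - j))) w = ((X - 1) ^ (sc p (N + 1 - j))) w' := by
    intro j
    induction j with
    | zero =>
      intro _
      show ((X - 1) ^ (p ^ N)) w = ((X - 1) ^ (p ^ N)) w'
      rw [hw, hw']
    | succ j ih =>
      intro hj
      have ih' := ih (by omega)
      obtain ⟨i, hi⟩ : ∃ i, N + 1 - (j + 1) = i := ⟨_, rfl⟩
      have hi2 : N + 1 - j = i + 1 := by omega
      have hiN : i ≤ N := by omega
      rw [hi]
      rw [hi2] at ih'
      set u := ((X - 1) ^ (sc p i)) w with hu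
      set u' := ((X - 1) ^ (sc p i)) w' with hu'
      have hle : sc p i ≤ sc p (i + 1) := by
        show sc p i ≤ p ^ i
        rcases i with _ | i
        · exact Nat.zero_le _
        · exact Nat.pow_le_pow_right hp1 (Nat.le_succ i)
      -- `u - u'` is periodic
      have hsub : ((X - 1) ^ (p ^ i)) (u - u') = 0 := by
        have h1 : ((X - 1) ^ (sc p (i + 1) - sc p i)) (u - u') = 0 := by
          rw [map_sub, hu, hu', ← Module.End.mul_apply, ← Module.End.mul_apply, ← pow_add,
            Nat.sub_add_cancel hle, ih', sub_self]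
        have h2 : p ^ i = (p ^ i - (sc p (i + 1) - sc p i)) + (sc p (i + 1) - sc p i) := by
          have : sc p (i + 1) = p ^ i := rfl
          omega
        rw [h2, pow_add, Module.End.mul_apply, h1, map_zero]
      have hper : (X ^ (p ^ i)) (u - u') = u - u' := by
        rw [D_pow, LinearMap.sub_apply, sub_eq_zero] at hsub
        exact hsub
      have hper2 : ∀ a : ℕ, (X ^ a) (u - u') = (X ^ (a % p ^ i)) (u - u') := by
        intro a
        have h3 : ∀ b : ℕ, (X ^ (p ^ i * b)) (u - u') = u - u' := by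
          intro b
          induction b with
          | zero => simp
          | succ b ihb =>
            rw [mul_add, mul_one, pow_add, Module.End.mul_apply, hper, ihb]
        conv_lhs => rw [← Nat.mod_add_div a (p ^ i)]
        rw [pow_add, Module.End.mul_apply, h3]
      have hpi : 0 < p ^ i := Nat.pow_pos hp1
      have fd1 := cyc_D_fd hXY w (sc p i)
      have fd2 := cyc_D_fd hXY w' (sc p i)
      have hru : Rec X Y (kap X Y w (sc p i)) u := by
        apply rec_ord hXY (s := p ^ N)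
        rw [← Module.End.mul_apply, ← pow_add, add_comm, pow_add, Module.End.mul_apply, hw,
          map_zero]
      have hru' : Rec X Y (kap X Y w (sc p i)) u' := by
        rw [hk i hiN]
        apply rec_ord hXY (s := p ^ N)
        rw [← Module.End.mul_apply, ← pow_add, add_comm, pow_add, Module.End.mul_apply, hw',
          map_zero]
      apply eq_of_rows hXY sep hru hru'
      intro b hb a
      have h4 : (X ^ a) ((Y ^ b) (u - u')) = (Y ^ b) ((X ^ (a % p ^ i)) (u - u')) := by
        rw [← comm_apply hXY, hper2]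
      rw [h4, comm_apply hXY]
      have ha : a % p ^ i < p ^ i := Nat.mod_lt _ hpi
      set a' := a % p ^ i with ha'
      have h5 : ∀ c < 2 * p ^ i, ev ((X ^ c) ((Y ^ b) (w - w'))) = 0 := by
        intro c hc
        rw [map_sub, map_sub, map_sub, hE i hiN c hc b hb, sub_self]
      have h6 : u - u' = ((X - 1) ^ (sc p i)) (w - w') := by rw [map_sub]
      rw [h6]
      rcases i with _ | i
      · have h9 : ((X - 1 : End F V) ^ (sc p 0)) (w - w') = w - w' := by
          show ((X - 1 : End F V) ^ 0) (w - w') = w - w'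
          rw [pow_zero]; rfl
        rw [h9]
        exact h5 a' (by omega)
      · show ev ((X ^ a') ((Y ^ b) (((X - 1 : End F V) ^ (p ^ i)) (w - w')))) = 0
        rw [D_pow, LinearMap.sub_apply, map_sub, map_sub, map_sub]
        have h7 : (X ^ a') ((Y ^ b) ((X ^ (p ^ i)) (w - w'))) =
            (X ^ (a' + p ^ i)) ((Y ^ b) (w - w')) := by
          rw [comm_apply hXY, pow_add]
          rfl
        have h8 : p ^ i ≤ p ^ (i + 1) := Nat.pow_le_pow_right hp1 (Nat.le_succ i)
        rw [h7, h5 _ (by omega)]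
        show 0 - ev ((X ^ a') ((Y ^ b) (w - w'))) = 0
        rw [h5 _ (by omega), sub_zero]
  have h := key (N + 1) le_rfl
  rw [Nat.sub_self] at h
  simpa [sc] using h

end Run7.h505.RT
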