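import Pool.Agent.Run7.h505.RT.C

/-!
The number of functions with small support; nilpotent operators; translations on functions on a
finite group.
-/

set_option autoImplicit false

namespace Run7.h505.RT

open Module Polynomial Finset

/-- functions `E → W` with at most `s` non-zero values -/
theorem ball (E W : Type*) [Fintype E] [Fintype W] [DecidableEq W] [DecidableEq E] [Zero W]
    (K s : ℝ) (hK : 1 ≤ K) :
    (((univ : Finset (E → W)).filter fun f => (((univ.filter fun e => f e ≠ 0).card : ℝ) ≤ s)).card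
      : ℝ) ≤ ((Fintype.card W : ℝ) * K) ^ s * (1 + 1 / K) ^ (Fintype.card E) := by
  classical
  have hW1 : (1 : ℝ) ≤ Fintype.card W := by
    have : 0 < Fintype.card W := Fintype.card_pos_iff.2 ⟨0⟩
    exact_mod_cast this
  have hK0 : 0 < K := by linarith
  have hWK : 1 ≤ (Fintype.card W : ℝ) * K := by nlinarith
  have hWK0 : 0 < (Fintype.card W : ℝ) * K := by linarith
  set l : ℝ := 1 / ((Fintype.card W : ℝ) * K) with hl
  have hl0 : 0 < l := by positivity
  have hl1 : l ≤ 1 := by rw [hl, div_le_one hWK0]; exact hWK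
  set B := (univ : Finset (E → W)).filter fun f => (((univ.filter fun e => f e ≠ 0).card : ℝ) ≤ s)
    with hB
  have h1 : ∀ f : E → W, l ^ (univ.filter fun e => f e ≠ 0).card =
      ∏ e, (if f e ≠ 0 then l else 1) := by
    intro f
    rw [Finset.prod_ite]
    simp
  have h2 : ∑ f : E → W, l ^ (univ.filter fun e => f e ≠ 0).card =
      (∑ x : W, if x ≠ 0 then l else 1) ^ (Fintype.card E) := by
    rw [Finset.sum_congr rfl fun f _ => h1 f]
    have h := Finset.prod_univ_sum (fun _ : E => (univ : Finset W))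
      (fun _ x => if x ≠ 0 then l else (1 : ℝ))
    rw [Fintype.piFinset_univ] at h
    rw [← h]
    simp
  have h3 : (∑ x : W, if x ≠ 0 then l else (1 : ℝ)) ≤ 1 + 1 / K := by
    have h4 : (∑ x : W, if x ≠ 0 then l else (1 : ℝ)) ≤ ∑ x : W, ((if x = 0 then 1 else 0) + l) := by
      apply Finset.sum_le_sum
      intro x _
      by_cases hx : x = 0
      · simp [hx, hl0.le]
      · simp [hx]
    refine h4.trans ?_
    rw [Finset.sum_add_distrib, Finset.sum_ite_eq' univ (0 : W) (fun _ => (1 : ℝ)),
      if_pos (mem_univ _), Finset.sum_const, Finset.card_univ, nsmul_eq_mul, hl]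
    have : (Fintype.card W : ℝ) * (1 / ((Fintype.card W : ℝ) * K)) = 1 / K := by
      field_simp
    rw [this]
  have h5 : (B.card : ℝ) * l ^ s ≤ ∑ f : E → W, l ^ (univ.filter fun e => f e ≠ 0).card := by
    have h6 : (B.card : ℝ) * l ^ s = ∑ _f ∈ B, l ^ s := by rw [Finset.sum_const, nsmul_eq_mul]
    rw [h6]
    refine (Finset.sum_le_sum fun f hf => ?_).trans
      (Finset.sum_le_sum_of_subset_of_nonneg (Finset.subset_univ B) fun f _ _ => by positivity)
    have hfs := (Finset.mem_filter.1 hf).2
    rw [← Real.rpow_natCast]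
    exact Real.rpow_le_rpow_of_exponent_ge hl0 hl1 hfs
  have h7 : (B.card : ℝ) * l ^ s ≤ (1 + 1 / K) ^ (Fintype.card E) := by
    rw [h2] at h5
    refine h5.trans (pow_le_pow_left₀ ?_ h3 _)
    exact Finset.sum_nonneg fun x _ => by split_ifs <;> positivity
  have h8 : l ^ s * ((Fintype.card W : ℝ) * K) ^ s = 1 := by
    rw [← Real.mul_rpow hl0.le hWK0.le, hl, one_div, inv_mul_cancel₀ hWK0.ne', Real.one_rpow]
  calc (B.card : ℝ) = (B.card : ℝ) * (l ^ s * ((Fintype.card W : ℝ) * K) ^ s) := by rw [h8, mul_one]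
    _ = ((Fintype.card W : ℝ) * K) ^ s * ((B.card : ℝ) * l ^ s) := by ring
    _ ≤ _ := mul_le_mul_of_nonneg_left h7 (by positivity)

section nil
variable {F V : Type*} [Field F] [AddCommGroup V] [Module F V]

/-- a nilpotent operator on a space of dimension at most `n` has `n`-th power zero -/
theorem nil (T : End F V) (n : ℕ) : ∀ (U : Submodule F V) [FiniteDimensional F U],
    finrank F U ≤ n → (∀ v ∈ U, T v ∈ U) → (∃ s : ℕ, ∀ v ∈ U, (T ^ s) v = 0) →
      ∀ v ∈ U, (T ^ n) v = 0 := by
  induction n with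
  | zero =>
    intro U _ hU _ _ v hv
    have h1 : finrank F U = 0 := by omega
    have h2 : U = ⊥ := Submodule.finrank_eq_zero.1 h1
    rw [h2] at hv
    rw [(Submodule.mem_bot F).1 hv, map_zero]
  | succ n ih =>
    intro U _ hU hT ⟨s, hs⟩ v hv
    have hle : U.map T ≤ U := by rintro _ ⟨u, hu, rfl⟩; exact hT u hu
    have h1 : finrank F (U.map T) ≤ n := by
      by_contra hcon
      have h2 := Submodule.finrank_mono hle
      have h3 : U.map T = U := Submodule.eq_of_le_of_finrank_le hle (by omega)
      have h4 : ∀ s : ℕ, U.map (T ^ s) = U := by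
        intro s
        induction s with
        | zero =>
          rw [pow_zero]
          exact Submodule.map_id U
        | succ s ih2 =>
          have e : T ^ (s + 1) = (T ^ s).comp T := by rw [pow_succ]; rfl
          rw [e, Submodule.map_comp, h3, ih2]
      have h5 : U = ⊥ := by
        rw [eq_bot_iff]
        intro u hu
        rw [← h4 s] at hu
        obtain ⟨u', hu', rfl⟩ := hu
        rw [hs u' hu']
        exact Submodule.zero_mem _
      rw [h5, Submodule.map_bot, finrank_bot] at hcon
      omega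
    have h6 := ih (U.map T) h1 (by rintro _ ⟨u, hu, rfl⟩; exact ⟨T u, hT u hu, rfl⟩)
      ⟨s, by rintro _ ⟨u, hu, rfl⟩; exact hs _ (hT u hu)⟩ (T v) ⟨v, hv, rfl⟩
    rw [pow_succ]
    exact h6

end nil

section grp
variable (F : Type*) [Field F] {G : Type*} [Group G]

/-- translation of functions: `(R x w) y = w (y x)` -/
def R (x : G) : End F (G → F) where
  toFun w := fun y => w (y * x)
  map_add' _ _ := rfl
  map_smul' _ _ := rfl

@[simp] theorem R_apply (x : G) (w : G → F) (y : G) : R F x w y = w (y * x) := rfl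

theorem R_mul (x y : G) : R F (x * y) = R F x * R F y := by
  ext w z
  show w (z * (x * y)) = w (z * x * y)
  rw [mul_assoc]

theorem R_one : R F (1 : G) = 1 := by
  ext w z
  show w (z * 1) = w z
  rw [mul_one]

theorem R_pow (x : G) (n : ℕ) : R F (x ^ n) = R F x ^ n := by
  induction n with
  | zero => rw [pow_zero, pow_zero, R_one]
  | succ n ih => rw [pow_succ, R_mul, ih, pow_succ]

theorem R_comm {x y : G} (h : Commute x y) : Commute (R F x) (R F y) := by
  show R F x * R F y = R F y * R F x
  rw [← R_mul, h.eq, R_mul]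

end grp

/-- elements of the group generated by two commuting elements of a finite group -/
theorem mem_closure_pair {G : Type*} [Group G] [Finite G] {g h : G} (hgh : Commute g h) {a : G}
    (ha : a ∈ Subgroup.closure {g, h}) : ∃ i j : ℕ, a = g ^ i * h ^ j := by
  have hmul : ∀ x y : G, (∃ i j : ℕ, x = g ^ i * h ^ j) → (∃ i j : ℕ, y = g ^ i * h ^ j) →
      ∃ i j : ℕ, x * y = g ^ i * h ^ j := by
    rintro _ _ ⟨i, j, rfl⟩ ⟨i', j', rfl⟩
    refine ⟨i + i', j + j', ?_⟩
    have h1 := (hgh.pow_pow i' j).eq
    rw [pow_add, pow_add]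
    calc g ^ i * h ^ j * (g ^ i' * h ^ j') = g ^ i * (h ^ j * g ^ i') * h ^ j' := by group
      _ = g ^ i * (g ^ i' * h ^ j) * h ^ j' := by rw [h1]
      _ = _ := by group
  induction ha using Subgroup.closure_induction with
  | mem x hx =>
    rcases hx with rfl | hx
    · exact ⟨1, 0, by simp⟩
    · rw [Set.mem_singleton_iff] at hx
      subst hx
      exact ⟨0, 1, by simp⟩
  | one => exact ⟨0, 0, by simp⟩
  | mul x y _ _ hx hy => exact hmul x y hx hy
  | inv x _ hx =>
    have hp : ∀ n : ℕ, ∃ i j : ℕ, x ^ n = g ^ i * h ^ j := by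
      intro n
      induction n with
      | zero => exact ⟨0, 0, by simp⟩
      | succ n ih => rw [pow_succ]; exact hmul _ _ ih hx
    have h2 : x⁻¹ = x ^ (orderOf x - 1) := by
      have h3 : 0 < orderOf x := orderOf_pos x
      rw [inv_eq_iff_mul_eq_one, ← pow_succ', Nat.sub_add_cancel h3, pow_orderOf_eq_one]
    rw [h2]
    exact hp _

end Run7.h505.RT
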