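import Pool.Agent.Run7.h505.RT.D

/-!
The number of functions of small weight on a finite group `G` whose translates under a 2-generated
abelian `p`-subgroup span a space of dimension `r`.
-/

set_option autoImplicit false

namespace Run7.h505.RT

open Module Polynomial Finset

variable {F : Type} [Field F] {G : Type} [Group G]

open Classical in
/-- Hamming weight -/
noncomputable def wt [Fintype G] (w : G → F) : ℕ := (univ.filter fun y => w y ≠ 0).card

/-- the values at the representatives of the left cosets of `A` -/
noncomputable def evA (A : Subgroup G) : (G → F) →ₗ[F] (G ⧸ A → F) where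
  toFun w := fun c => w c.out
  map_add' _ _ := rfl
  map_smul' _ _ := rfl

theorem XY_apply (g h : G) (a b : ℕ) (w : G → F) (y : G) :
    ((R F g ^ a) ((R F h ^ b) w)) y = w (y * g ^ a * h ^ b) := by
  rw [← R_pow, ← R_pow]
  rfl

/-- the pair of positions -/
def pairs (A : Subgroup G) (g h : G) : Prop := A = Subgroup.closure {g, h}

theorem sepA [Finite G] (g h : G) (hgh : Commute g h) (v : G → F)
    (hv : ∀ j, RowZ (R F g) (R F h) (evA (Subgroup.closure {g, h})) v j) : v = 0 := by
  funext y
  set A := Subgroup.closure {g, h} with hA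
  have h1 : (QuotientGroup.mk (QuotientGroup.mk y : G ⧸ A).out : G ⧸ A) = QuotientGroup.mk y :=
    Quotient.out_eq _
  have h2 : (QuotientGroup.mk y : G ⧸ A).out⁻¹ * y ∈ A := QuotientGroup.eq.1 h1
  obtain ⟨i, j, hij⟩ := mem_closure_pair hgh h2
  have h3 := congrFun (hv j i) (QuotientGroup.mk y)
  have h4 : ((R F g ^ i) ((R F h ^ j) v)) ((QuotientGroup.mk y : G ⧸ A).out) = 0 := h3
  rw [XY_apply] at h4
  have h5 : (QuotientGroup.mk y : G ⧸ A).out * g ^ i * h ^ j = y := by
    rw [mul_assoc, ← hij]; group
  rw [h5] at h4
  exact h4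

/-- the restriction of all translates to a family of positions -/
noncomputable def res (g h : G) {ι : Type} (e : ι → ℕ × ℕ) (w : G → F) :
    ι → (G ⧸ Subgroup.closure {g, h} → F) :=
  fun x => evA _ ((R F g ^ (e x).1) ((R F h ^ (e x).2) w))

open Classical in
/-- averaging over the translates -/
theorem average [Fintype G] (g h : G) {ι : Type} [Fintype ι]
    (e : ι → ℕ × ℕ) (w : G → F) :
    ∃ a ∈ Subgroup.closure {g, h},
      (univ.filter fun x : ι => res g h e (R F a w) x ≠ 0).card *
        Nat.card (Subgroup.closure {g, h}) ≤ Fintype.card ι * wt w := by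
  set A := Subgroup.closure {g, h} with hA
  have hgA : g ∈ A := Subgroup.subset_closure (by simp)
  have hhA : h ∈ A := Subgroup.subset_closure (by simp)
  by_contra hcon
  push Not at hcon
  have : Fintype A := Fintype.ofFinite A
  have : Fintype (G ⧸ A) := Fintype.ofFinite _
  have h1 : ∑ a : A, (univ.filter fun x : ι => res g h e (R F (a : G) w) x ≠ 0).card ≤
      Fintype.card ι * wt w := by
    have h2 : ∀ a : A, (univ.filter fun x : ι => res g h e (R F (a : G) w) x ≠ 0).card ≤
        ∑ x : ι, (univ.filter fun c : G ⧸ A =>
          w (c.out * (g ^ (e x).1 * h ^ (e x).2) * a) ≠ 0).card := by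
      intro a
      rw [Finset.card_filter]
      apply Finset.sum_le_sum
      intro x _
      split_ifs with hx
      · rw [Nat.one_le_iff_ne_zero, Finset.card_ne_zero]
        by_contra hemp
        apply hx
        funext c
        rw [Finset.not_nonempty_iff_eq_empty] at hemp
        have h3 : c ∉ (univ.filter fun c : G ⧸ A =>
          w (c.out * (g ^ (e x).1 * h ^ (e x).2) * a) ≠ 0) := by rw [hemp]; simp
        rw [mem_filter] at h3
        push Not at h3
        have h4 := h3 (mem_univ _)
        show ((R F g ^ (e x).1) ((R F h ^ (e x).2) (R F (a : G) w))) c.out = 0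
        rw [XY_apply, R_apply]
        rw [← h4]
        congr 1
        group
      · exact Nat.zero_le _
    refine (Finset.sum_le_sum fun a _ => h2 a).trans ?_
    rw [Finset.sum_comm]
    have h5 : ∀ x : ι, ∑ a : A, (univ.filter fun c : G ⧸ A =>
          w (c.out * (g ^ (e x).1 * h ^ (e x).2) * a) ≠ 0).card ≤ wt w := by
      intro x
      set b := g ^ (e x).1 * h ^ (e x).2 with hb
      have hbA : b ∈ A := A.mul_mem (A.pow_mem hgA _) (A.pow_mem hhA _)
      rw [← Finset.card_sigma]
      apply Finset.card_le_card_of_injOn (fun z : (Σ _ : A, G ⧸ A) => z.2.out * b * (z.1 : G))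
      · rintro ⟨a, c⟩ hz
        have hz' := Finset.mem_sigma.1 hz
        have h6 := (Finset.mem_filter.1 hz'.2).2
        simp only [Finset.coe_filter, Finset.mem_univ, true_and, Set.mem_ofPred_eq]
        exact h6
      · rintro ⟨a, c⟩ _ ⟨a', c'⟩ _ hz
        simp only at hz
        have hmk : ∀ (c : G ⧸ A) (a : A), (QuotientGroup.mk (c.out * b * (a : G)) : G ⧸ A) = c := by
          intro c a
          rw [mul_assoc]
          have : (QuotientGroup.mk (c.out * (b * (a : G))) : G ⧸ A) = QuotientGroup.mk c.out :=
            QuotientGroup.mk_mul_of_mem _ (A.mul_mem hbA a.2)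
          rw [this]
          exact Quotient.out_eq _
        have hc : c = c' := by rw [← hmk c a, ← hmk c' a', hz]
        subst hc
        have ha : (a : G) = a' := mul_left_cancel hz
        have ha' : a = a' := Subtype.ext ha
        subst ha'
        rfl
    refine (Finset.sum_le_sum fun x _ => h5 x).trans ?_
    rw [Finset.sum_const, Finset.card_univ, smul_eq_mul]
  have h7 : ∑ a : A, Fintype.card ι * wt w <
      ∑ a : A, (univ.filter fun x : ι => res g h e (R F (a : G) w) x ≠ 0).card * Nat.card A := by
    apply Finset.sum_lt_sum_of_nonempty ⟨1, mem_univ _⟩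
    intro a _
    convert hcon a a.2 using 2
    congr!
  rw [Finset.sum_const, Finset.card_univ, smul_eq_mul, ← Finset.sum_mul,
    Nat.card_eq_fintype_card, mul_comm] at h7
  exact absurd (Nat.lt_of_mul_lt_mul_right h7) (not_lt.2 h1)

end Run7.h505.RT
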