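import Pool.Agent.Run7.h505.RT.E

/-!
Counting functions of small weight.
-/

set_option autoImplicit false

namespace Run7.h505.RT

open Module Polynomial Finset

variable {F : Type} [Field F] {G : Type} [Group G]

/-- the dimension of the span of the translates of `w` -/
noncomputable def rk (F : Type) [Field F] {G : Type} [Group G] (g h : G) (w : G → F) : ℕ :=
  finrank F (cyc (R F g) (R F h) w)

theorem R_mem_cyc [Finite G] {g h : G} (hgh : Commute g h) {a : G}
    (ha : a ∈ Subgroup.closure {g, h}) (w : G → F) : R F a w ∈ cyc (R F g) (R F h) w := by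
  obtain ⟨i, j, rfl⟩ := mem_closure_pair hgh ha
  rw [R_mul, R_pow, R_pow]
  exact mem_cyc w i j

theorem cyc_R [Finite G] {g h : G} (hgh : Commute g h) {a : G}
    (ha : a ∈ Subgroup.closure {g, h}) (w : G → F) :
    cyc (R F g) (R F h) (R F a w) = cyc (R F g) (R F h) w := by
  apply le_antisymm
  · exact cyc_le (R_comm F hgh) (R_mem_cyc hgh ha w) (cyc_X _) (cyc_Y (R_comm F hgh) _)
  · apply cyc_le (R_comm F hgh) _ (cyc_X _) (cyc_Y (R_comm F hgh) _)
    have h1 := R_mem_cyc (F := F) hgh (inv_mem ha) (R F a w)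
    have h2 : R F a⁻¹ (R F a w) = w := by
      rw [← Module.End.mul_apply, ← R_mul, inv_mul_cancel, R_one, Module.End.one_apply]
    rwa [h2] at h1

theorem R_comm_A [Finite G] {g h : G} (hgh : Commute g h) {a : G}
    (ha : a ∈ Subgroup.closure {g, h}) : Commute (R F g) (R F a) := by
  obtain ⟨i, j, rfl⟩ := mem_closure_pair hgh ha
  exact R_comm F (((Commute.refl g).pow_right i).mul_right (hgh.pow_right j))

theorem kap_R [Finite G] {g h : G} (hgh : Commute g h) {a : G}
    (ha : a ∈ Subgroup.closure {g, h}) (w : G → F) (t : ℕ) :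
    kap (R F g) (R F h) (R F a w) t = kap (R F g) (R F h) w t := by
  unfold kap ord
  have h1 : ((R F g - 1) ^ t) (R F a w) = R F a (((R F g - 1) ^ t) w) := by
    have h2 : Commute ((R F g - 1) ^ t) (R F a) :=
      ((R_comm_A hgh ha).sub_left (Commute.one_left _)).pow_left t
    have := congrArg (fun T : End F (G → F) => T w) h2.eq
    simpa using this
  rw [h1, cyc_R hgh ha]

/-- the `p ^ N`-th powers act trivially if the dimension is at most `p ^ N` -/
theorem pow_trivial [Finite G] (p : ℕ) [hp : Fact p.Prime] [CharP F p] {g h : G}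
    (hgh : Commute g h) (hA : IsPGroup p (Subgroup.closure {g, h})) {x : G}
    (hx : x ∈ Subgroup.closure {g, h}) {w : G → F} {N : ℕ} (hN : rk F g h w ≤ p ^ N) :
    ∀ v ∈ cyc (R F g) (R F h) w, ((R F x - 1) ^ (p ^ N)) v = 0 ∧ (R F x ^ (p ^ N)) v = v := by
  have := Fintype.ofFinite G
  obtain ⟨s, hs⟩ := hA ⟨x, hx⟩
  have hs' : x ^ p ^ s = 1 := by simpa using congrArg Subtype.val hs
  have hst : ∀ v ∈ cyc (R F g) (R F h) w, R F x v ∈ cyc (R F g) (R F h) w := by
    intro v hv
    have h1 := R_mem_cyc (F := F) hgh hx v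
    exact (cyc_le (R_comm F hgh) hv (cyc_X _) (cyc_Y (R_comm F hgh) _)) h1
  have h1 := nil (R F x - 1) (p ^ N) (cyc (R F g) (R F h) w) hN
    (fun v hv => by
      rw [LinearMap.sub_apply]
      exact Submodule.sub_mem _ (hst v hv) hv)
    ⟨p ^ s, fun v _ => by
      rw [D_pow, ← R_pow, hs', R_one, sub_self]; rfl⟩
  intro v hv
  refine ⟨h1 v hv, ?_⟩
  have h2 := h1 v hv
  rw [D_pow, LinearMap.sub_apply, sub_eq_zero] at h2
  exact h2

/-- the set of positions -/
def Ek (p N : ℕ) (k : ℕ → ℕ) : Finset (ℕ × ℕ) :=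
  (range (N + 1)).biUnion fun i => range (2 * p ^ i) ×ˢ range (2 * k i)

theorem card_Ek (p N : ℕ) (k : ℕ → ℕ) :
    (Ek p N k).card ≤ 4 * ∑ i ∈ range (N + 1), p ^ i * k i := by
  unfold Ek
  refine Finset.card_biUnion_le.trans ?_
  rw [Finset.mul_sum]
  apply Finset.sum_le_sum
  intro i _
  rw [Finset.card_product, card_range, card_range]
  apply le_of_eq
  ring

open Classical in
/-- functions with given orders and few non-zero values at the positions -/
noncomputable def Tset (F : Type) [Field F] [Fintype F] {G : Type} [Group G] [Fintype G]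
    (p : ℕ) (g h : G) (N r : ℕ) (θ : ℝ) (k : ℕ → ℕ) : Finset (G → F) :=
  univ.filter fun w => rk F g h w = r ∧ (∀ i ≤ N, kap (R F g) (R F h) w (sc p i) = k i) ∧
    ((univ.filter fun x : ↥(Ek p N k) => res g h (Subtype.val) w x ≠ 0).card : ℝ) ≤
      θ * (Ek p N k).card

open Classical in
theorem card_Tset [Fintype F] [Fintype G] (p : ℕ) [hp : Fact p.Prime] [CharP F p] {g h : G}
    (hgh : Commute g h) (hA : IsPGroup p (Subgroup.closure {g, h})) (N r : ℕ) (hN : r ≤ p ^ N)
    (θ K : ℝ) (hK : 1 ≤ K) (k : ℕ → ℕ) :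
    ((Tset F p g h N r θ k).card : ℝ) ≤
      ((Nat.card (G ⧸ Subgroup.closure {g, h} → F) : ℝ) * K) ^ (θ * (Ek p N k).card) *
        (1 + 1 / K) ^ ((Ek p N k).card) := by
  set A := Subgroup.closure {g, h} with hAdef
  have : Fintype (G ⧸ A) := Fintype.ofFinite _
  have h1 := ball (↥(Ek p N k)) (G ⧸ A → F) K (θ * (Ek p N k).card) hK
  rw [Fintype.card_coe, ← Nat.card_eq_fintype_card (α := (G ⧸ A → F))] at h1
  refine le_trans ?_ h1
  rw [Nat.cast_le]
  apply Finset.card_le_card_of_injOn (fun w => res g h Subtype.val w)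
  · intro w hw
    have hw' := (Finset.mem_filter.1 hw).2
    simp only [Finset.coe_filter, Finset.mem_univ, true_and, Set.mem_ofPred_eq]
    convert hw'.2.2
  · intro w hw w' hw' heq
    obtain ⟨hr, hk, _⟩ := (Finset.mem_filter.1 hw).2
    obtain ⟨hr', hk', _⟩ := (Finset.mem_filter.1 hw').2
    have hgA : g ∈ A := Subgroup.subset_closure (by simp)
    apply decode p (R_comm F hgh) (evA A) (sepA g h hgh) N w w'
    · exact (pow_trivial p hgh hA hgA (hr.le.trans hN) w (self_mem_cyc w)).1
    · exact (pow_trivial p hgh hA hgA (hr'.le.trans hN) w' (self_mem_cyc w')).1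
    · intro i hi
      rw [hk i hi, hk' i hi]
    · intro i hi a ha b hb
      rw [hk i hi] at hb
      have hmem : (a, b) ∈ Ek p N k := by
        unfold Ek
        rw [Finset.mem_biUnion]
        exact ⟨i, mem_range.2 (by omega), Finset.mem_product.2 ⟨mem_range.2 ha, mem_range.2 hb⟩⟩
      exact congrFun heq ⟨(a, b), hmem⟩

end Run7.h505.RT
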