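import Pool.Agent.Run7.h505.RT.Fc

/-!
Counting functions of small weight, part two.
-/

set_option autoImplicit false

namespace Run7.h505.RT

open Module Polynomial Finset

variable {F : Type} [Field F] {G : Type} [Group G]

/-- extension of a tuple by zero -/
def ext {N r : ℕ} (k : Fin (N + 1) → Fin (r + 1)) (i : ℕ) : ℕ :=
  if h : i < N + 1 then (k ⟨i, h⟩ : ℕ) else 0

theorem pow_mod_apply {V : Type} [AddCommGroup V] [Module F V] (T : End F V) {P : ℕ} {v : V}
    (h : (T ^ P) v = v) (a : ℕ) : (T ^ a) v = (T ^ (a % P)) v := by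
  have h3 : ∀ b : ℕ, (T ^ (P * b)) v = v := by
    intro b
    induction b with
    | zero => simp
    | succ b ihb => rw [mul_add, mul_one, pow_add, Module.End.mul_apply, h, ihb]
  conv_lhs => rw [← Nat.mod_add_div a P]
  rw [pow_add, Module.End.mul_apply, h3]

open Classical in
theorem card_low [Fintype F] [Fintype G] (p : ℕ) [hp : Fact p.Prime] [CharP F p] {g h : G}
    (hgh : Commute g h) (hA : IsPGroup p (Subgroup.closure {g, h})) (N r : ℕ) (hN : r ≤ p ^ N)
    (θ K : ℝ) (hθ : 0 ≤ θ) (hK : 1 ≤ K) :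
    ((univ.filter fun w : G → F => rk F g h w = r ∧
      (wt w : ℝ) ≤ θ * Nat.card (Subgroup.closure {g, h})).card : ℝ) ≤
      ((r : ℝ) + 1) ^ (N + 1) * ((p : ℝ) ^ N) ^ 2 *
      (((Nat.card (G ⧸ Subgroup.closure {g, h} → F) : ℝ) * K) ^ (θ * (12 * p * r : ℕ)) *
        (1 + 1 / K) ^ (12 * p * r)) := by
  set A := Subgroup.closure {g, h} with hAdef
  have hgA : g ∈ A := Subgroup.subset_closure (by simp)
  have hhA : h ∈ A := Subgroup.subset_closure (by simp)
  have hp1 : 1 ≤ p := hp.out.one_lt.le
  set P := p ^ N with hP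
  have hPpos : 0 < P := Nat.pow_pos hp1
  set B : ℝ := ((Nat.card (G ⧸ A → F) : ℝ) * K) ^ (θ * (12 * p * r : ℕ)) *
        (1 + 1 / K) ^ (12 * p * r) with hB
  have hK0 : 0 < K := by linarith
  have : Fintype (G ⧸ A) := Fintype.ofFinite _
  have hW1 : (1 : ℝ) ≤ Nat.card (G ⧸ A → F) := by
    have : 0 < Nat.card (G ⧸ A → F) := Nat.card_pos
    exact_mod_cast this
  have hWK : 1 ≤ (Nat.card (G ⧸ A → F) : ℝ) * K := by nlinarith
  set Ks : Finset (Fin (N + 1) → Fin (r + 1)) :=
    univ.filter fun k => (Ek p N (ext k)).card ≤ 12 * p * r with hKs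
  set U : Finset (G → F) := (Ks ×ˢ (range P ×ˢ range P)).biUnion fun z =>
    (Tset F p g h N r θ (ext z.1)).image fun w => (R F g ^ z.2.1) ((R F h ^ z.2.2) w) with hU
  have hsub : (univ.filter fun w : G → F => rk F g h w = r ∧
      (wt w : ℝ) ≤ θ * Nat.card A) ⊆ U := by
    intro w hw
    obtain ⟨hr, hwt⟩ := (Finset.mem_filter.1 hw).2
    have hkle : ∀ t, kap (R F g) (R F h) w t ≤ r := by
      intro t
      have := kap_le (R_comm F hgh) w t
      rw [← hr]
      exact this
    set k : Fin (N + 1) → Fin (r + 1) := fun i =>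
      ⟨kap (R F g) (R F h) w (sc p i), Nat.lt_succ_of_le (hkle _)⟩ with hk
    have hext : ∀ i < N + 1, ext k i = kap (R F g) (R F h) w (sc p i) := by
      intro i hi
      unfold ext
      rw [dif_pos hi]
    have hcardE : (Ek p N (ext k)).card ≤ 12 * p * r := by
      refine (card_Ek p N (ext k)).trans ?_
      have h1 : ∑ i ∈ range (N + 1), p ^ i * ext k i =
          ∑ i ∈ range (N + 1), p ^ i * kap (R F g) (R F h) w (sc p i) := by
        refine Finset.sum_congr rfl fun i hi => ?_
        rw [hext i (mem_range.1 hi)]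
      have h2 := weighted_sc (R_comm F hgh) w p hp.out.two_le N
      have h3 : finrank F (cyc (R F g) (R F h) w) = r := hr
      rw [h3] at h2
      rw [h1]
      nlinarith
    obtain ⟨a, haA, ha⟩ := average g h (Subtype.val : ↥(Ek p N (ext k)) → ℕ × ℕ) w
    rw [Fintype.card_coe] at ha
    have hApos : (0 : ℝ) < Nat.card A := by exact_mod_cast Nat.card_pos
    have ha' : ((univ.filter fun x : ↥(Ek p N (ext k)) =>
        res g h Subtype.val (R F a w) x ≠ 0).card : ℝ) ≤ θ * (Ek p N (ext k)).card := by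
      have h1 : ((univ.filter fun x : ↥(Ek p N (ext k)) =>
        res g h Subtype.val (R F a w) x ≠ 0).card : ℝ) * Nat.card A ≤
          (Ek p N (ext k)).card * wt w := by exact_mod_cast ha
      have h2 : ((Ek p N (ext k)).card : ℝ) * wt w ≤
          (θ * (Ek p N (ext k)).card) * Nat.card A := by
        calc ((Ek p N (ext k)).card : ℝ) * wt w ≤ (Ek p N (ext k)).card * (θ * Nat.card A) :=
              mul_le_mul_of_nonneg_left hwt (by positivity)
          _ = _ := by ring
      exact le_of_mul_le_mul_right (h1.trans h2) hApos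
    have hT : R F a w ∈ Tset F p g h N r θ (ext k) := by
      unfold Tset
      rw [Finset.mem_filter]
      refine ⟨mem_univ _, ?_, ?_, ?_⟩
      · unfold rk
        rw [cyc_R hgh haA]
        exact hr
      · intro i hi
        rw [kap_R hgh haA, hext i (by omega)]
      · convert ha'
    obtain ⟨i, j, hij⟩ := mem_closure_pair hgh (inv_mem haA)
    have hw0 : w = (R F g ^ i) ((R F h ^ j) (R F a w)) := by
      rw [← R_pow, ← R_pow, ← Module.End.mul_apply, ← Module.End.mul_apply, ← R_mul, ← R_mul,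
        ← hij, inv_mul_cancel, R_one, Module.End.one_apply]
    have hr0 : rk F g h (R F a w) ≤ p ^ N := by
      unfold rk
      rw [cyc_R hgh haA]
      exact hr.le.trans hN
    have hper1 := pow_trivial (F := F) p hgh hA hgA hr0
    have hper2 := pow_trivial (F := F) p hgh hA hhA hr0
    rw [hU, Finset.mem_biUnion]
    refine ⟨(k, (i % P, j % P)), ?_, ?_⟩
    · rw [Finset.mem_product, Finset.mem_product, mem_range, mem_range]
      exact ⟨Finset.mem_filter.2 ⟨mem_univ _, hcardE⟩, Nat.mod_lt _ hPpos, Nat.mod_lt _ hPpos⟩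
    · rw [Finset.mem_image]
      refine ⟨R F a w, hT, ?_⟩
      conv_rhs => rw [hw0]
      rw [pow_mod_apply (R F h) (hper2 _ (self_mem_cyc _)).2 j]
      have hmem : (R F h ^ (j % P)) (R F a w) ∈ cyc (R F g) (R F h) (R F a w) := by
        simpa using mem_cyc (X := R F g) (Y := R F h) (R F a w) 0 (j % P)
      rw [pow_mod_apply (R F g) (hper1 _ hmem).2 i]
  have hcardU : (U.card : ℝ) ≤ (Ks.card * (P * P) : ℕ) * B := by
    have h1 : (U.card : ℝ) ≤ ∑ z ∈ Ks ×ˢ (range P ×ˢ range P), B := by
      have h2 : (U.card : ℝ) ≤ ∑ z ∈ Ks ×ˢ (range P ×ˢ range P),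
          (((Tset F p g h N r θ (ext z.1)).image fun w =>
            (R F g ^ z.2.1) ((R F h ^ z.2.2) w)).card : ℝ) := by
        rw [← Nat.cast_sum]
        exact_mod_cast Finset.card_biUnion_le
      refine h2.trans (Finset.sum_le_sum fun z hz => ?_)
      have hz1 : (Ek p N (ext z.1)).card ≤ 12 * p * r :=
        (Finset.mem_filter.1 (Finset.mem_product.1 hz).1).2
      have h3 : (((Tset F p g h N r θ (ext z.1)).image fun w =>
            (R F g ^ z.2.1) ((R F h ^ z.2.2) w)).card : ℝ) ≤
            ((Tset F p g h N r θ (ext z.1)).card : ℝ) := by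
        exact_mod_cast Finset.card_image_le
      refine h3.trans ((card_Tset p hgh hA N r hN θ K hK (ext z.1)).trans ?_)
      rw [hB]
      apply mul_le_mul
      · apply Real.rpow_le_rpow_of_exponent_le hWK
        apply mul_le_mul_of_nonneg_left _ hθ
        exact_mod_cast hz1
      · apply pow_le_pow_right₀ _ hz1
        have : 0 < 1 / K := by positivity
        linarith
      · positivity
      · positivity
    rw [Finset.sum_const, nsmul_eq_mul, Finset.card_product, Finset.card_product, card_range] at h1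
    exact h1
  have hKcard : Ks.card ≤ (r + 1) ^ (N + 1) := by
    refine (Finset.card_filter_le _ _).trans ?_
    rw [Finset.card_univ, Fintype.card_fun, Fintype.card_fin, Fintype.card_fin]
  have hB0 : 0 ≤ B := by positivity
  calc ((univ.filter fun w : G → F => rk F g h w = r ∧
      (wt w : ℝ) ≤ θ * Nat.card A).card : ℝ) ≤ U.card := by exact_mod_cast Finset.card_le_card hsub
    _ ≤ (Ks.card * (P * P) : ℕ) * B := hcardU
    _ ≤ (((r : ℝ) + 1) ^ (N + 1) * ((p : ℝ) ^ N) ^ 2) * B := by
      apply mul_le_mul_of_nonneg_right _ hB0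
      have h4 : Ks.card * (P * P) ≤ (r + 1) ^ (N + 1) * (P * P) := Nat.mul_le_mul_right _ hKcard
      have h5 : ((Ks.card * (P * P) : ℕ) : ℝ) ≤ (((r + 1) ^ (N + 1) * (P * P) : ℕ) : ℝ) := by
        exact_mod_cast h4
      refine h5.trans (le_of_eq ?_)
      rw [hP]
      push_cast
      ring

end Run7.h505.RT
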