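import Pool.Agent.Run7.h505.RT.H

/-!
The random left ideals, dimensions.
-/

set_option autoImplicit false

namespace Run7.h505.RT

open Module Polynomial Finset

variable {F : Type} [Field F] {G : Type} [Group G]

/-- the span of all right translates -/
def Vw (F : Type) [Field F] {G : Type} [Group G] (w : G → F) : Submodule F (G → F) :=
  Submodule.span F (Set.range fun x : G => R F x w)

theorem Vw_R (w : G → F) (x : G) : ∀ v ∈ Vw F w, R F x v ∈ Vw F w := by
  intro v hv
  unfold Vw at hv
  induction hv using Submodule.span_induction with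
  | mem y hy =>
    obtain ⟨z, rfl⟩ := hy
    show R F x (R F z w) ∈ _
    rw [← Module.End.mul_apply, ← R_mul]
    exact Submodule.subset_span ⟨_, rfl⟩
  | zero => rw [map_zero]; exact Submodule.zero_mem _
  | add x y _ _ hx hy => rw [map_add]; exact Submodule.add_mem _ hx hy
  | smul a x _ hx => rw [map_smul]; exact Submodule.smul_mem _ _ hx

theorem self_mem_Vw (w : G → F) : w ∈ Vw F w := by
  have : R F (1 : G) w = w := by rw [R_one]; rfl
  exact Submodule.subset_span ⟨1, this⟩

theorem rk_le [Finite G] {g h : G} (hgh : Commute g h) (w : G → F) :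
    rk F g h w ≤ finrank F (Vw F w) := by
  have := Fintype.ofFinite G
  apply Submodule.finrank_mono
  exact cyc_le (R_comm F hgh) (self_mem_Vw w) (Vw_R w g) (Vw_R w h)

/-- functions fixed by a subgroup -/
def Fix (F : Type) [Field F] {G : Type} [Group G] (H : Subgroup G) : Submodule F (G → F) where
  carrier := {w | ∀ x ∈ H, R F x w = w}
  add_mem' := by
    intro a b ha hb x hx
    rw [map_add, ha x hx, hb x hx]
  zero_mem' := by intro x _; rw [map_zero]
  smul_mem' := by
    intro c a ha x hx
    rw [map_smul, ha x hx]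

/-- functions fixed by a subgroup are the functions on the set of left cosets -/
noncomputable def fixEquiv (H : Subgroup G) : Fix F H ≃ₗ[F] (G ⧸ H → F) where
  toFun w := fun c => w.1 c.out
  map_add' _ _ := rfl
  map_smul' _ _ := rfl
  invFun f := ⟨fun x => f (QuotientGroup.mk x), by
    intro x hx
    funext y
    show f (QuotientGroup.mk (y * x)) = f (QuotientGroup.mk y)
    rw [QuotientGroup.mk_mul_of_mem _ hx]⟩
  left_inv := by
    rintro ⟨w, hw⟩
    apply Subtype.ext
    funext x
    show w ((QuotientGroup.mk x : G ⧸ H).out) = w x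
    have h1 : (QuotientGroup.mk (QuotientGroup.mk x : G ⧸ H).out : G ⧸ H) = QuotientGroup.mk x :=
      Quotient.out_eq _
    have h2 : (QuotientGroup.mk x : G ⧸ H).out⁻¹ * x ∈ H := QuotientGroup.eq.1 h1
    have h3 := congrFun (hw _ h2) ((QuotientGroup.mk x : G ⧸ H).out)
    rw [R_apply] at h3
    rw [← h3]
    congr 1
    group
  right_inv := by
    intro f
    funext c
    show f (QuotientGroup.mk c.out) = f c
    congr 1
    exact Quotient.out_eq _

theorem finrank_Fix [Finite G] (H : Subgroup G) : finrank F (Fix F H) = H.index := by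
  have : Fintype (G ⧸ H) := Fintype.ofFinite _
  rw [LinearEquiv.finrank_eq (fixEquiv H), finrank_fintype_fun_eq_card, Subgroup.index,
    Nat.card_eq_fintype_card]

/-- the image of `R t - 1` is large if few conjugates of `t` generate a large subgroup -/
theorem dim_bound [Finite G] (t : G) (n M : ℕ) (gs : Fin n → G)
    (hM : (Subgroup.closure (Set.range fun i => gs i * t * (gs i)⁻¹)).index ≤ M) (w : G → F) :
    finrank F (Vw F w) ≤ n * finrank F ((Vw F w).map (R F t - 1)) + M := by
  have := Fintype.ofFinite G
  set H := Subgroup.closure (Set.range fun i => gs i * t * (gs i)⁻¹) with hH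
  have h0 : ∀ i, finrank F ((Vw F w).map (R F (gs i * t * (gs i)⁻¹) - 1)) =
      finrank F ((Vw F w).map (R F t - 1)) := by
    intro i
    have e : R F (gs i * t * (gs i)⁻¹) - 1 =
        (R F (gs i)).comp ((R F t - 1).comp (R F (gs i)⁻¹)) := by
      have h1 : (R F (gs i)).comp ((R F t - 1).comp (R F (gs i)⁻¹)) =
          R F (gs i) * ((R F t - 1) * R F (gs i)⁻¹) := rfl
      rw [h1, sub_mul, one_mul, mul_sub, ← mul_assoc, ← R_mul, ← R_mul, ← R_mul, mul_inv_cancel,
        R_one]
    rw [e, Submodule.map_comp, Submodule.map_comp]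
    have h2 : (Vw F w).map (R F (gs i)⁻¹) = Vw F w := by
      apply le_antisymm
      · rintro _ ⟨v, hv, rfl⟩
        exact Vw_R w _ v hv
      · intro v hv
        refine ⟨R F (gs i) v, Vw_R w _ v hv, ?_⟩
        rw [← Module.End.mul_apply, ← R_mul, inv_mul_cancel, R_one]; rfl
    rw [h2]
    have hinj : Function.Injective (R F (gs i)) := by
      intro a b hab
      have := congrArg (R F (gs i)⁻¹) hab
      rw [← Module.End.mul_apply, ← Module.End.mul_apply, ← R_mul, inv_mul_cancel, R_one] at this
      exact this
    exact (LinearEquiv.finrank_eq (Submodule.equivMapOfInjective _ hinj _)).symm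
  -- the map to the product of the images
  let ψ : Vw F w →ₗ[F] ((i : Fin n) → ((Vw F w).map (R F (gs i * t * (gs i)⁻¹) - 1))) :=
    LinearMap.pi fun i => (R F (gs i * t * (gs i)⁻¹) - 1).restrict
      (p := Vw F w) (q := (Vw F w).map (R F (gs i * t * (gs i)⁻¹) - 1))
      (fun v hv => ⟨v, hv, rfl⟩)
  have h1 := LinearMap.finrank_range_add_finrank_ker ψ
  have h2 : finrank F (LinearMap.range ψ) ≤ n * finrank F ((Vw F w).map (R F t - 1)) := by
    refine (Submodule.finrank_le _).trans ?_
    rw [Module.finrank_pi_fintype, Finset.sum_congr rfl fun i _ => h0 i, Finset.sum_const,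
      Finset.card_univ, Fintype.card_fin, smul_eq_mul]
  have h3 : finrank F (LinearMap.ker ψ) ≤ M := by
    refine le_trans ?_ hM
    rw [← finrank_Fix (F := F) H]
    have h4 : (LinearMap.ker ψ).map (Vw F w).subtype ≤ Fix F H := by
      rintro _ ⟨v, hv, rfl⟩
      have h5 : ∀ i, R F (gs i * t * (gs i)⁻¹) v.1 = v.1 := by
        intro i
        have h6 := congrFun (LinearMap.mem_ker.1 hv) i
        have h7 := congrArg Subtype.val h6
        have h8 : (R F (gs i * t * (gs i)⁻¹) - 1) v.1 = 0 := h7
        rw [LinearMap.sub_apply, sub_eq_zero] at h8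
        exact h8
      intro x hx
      show R F x v.1 = v.1
      rw [hH] at hx
      induction hx using Subgroup.closure_induction with
      | mem y hy => obtain ⟨i, rfl⟩ := hy; exact h5 i
      | one => rw [R_one]; rfl
      | mul y z _ _ hy hz => rw [R_mul, Module.End.mul_apply, hz, hy]
      | inv y _ hy =>
        conv_lhs => rw [← hy]
        rw [← Module.End.mul_apply, ← R_mul, inv_mul_cancel, R_one]; rfl
    have h9 := Submodule.finrank_mono h4
    rwa [LinearEquiv.finrank_eq (Submodule.equivMapOfInjective _
      (Vw F w).injective_subtype (LinearMap.ker ψ)).symm] at h9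
  omega

/-- the convolution `b ↦ ∑ b(x) R x w` -/
noncomputable def cv [Fintype G] (w : G → F) : (G → F) →ₗ[F] (G → F) where
  toFun b := ∑ x, b x • R F x w
  map_add' a b := by
    rw [← Finset.sum_add_distrib]
    exact Finset.sum_congr rfl fun x _ => by rw [Pi.add_apply, add_smul]
  map_smul' c a := by
    rw [RingHom.id_apply, Finset.smul_sum]
    exact Finset.sum_congr rfl fun x _ => by rw [Pi.smul_apply, smul_assoc]

theorem range_cv [Fintype G] (w : G → F) : LinearMap.range (cv w) = Vw F w := by
  classical
  apply le_antisymm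
  · rintro _ ⟨b, rfl⟩
    exact Submodule.sum_mem _ fun x _ => Submodule.smul_mem _ _ (Submodule.subset_span ⟨x, rfl⟩)
  · unfold Vw
    rw [Submodule.span_le]
    rintro _ ⟨x, rfl⟩
    refine ⟨Pi.single x 1, ?_⟩
    show ∑ y, (Pi.single x (1 : F) : G → F) y • R F y w = R F x w
    rw [Finset.sum_eq_single x]
    · simp
    · intro y _ hy
      simp [Pi.single_eq_of_ne hy]
    · simp

/-- the number of `b` with `(R t - 1) (∑ b(x) R x w) = 0` -/
theorem card_bad [Fintype F] [Fintype G] (t : G) (w : G → F) :
    Nat.card {b : G → F // (R F t - 1) (cv w b) = 0} *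
      (Fintype.card F) ^ (finrank F ((Vw F w).map (R F t - 1))) =
      (Fintype.card F) ^ (Fintype.card G) := by
  classical
  set φ : (G → F) →ₗ[F] (G → F) := (R F t - 1).comp (cv w) with hφ
  have h1 := LinearMap.finrank_range_add_finrank_ker φ
  have h2 : LinearMap.range φ = (Vw F w).map (R F t - 1) := by
    rw [hφ, LinearMap.range_comp, range_cv]
  rw [h2, finrank_fintype_fun_eq_card] at h1
  have h3 : Nat.card {b : G → F // (R F t - 1) (cv w b) = 0} = Nat.card (LinearMap.ker φ) := rfl
  rw [h3, Nat.card_eq_fintype_card, Module.card_eq_pow_finrank (K := F), ← pow_add, add_comm, h1]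

/-- the left ideal -/
noncomputable def Cb [Fintype G] (t : G) (b : G → F) : Submodule F (G → F) :=
  LinearMap.ker ((R F t - 1).comp (∑ x, b x • R F x))

theorem mem_Cb [Fintype G] (t : G) (b w : G → F) : w ∈ Cb t b ↔ (R F t - 1) (cv w b) = 0 := by
  unfold Cb
  rw [LinearMap.mem_ker, LinearMap.comp_apply, LinearMap.sum_apply]
  rfl

theorem Cb_inv [Fintype G] (t : G) (b : G → F) :
    ∀ c ∈ Cb t b, ∀ z : G, (fun x => c (z * x)) ∈ Cb t b := by
  intro c hc z
  rw [mem_Cb] at hc ⊢
  funext y
  have h1 : ((R F t - 1) (cv c b)) (z * y) = (0 : F) := congrFun hc (z * y)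
  show ((R F t - 1) (cv (fun x => c (z * x)) b)) y = (0 : F)
  have e : ∀ (u : G → F) (y : G), ((R F t - 1) (cv u b)) y =
      ∑ x, b x * u (y * t * x) - ∑ x, b x * u (y * x) := by
    intro u y
    rw [LinearMap.sub_apply]
    show (cv u b) (y * t) - (cv u b) y = _
    have e2 : ∀ y, (cv u b) y = ∑ x, b x * u (y * x) := by
      intro y
      show (∑ x, b x • R F x u) y = _
      rw [Finset.sum_apply]
      rfl
    rw [e2, e2]
  rw [e] at h1 ⊢
  rw [← h1]
  simp only [mul_assoc]

theorem finrank_Cb [Fintype G] (t : G) (b : G → F) :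
    Fintype.card G ≤ orderOf t * finrank F (Cb t b) := by
  have h1 := LinearMap.finrank_range_add_finrank_ker ((R F t - 1).comp (∑ x, b x • R F x))
  have h2 := LinearMap.finrank_range_add_finrank_ker (R F t - 1)
  have h3 : finrank F (LinearMap.range ((R F t - 1).comp (∑ x, b x • R F x))) ≤
      finrank F (LinearMap.range (R F t - 1)) := by
    apply Submodule.finrank_mono
    exact LinearMap.range_comp_le_range _ _
  have h4 : LinearMap.ker (R F t - 1) = Fix F (Subgroup.zpowers t) := by
    ext w
    rw [LinearMap.mem_ker, LinearMap.sub_apply, sub_eq_zero]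
    constructor
    · intro hw x hx
      have hx' : x ∈ Subgroup.closure {t} := by rwa [← Subgroup.zpowers_eq_closure]
      induction hx' using Subgroup.closure_induction with
      | mem y hy => rw [Set.mem_singleton_iff] at hy; subst hy; exact hw
      | one => rw [R_one]; rfl
      | mul y z hy' hz' hy hz =>
        rw [R_mul, Module.End.mul_apply, hz (by rwa [Subgroup.zpowers_eq_closure]),
          hy (by rwa [Subgroup.zpowers_eq_closure])]
      | inv y hy' hy =>
        have := hy (by rwa [Subgroup.zpowers_eq_closure])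
        conv_lhs => rw [← this]
        rw [← Module.End.mul_apply, ← R_mul, inv_mul_cancel, R_one]; rfl
    · intro hw
      exact hw t (Subgroup.mem_zpowers t)
  rw [h4, finrank_Fix] at h2
  have h5 : finrank F (Cb t b) = finrank F
    (LinearMap.ker ((R F t - 1).comp (∑ x, b x • R F x))) := rfl
  have h6 : (Subgroup.zpowers t).index ≤ finrank F (Cb t b) := by omega
  have h7 := Subgroup.card_mul_index (Subgroup.zpowers t)
  rw [Nat.card_zpowers] at h7
  rw [← Nat.card_eq_fintype_card, ← h7]
  exact Nat.mul_le_mul_left _ h6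

open Classical in
/-- the uncertainty principle -/
theorem uncertainty [Fintype G] {g h : G} (hgh : Commute g h) (w : G → F) (hw : w ≠ 0) :
    Nat.card (Subgroup.closure {g, h}) ≤ rk F g h w * wt w := by
  set A := Subgroup.closure {g, h} with hA
  obtain ⟨y₀, hy₀⟩ : ∃ y, w y ≠ 0 := by
    by_contra hcon
    push Not at hcon
    exact hw (funext hcon)
  -- a basis among the translates
  set U := cyc (R F g) (R F h) w with hU
  set S : Set (G → F) := Set.range fun a : A => R F (a : G) w with hS
  have hspan : Submodule.span F S = U := by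
    apply le_antisymm
    · rw [Submodule.span_le]
      rintro _ ⟨a, rfl⟩
      exact R_mem_cyc hgh a.2 w
    · rw [hU]
      unfold cyc
      rw [Submodule.span_le]
      rintro _ ⟨⟨i, j⟩, rfl⟩
      apply Submodule.subset_span
      refine ⟨⟨g ^ i * h ^ j, A.mul_mem (A.pow_mem (Subgroup.subset_closure (by simp)) _)
        (A.pow_mem (Subgroup.subset_closure (by simp)) _)⟩, ?_⟩
      show R F (g ^ i * h ^ j) w = _
      rw [R_mul, R_pow, R_pow]
      rfl
  obtain ⟨B, hBS, hBspan, hBli⟩ := exists_linearIndependent F S
  have hBfin : B.Finite := (Set.finite_range _).subset hBS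
  have := hBfin.fintype
  have hcard : Fintype.card B = rk F g h w := by
    have h1 := finrank_span_set_eq_card hBli
    rw [hBspan, hspan] at h1
    rw [← Set.toFinset_card, ← h1]
    rfl
  -- every position `y₀ a` is covered
  have hcov : ∀ a : A, ∃ v ∈ B, v (y₀ * a) ≠ 0 := by
    intro a
    by_contra hcon
    push Not at hcon
    have h1 : ∀ v ∈ Submodule.span F B, v (y₀ * a) = 0 := by
      intro v hv
      induction hv using Submodule.span_induction with
      | mem x hx => exact hcon x hx
      | zero => rfl
      | add x y _ _ hx hy => rw [Pi.add_apply, hx, hy, add_zero]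
      | smul c x _ hx => rw [Pi.smul_apply, hx, smul_zero]
    have h2 : R F ((a : G)⁻¹) w ∈ Submodule.span F B := by
      rw [hBspan]
      exact Submodule.subset_span ⟨a⁻¹, rfl⟩
    have h3 := h1 _ h2
    rw [R_apply] at h3
    apply hy₀
    rw [← h3]
    congr 1
    group
  choose f hf hf2 using hcov
  have hinj : Function.Injective (fun a : A => y₀ * (a : G)) := by
    intro a b hab
    exact Subtype.ext (mul_left_cancel hab)
  have : Fintype A := Fintype.ofFinite A
  have h1 : Fintype.card A ≤ ∑ v : B, (univ.filter fun y => v.1 y ≠ 0).card := by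
    rw [← Finset.card_sigma, ← Finset.card_univ]
    apply Finset.card_le_card_of_injOn (fun a : A => (⟨⟨f a, hf a⟩, y₀ * (a : G)⟩ : Σ _ : B, G))
    · intro a _
      have h2 := hf2 a
      simp only [Finset.coe_sigma, Finset.coe_univ, Finset.coe_filter, Finset.mem_univ, true_and]
      exact ⟨trivial, h2⟩
    · intro a _ b _ hab
      apply hinj
      have := congrArg (fun z : (Σ _ : B, G) => z.2) hab
      exact this
  have h2 : ∀ v : B, (univ.filter fun y => v.1 y ≠ 0).card = wt w := by
    rintro ⟨v, hv⟩
    obtain ⟨a, rfl⟩ := hBS hv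
    unfold wt
    apply Finset.card_bij (fun y _ => y * (a : G))
    · intro y hy
      have := (Finset.mem_filter.1 hy).2
      exact Finset.mem_filter.2 ⟨mem_univ _, this⟩
    · intro y _ z _ hyz
      exact mul_right_cancel hyz
    · intro y hy
      refine ⟨y * (a : G)⁻¹, ?_, by group⟩
      have h3 := (Finset.mem_filter.1 hy).2
      refine Finset.mem_filter.2 ⟨mem_univ _, ?_⟩
      show w (y * (a : G)⁻¹ * a) ≠ 0
      rwa [inv_mul_cancel_right]
  rw [Finset.sum_congr rfl fun v _ => h2 v, Finset.sum_const, Finset.card_univ, smul_eq_mul,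
    hcard] at h1
  rwa [Nat.card_eq_fintype_card]

end Run7.h505.RT
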