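import Pool.Agent.Run7.h505.RT.J

/-!
The numerical part of the union bound.
-/

set_option autoImplicit false

namespace Run7.h505.RT

open Finset Filter Asymptotics

theorem poly_bound (p : ℕ) (hp : 2 ≤ p) (c : ℝ) (hc : 0 < c) : ∃ r₁ : ℕ, 2 ≤ r₁ ∧ ∀ r : ℕ, r₁ ≤ r →
    ((r : ℝ) + 1) ^ (Nat.clog p r + 1) * ((p : ℝ) ^ (Nat.clog p r)) ^ 2 ≤ Real.exp (c * r) := by
  have h1 : (fun x : ℝ => 2 * Real.log x ^ 2 + 6 * Real.log x + (2 + 2 * Real.log p)) =o[atTop]
      (id : ℝ → ℝ) := by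
    have a1 := (Real.isLittleO_pow_log_id_atTop (n := 2)).const_mul_left 2
    have a2 := (Real.isLittleO_pow_log_id_atTop (n := 1)).const_mul_left 6
    have a3 := isLittleO_const_id_atTop (2 + 2 * Real.log (p : ℝ))
    have := (a1.add a2).add a3
    simpa using this
  have h2 := (h1.def hc).natCast_atTop
  obtain ⟨r₁, hr₁⟩ := eventually_atTop.1 h2
  refine ⟨max r₁ 2, le_max_right _ _, fun r hr => ?_⟩
  have hr2 : 2 ≤ r := (le_max_right _ _).trans hr
  have h3 := hr₁ r ((le_max_left _ _).trans hr)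
  have hrR : (2 : ℝ) ≤ r := by exact_mod_cast hr2
  have hpR : (2 : ℝ) ≤ p := by exact_mod_cast hp
  have hL0 : 0 ≤ Real.log r := Real.log_nonneg (by linarith)
  have hlp0 : 0 ≤ Real.log p := Real.log_nonneg (by linarith)
  have hlp : Real.log 2 ≤ Real.log p := Real.log_le_log (by norm_num) hpR
  have hl2 : (1 / 2 : ℝ) ≤ Real.log 2 := by have := Real.log_two_gt_d9; linarith
  simp only [id, Real.norm_eq_abs] at h3
  rw [abs_of_nonneg (by positivity), abs_of_nonneg (by positivity)] at h3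
  -- the exponent
  have h4 := Nat.pow_pred_clog_lt_self (b := p) (by omega) (x := r) (by omega)
  have hcpos : 0 < Nat.clog p r := Nat.clog_pos (by omega) (by omega)
  obtain ⟨d, hd⟩ : ∃ d, Nat.clog p r = d + 1 := ⟨Nat.clog p r - 1, by omega⟩
  rw [hd] at h4 ⊢
  have h5 : p ^ d < r := by simpa using h4
  have h5R : (p : ℝ) ^ d < r := by exact_mod_cast h5
  have h6 : (d : ℝ) * Real.log p ≤ Real.log r := by
    rw [← Real.log_pow]
    exact Real.log_le_log (by positivity) h5R.le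
  have h7 : (d : ℝ) ≤ 2 * Real.log r := by
    have : (d : ℝ) * (1 / 2) ≤ d * Real.log p :=
      mul_le_mul_of_nonneg_left (hl2.trans hlp) (Nat.cast_nonneg d)
    linarith
  have h8 : Real.log (r + 1) ≤ 1 + Real.log r := by
    have e : (1 : ℝ) + Real.log r = Real.log (Real.exp 1 * r) := by
      rw [Real.log_mul (Real.exp_pos 1).ne' (by linarith), Real.log_exp]
    rw [e]
    apply Real.log_le_log (by linarith)
    have := Real.add_one_le_exp (1 : ℝ)
    nlinarith
  have h9 : Real.log (((r : ℝ) + 1) ^ (d + 1 + 1) * ((p : ℝ) ^ (d + 1)) ^ 2) ≤ c * r := by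
    rw [Real.log_mul (by positivity) (by positivity), Real.log_pow, Real.log_pow, Real.log_pow]
    push_cast
    have e1 : ((d : ℝ) + 1 + 1) * Real.log (r + 1) ≤ (2 * Real.log r + 2) * (1 + Real.log r) := by
      apply mul_le_mul _ h8 (Real.log_nonneg (by linarith)) (by linarith)
      linarith
    have e2 : 2 * (((d : ℝ) + 1) * Real.log p) ≤ 2 * (Real.log r + Real.log p) := by
      nlinarith
    have e3 : (2 * Real.log r + 2) * (1 + Real.log r) + 2 * (Real.log r + Real.log p) =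
        2 * Real.log r ^ 2 + 6 * Real.log r + (2 + 2 * Real.log p) := by ring
    linarith
  have h10 : 0 < ((r : ℝ) + 1) ^ (d + 1 + 1) * ((p : ℝ) ^ (d + 1)) ^ 2 := by positivity
  rw [← Real.log_le_iff_le_exp h10]
  exact h9

/-- the function to be summed -/
noncomputable def term (p q m n M : ℕ) (K θ : ℝ) (r : ℕ) : ℝ :=
  (((r : ℝ) + 1) ^ (Nat.clog p r + 1) * ((p : ℝ) ^ (Nat.clog p r)) ^ 2 *
    (((q : ℝ) ^ m * K) ^ (θ * (12 * p * r : ℕ)) * (1 + 1 / K) ^ (12 * p * r))) *
    (q : ℝ) ^ (((M : ℝ) - r) / n)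

theorem analytic (p q m n M : ℕ) (hp : 2 ≤ p) (hq : 2 ≤ q) (hn : 1 ≤ n) :
    ∃ (K θ : ℝ) (r₀ : ℕ), 1 ≤ K ∧ 0 < θ ∧ 1 ≤ r₀ ∧ ∀ R : ℕ,
      ∑ r ∈ Ico r₀ R, term p q m n M K θ r < 1 := by
  have hqR : (2 : ℝ) ≤ q := by exact_mod_cast hq
  have hpR : (2 : ℝ) ≤ p := by exact_mod_cast hp
  have hnR : (1 : ℝ) ≤ n := by exact_mod_cast hn
  have hlq : 0 < Real.log q := Real.log_pos (by linarith)
  set c : ℝ := Real.log q / n with hc
  have hc0 : 0 < c := by positivity
  set K : ℝ := max 1 (96 * p / c) with hK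
  have hK1 : 1 ≤ K := le_max_left _ _
  have hK0 : 0 < K := by linarith
  have hKc : 12 * p / K ≤ c / 8 := by
    rw [div_le_iff₀ hK0]
    have : 96 * p / c ≤ K := le_max_right _ _
    rw [div_le_iff₀ hc0] at this
    linarith
  have hqm : (1 : ℝ) ≤ (q : ℝ) ^ m := one_le_pow₀ (by linarith)
  have hqK : 1 ≤ (q : ℝ) ^ m * K := by nlinarith
  have hqK0 : 0 < (q : ℝ) ^ m * K := by linarith
  set lK : ℝ := Real.log ((q : ℝ) ^ m * K) with hlK
  have hlK0 : 0 ≤ lK := Real.log_nonneg hqK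
  set θ : ℝ := c / (96 * p * (lK + 1)) with hθ
  have hθ0 : 0 < θ := by positivity
  have hθc : θ * (12 * p) * lK ≤ c / 8 := by
    have h1 : θ * (12 * p) * (lK + 1) = c / 8 := by
      rw [hθ]
      field_simp
      ring
    nlinarith [mul_pos hθ0 (by linarith : (0 : ℝ) < 12 * p)]
  obtain ⟨r₁, hr₁2, hr₁⟩ := poly_bound p hp (c / 4) (by positivity)
  set x : ℝ := Real.exp (-(c / 2)) with hx
  have hx0 : 0 < x := Real.exp_pos _
  have hx1 : x < 1 := by rw [hx, Real.exp_lt_one_iff]; linarith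
  have htend : Tendsto (fun r : ℕ => Real.exp (c * M) * (x ^ r / (1 - x))) atTop (nhds 0) := by
    have h1 := tendsto_pow_atTop_nhds_zero_of_lt_one hx0.le hx1
    have h2 := (h1.div_const (1 - x)).const_mul (Real.exp (c * M))
    simpa using h2
  obtain ⟨r₂, hr₂⟩ := eventually_atTop.1 (htend.eventually (gt_mem_nhds one_pos))
  refine ⟨K, θ, max r₁ r₂, hK1, hθ0, (by omega : 1 ≤ r₁).trans (le_max_left _ _), fun R => ?_⟩
  have hterm : ∀ r ∈ Ico (max r₁ r₂) R, term p q m n M K θ r ≤ Real.exp (c * M) * x ^ r := by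
    intro r hr
    have hr1 : r₁ ≤ r := (le_max_left _ _).trans (mem_Ico.1 hr).1
    have e1 := hr₁ r hr1
    have e2 : ((q : ℝ) ^ m * K) ^ (θ * (12 * p * r : ℕ)) ≤ Real.exp (c / 8 * r) := by
      rw [Real.rpow_def_of_pos hqK0]
      apply Real.exp_le_exp.2
      push_cast
      calc Real.log ((q : ℝ) ^ m * K) * (θ * (12 * p * r)) = (θ * (12 * p) * lK) * r := by
            rw [hlK]; ring
        _ ≤ c / 8 * r := mul_le_mul_of_nonneg_right hθc (Nat.cast_nonneg r)
    have e3 : (1 + 1 / K) ^ (12 * p * r) ≤ Real.exp (c / 8 * r) := by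
      have h1 : 1 + 1 / K ≤ Real.exp (1 / K) := by
        have := Real.add_one_le_exp (1 / K); linarith
      have h0 : 0 ≤ 1 + 1 / K := by positivity
      refine (pow_le_pow_left₀ h0 h1 _).trans ?_
      rw [← Real.exp_nat_mul]
      apply Real.exp_le_exp.2
      push_cast
      calc (12 : ℝ) * p * r * (1 / K) = (12 * p / K) * r := by ring
        _ ≤ c / 8 * r := mul_le_mul_of_nonneg_right hKc (Nat.cast_nonneg r)
    have e4 : (q : ℝ) ^ (((M : ℝ) - r) / n) = Real.exp (c * M - c * r) := by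
      rw [Real.rpow_def_of_pos (by linarith)]
      congr 1
      rw [hc]
      field_simp
    unfold term
    rw [e4]
    calc _ ≤ (Real.exp (c / 4 * r) * (Real.exp (c / 8 * r) * Real.exp (c / 8 * r))) *
          Real.exp (c * M - c * r) := by
          apply mul_le_mul_of_nonneg_right _ (Real.exp_pos _).le
          apply mul_le_mul e1 _ (by positivity) (Real.exp_pos _).le
          apply mul_le_mul e2 e3 (by positivity) (Real.exp_pos _).le
      _ = Real.exp (c * M) * x ^ r := by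
          rw [hx, ← Real.exp_nat_mul, ← Real.exp_add, ← Real.exp_add, ← Real.exp_add,
            ← Real.exp_add]
          congr 1
          ring
  calc ∑ r ∈ Ico (max r₁ r₂) R, term p q m n M K θ r
      ≤ ∑ r ∈ Ico (max r₁ r₂) R, Real.exp (c * M) * x ^ r := Finset.sum_le_sum hterm
    _ = Real.exp (c * M) * ∑ r ∈ Ico (max r₁ r₂) R, x ^ r := by rw [Finset.mul_sum]
    _ ≤ Real.exp (c * M) * (x ^ (max r₁ r₂) / (1 - x)) :=
        mul_le_mul_of_nonneg_left (geom_sum_Ico_le_of_lt_one hx0.le hx1) (Real.exp_pos _).le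
    _ < 1 := hr₂ _ (le_max_right _ _)

end Run7.h505.RT
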