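import Pool.Agent.Run7.h505.RT.L

/-!
The main theorem: good left ideals.
-/

set_option autoImplicit false

namespace Run7.h505.RT

open Module Finset

open Classical in
theorem good (F : Type) [Field F] [Fintype F] (p : ℕ) [hp : Fact p.Prime] [CharP F p]
    (m M n : ℕ) : ∃ δ : ℝ, 0 < δ ∧ ∀ (G : Type) [Group G] [Fintype G] (g h t : G) (gs : Fin n → G),
      Commute g h → IsPGroup p (Subgroup.closure {g, h}) →
      (Subgroup.closure {g, h}).index ≤ m →
      (Subgroup.closure (Set.range fun i => gs i * t * (gs i)⁻¹)).index ≤ M →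
      ∃ C : Submodule F (G → F), (∀ c ∈ C, ∀ z : G, (fun x => c (z * x)) ∈ C) ∧
        Fintype.card G ≤ orderOf t * finrank F C ∧
        ∀ c ∈ C, c ≠ 0 → δ * Fintype.card G < wt c := by
  set q := Fintype.card F with hq
  have hq2 : 2 ≤ q := Fintype.one_lt_card
  have hqR : (2 : ℝ) ≤ q := by exact_mod_cast hq2
  obtain ⟨K, θ, r₀, hK, hθ, hr₀, hsum⟩ := analytic p q m (n + 1) M hp.out.two_le hq2 (by omega)
  have hr₀R : (1 : ℝ) ≤ r₀ := by exact_mod_cast hr₀
  have hm0 : (0 : ℝ) ≤ m := Nat.cast_nonneg m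
  have hm1 : (0 : ℝ) < (m : ℝ) + 1 := by positivity
  set δ : ℝ := min (θ / (m + 1)) (1 / ((m + 1) * r₀)) with hδ
  have hδ0 : 0 < δ := lt_min (by positivity) (by positivity)
  refine ⟨δ, hδ0, ?_⟩
  intro G _ _ g h t gs hgh hA hm hM
  set A := Subgroup.closure {g, h} with hAdef
  have hcardG : (Fintype.card G : ℝ) = A.index * Nat.card A := by
    rw [← Nat.card_eq_fintype_card, ← A.index_mul_card]
    push_cast
    rfl
  have hmR : (A.index : ℝ) ≤ m := by exact_mod_cast hm
  have hApos : (0 : ℝ) < Nat.card A := by exact_mod_cast Nat.card_pos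
  set S : Finset (G → F) := univ.filter fun w => w ≠ 0 ∧ (wt w : ℝ) ≤ δ * Fintype.card G with hS
  -- bounds for the words in `S`
  have hwt : ∀ w ∈ S, (wt w : ℝ) ≤ δ * m * Nat.card A := by
    intro w hw
    have h1 := (Finset.mem_filter.1 hw).2.2
    rw [hcardG] at h1
    refine h1.trans ?_
    rw [mul_assoc]
    exact mul_le_mul_of_nonneg_left (mul_le_mul_of_nonneg_right hmR hApos.le) hδ0.le
  have hwtθ : ∀ w ∈ S, (wt w : ℝ) ≤ θ * Nat.card A := by
    intro w hw
    refine (hwt w hw).trans (mul_le_mul_of_nonneg_right ?_ hApos.le)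
    have h1 : δ ≤ θ / (m + 1) := min_le_left _ _
    rw [le_div_iff₀ hm1] at h1
    nlinarith
  have hrk : ∀ w ∈ S, r₀ ≤ rk F g h w := by
    intro w hw
    have h1 := uncertainty hgh w (Finset.mem_filter.1 hw).2.1
    have h2 : (Nat.card A : ℝ) ≤ rk F g h w * wt w := by exact_mod_cast h1
    have h3 : (rk F g h w : ℝ) * wt w ≤ rk F g h w * (δ * m * Nat.card A) :=
      mul_le_mul_of_nonneg_left (hwt w hw) (Nat.cast_nonneg _)
    have h4 : 1 ≤ (rk F g h w : ℝ) * (δ * m) := by
      have h5 : 1 * (Nat.card A : ℝ) ≤ (rk F g h w : ℝ) * (δ * m) * Nat.card A := by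
        calc 1 * (Nat.card A : ℝ) = Nat.card A := one_mul _
          _ ≤ rk F g h w * (δ * m * Nat.card A) := h2.trans h3
          _ = _ := by ring
      exact le_of_mul_le_mul_right h5 hApos
    have h6 : δ * m ≤ 1 / r₀ := by
      have h7 : δ ≤ 1 / ((m + 1) * r₀) := min_le_right _ _
      have h8 : δ * m ≤ 1 / ((m + 1) * r₀) * (m + 1) := by
        apply mul_le_mul h7 (by linarith) hm0 (by positivity)
      refine h8.trans (le_of_eq ?_)
      field_simp
    have h9 : 1 ≤ (rk F g h w : ℝ) * (1 / r₀) :=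
      h4.trans (mul_le_mul_of_nonneg_left h6 (Nat.cast_nonneg _))
    have h10 : (r₀ : ℝ) ≤ rk F g h w := by
      rw [mul_one_div, le_div_iff₀ (by linarith)] at h9
      linarith
    exact_mod_cast h10
  have hrk2 : ∀ w ∈ S, rk F g h w < Fintype.card G + 1 := by
    intro w _
    have h1 : rk F g h w ≤ finrank F (G → F) := Submodule.finrank_le _
    rw [finrank_fintype_fun_eq_card] at h1
    omega
  -- the number of bad `b`
  have hbad : ∀ w : G → F, (Nat.card {b : G → F // w ∈ Cb t b} : ℝ) ≤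
      (q : ℝ) ^ (Fintype.card G) * (q : ℝ) ^ (((M : ℝ) - rk F g h w) / ((n + 1 : ℕ) : ℝ)) := by
    intro w
    have h1 := card_bad t w
    have h2 := dim_bound (F := F) t n M gs hM w
    have h3 := rk_le (F := F) hgh w
    set d := finrank F ((Vw F w).map (R F t - 1)) with hd
    have h4 : Nat.card {b : G → F // w ∈ Cb t b} =
        Nat.card {b : G → F // (R F t - 1) (cv w b) = 0} := by
      apply Nat.card_congr
      apply Equiv.subtypeEquivRight
      intro b
      exact mem_Cb t b w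
    rw [h4]
    have h5 : (Nat.card {b : G → F // (R F t - 1) (cv w b) = 0} : ℝ) * (q : ℝ) ^ d =
        (q : ℝ) ^ (Fintype.card G) := by exact_mod_cast h1
    have hqd : (0 : ℝ) < (q : ℝ) ^ d := by positivity
    have h6 : (Nat.card {b : G → F // (R F t - 1) (cv w b) = 0} : ℝ) =
        (q : ℝ) ^ (Fintype.card G) * (q : ℝ) ^ (-(d : ℝ)) := by
      rw [← h5, mul_assoc, ← Real.rpow_natCast (q : ℝ) d, ← Real.rpow_add (by linarith)]
      simp
    rw [h6]
    apply mul_le_mul_of_nonneg_left _ (by positivity)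
    apply Real.rpow_le_rpow_of_exponent_le (by linarith)
    have hn0 : (0 : ℝ) < ((n + 1 : ℕ) : ℝ) := by positivity
    rw [le_div_iff₀ hn0]
    have h7 : (rk F g h w : ℝ) ≤ n * d + M := by exact_mod_cast h3.trans h2
    push_cast
    have hd0 : (0 : ℝ) ≤ d := Nat.cast_nonneg d
    nlinarith
  -- the sum over the words in `S`
  have hS1 : ∑ w ∈ S, (q : ℝ) ^ (((M : ℝ) - rk F g h w) / ((n + 1 : ℕ) : ℝ)) < 1 := by
    have h1 : ∑ w ∈ S, (q : ℝ) ^ (((M : ℝ) - rk F g h w) / ((n + 1 : ℕ) : ℝ)) =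
        ∑ r ∈ Ico r₀ (Fintype.card G + 1), ∑ w ∈ S.filter (fun w => rk F g h w = r),
          (q : ℝ) ^ (((M : ℝ) - rk F g h w) / ((n + 1 : ℕ) : ℝ)) := by
      symm
      apply Finset.sum_fiberwise_of_maps_to
      intro w hw
      exact mem_Ico.2 ⟨hrk w hw, hrk2 w hw⟩
    rw [h1]
    refine lt_of_le_of_lt (Finset.sum_le_sum fun r _ => ?_) (hsum (Fintype.card G + 1))
    have h2 : ∑ w ∈ S.filter (fun w => rk F g h w = r),
          (q : ℝ) ^ (((M : ℝ) - rk F g h w) / ((n + 1 : ℕ) : ℝ)) =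
        (S.filter (fun w => rk F g h w = r)).card *
          (q : ℝ) ^ (((M : ℝ) - r) / ((n + 1 : ℕ) : ℝ)) := by
      rw [← nsmul_eq_mul, ← Finset.sum_const]
      refine Finset.sum_congr rfl fun w hw => ?_
      rw [(Finset.mem_filter.1 hw).2]
    rw [h2]
    unfold term
    apply mul_le_mul_of_nonneg_right _ (by positivity)
    have h3 := card_low (F := F) p hgh hA (Nat.clog p r) r
      (Nat.le_pow_clog hp.out.one_lt r) θ K hθ.le hK
    have h4 : ((S.filter (fun w => rk F g h w = r)).card : ℝ) ≤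
        ((univ.filter fun w : G → F => rk F g h w = r ∧
          (wt w : ℝ) ≤ θ * Nat.card (Subgroup.closure {g, h})).card : ℝ) := by
      rw [Nat.cast_le]
      apply Finset.card_le_card
      intro w hw
      obtain ⟨hw1, hw2⟩ := Finset.mem_filter.1 hw
      exact Finset.mem_filter.2 ⟨mem_univ _, hw2, hwtθ w hw1⟩
    refine h4.trans (h3.trans ?_)
    apply mul_le_mul_of_nonneg_left _ (by positivity)
    apply mul_le_mul_of_nonneg_right _ (by
      have : 0 < 1 / K := by positivity
      positivity)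
    apply Real.rpow_le_rpow (by positivity)
    · apply mul_le_mul_of_nonneg_right _ (by linarith)
      have : Fintype (G ⧸ A) := Fintype.ofFinite _
      have h5 : Nat.card (G ⧸ A → F) = q ^ A.index := by
        rw [Nat.card_eq_fintype_card, Fintype.card_fun, Subgroup.index, Nat.card_eq_fintype_card]
      rw [h5]
      push_cast
      exact pow_le_pow_right₀ (by linarith) hm
    · positivity
  -- a good `b`
  obtain ⟨b, hb⟩ : ∃ b : G → F, ∀ w ∈ S, w ∉ Cb t b := by
    by_contra hcon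
    push Not at hcon
    have h1 : (univ : Finset (G → F)) ⊆ S.biUnion fun w => univ.filter fun b => w ∈ Cb t b := by
      intro b _
      obtain ⟨w, hw, hwb⟩ := hcon b
      exact Finset.mem_biUnion.2 ⟨w, hw, Finset.mem_filter.2 ⟨mem_univ _, hwb⟩⟩
    have h2 := (Finset.card_le_card h1).trans Finset.card_biUnion_le
    rw [Finset.card_univ, Fintype.card_fun] at h2
    have h3 : ((q : ℝ)) ^ (Fintype.card G) ≤
        ∑ w ∈ S, (Nat.card {b : G → F // w ∈ Cb t b} : ℝ) := by
      have h4 : ((q ^ (Fintype.card G) : ℕ) : ℝ) ≤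
          ((∑ w ∈ S, (univ.filter fun b : G → F => w ∈ Cb t b).card : ℕ) : ℝ) := by
        exact_mod_cast h2
      push_cast at h4
      refine h4.trans (le_of_eq ?_)
      refine Finset.sum_congr rfl fun w _ => ?_
      rw [Nat.card_eq_fintype_card, Fintype.card_subtype]
    have h5 : ∑ w ∈ S, (Nat.card {b : G → F // w ∈ Cb t b} : ℝ) ≤
        (q : ℝ) ^ (Fintype.card G) *
          ∑ w ∈ S, (q : ℝ) ^ (((M : ℝ) - rk F g h w) / ((n + 1 : ℕ) : ℝ)) := by
      rw [Finset.mul_sum]
      exact Finset.sum_le_sum fun w _ => hbad w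
    have hqG : (0 : ℝ) < (q : ℝ) ^ (Fintype.card G) := by positivity
    have h6 := h3.trans h5
    nlinarith
  refine ⟨Cb t b, Cb_inv t b, finrank_Cb t b, ?_⟩
  intro c hc hc0
  by_contra hcon
  push Not at hcon
  exact hb c (Finset.mem_filter.2 ⟨mem_univ _, hc0, hcon⟩) hc

end Run7.h505.RT
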