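import Mathlib

/-!
Automorphisms of finite abelian `p`-groups of rank at most two.
-/

set_option autoImplicit false

namespace Run7.h505.RT

open Finset

variable {V : Type} [AddCommGroup V]

theorem two_gen [Finite V] {p : ℕ} (hp : p.Prime) {N : ℕ} (hN : Nat.card V = p ^ N)
    (hr : ∀ j, Nat.card {v : V // p ^ j • v = 0} ≤ p ^ (2 * j)) {c d : V} {j s : ℕ}
    (hc : addOrderOf c = p ^ j) (hd : addOrderOf d = p ^ j)
    (H : ∀ α β : ℤ, α • c = β • d → p ^ s • (α • c) = 0) (v : V) (hv : p ^ j • v = 0) :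
    ∃ α β : ℤ, p ^ s • v = α • c + β • d := by
  set C := AddSubgroup.zmultiples c with hC
  set D := AddSubgroup.zmultiples d with hD
  set T := (nsmulAddMonoidHom (α := V) (p ^ j)).ker with hT
  have hmemT : ∀ w : V, w ∈ T ↔ p ^ j • w = 0 := fun w => by
    rw [hT, AddMonoidHom.mem_ker]; rfl
  have hcT : C ≤ T := by
    rw [hC, AddSubgroup.zmultiples_le, hmemT, ← hc]
    exact addOrderOf_nsmul_eq_zero c
  have hdT : D ≤ T := by
    rw [hD, AddSubgroup.zmultiples_le, hmemT, ← hd]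
    exact addOrderOf_nsmul_eq_zero d
  have hWT : C ⊔ D ≤ T := sup_le hcT hdT
  have hcardT : Nat.card T ≤ p ^ (2 * j) := by
    refine le_trans (le_of_eq ?_) (hr j)
    exact Nat.card_congr (Equiv.subtypeEquivRight hmemT)
  have hcardC : Nat.card C = p ^ j := by rw [hC, Nat.card_zmultiples, hc]
  have hcardD : Nat.card D = p ^ j := by rw [hD, Nat.card_zmultiples, hd]
  -- the intersection is small
  have hinf : Nat.card (C ⊓ D : AddSubgroup V) ≤ p ^ s := by
    obtain ⟨w, hw⟩ : ∃ w, C ⊓ D = AddSubgroup.zmultiples w := by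
      have h1 : IsAddCyclic (C : AddSubgroup V) := by
        rw [hC]; infer_instance
      have h2 : IsAddCyclic ((C ⊓ D).addSubgroupOf C) := inferInstance
      obtain ⟨w, hw⟩ := h2.exists_generator
      refine ⟨w.1.1, ?_⟩
      apply le_antisymm
      · intro x hx
        have hxC : x ∈ C := hx.1
        obtain ⟨n, hn⟩ := AddSubgroup.mem_zmultiples_iff.1 (hw ⟨⟨x, hxC⟩, hx⟩)
        rw [AddSubgroup.mem_zmultiples_iff]
        refine ⟨n, ?_⟩
        have := congrArg (fun y => ((y : (C ⊓ D).addSubgroupOf C).1.1 : V)) hn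
        simpa using this
      · rw [AddSubgroup.zmultiples_le]
        exact w.2
    have hw1 : w ∈ C ⊓ D := by rw [hw]; exact AddSubgroup.mem_zmultiples w
    obtain ⟨α, hα⟩ := AddSubgroup.mem_zmultiples_iff.1 hw1.1
    obtain ⟨β, hβ⟩ := AddSubgroup.mem_zmultiples_iff.1 hw1.2
    have h3 := H α β (hα.trans hβ.symm)
    rw [hα] at h3
    rw [hw, Nat.card_zmultiples]
    exact Nat.le_of_dvd (pow_pos hp.pos _) (addOrderOf_dvd_of_nsmul_eq_zero h3)
  have e1 : Nat.card (C ⊓ D : AddSubgroup V) * D.relIndex C = Nat.card C := by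
    have := AddSubgroup.relIndex_mul_relIndex (⊥ : AddSubgroup V) (C ⊓ D) C bot_le inf_le_left
    rwa [AddSubgroup.relIndex_bot_left, AddSubgroup.relIndex_bot_left,
      AddSubgroup.inf_relIndex_left] at this
  have e2 : Nat.card D * D.relIndex C = Nat.card (C ⊔ D : AddSubgroup V) := by
    have := AddSubgroup.relIndex_mul_relIndex (⊥ : AddSubgroup V) D (C ⊔ D) bot_le le_sup_right
    rwa [AddSubgroup.relIndex_bot_left, AddSubgroup.relIndex_bot_left,
      AddSubgroup.relIndex_sup_right] at this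
  have e3 : Nat.card (C ⊔ D : AddSubgroup V) * (C ⊔ D).relIndex T = Nat.card T := by
    have := AddSubgroup.relIndex_mul_relIndex (⊥ : AddSubgroup V) (C ⊔ D) T bot_le hWT
    rwa [AddSubgroup.relIndex_bot_left, AddSubgroup.relIndex_bot_left] at this
  have hpj : 0 < p ^ j := pow_pos hp.pos _
  have hle : (C ⊔ D).relIndex T ≤ p ^ s := by
    have h1 : Nat.card D * Nat.card C * (C ⊔ D).relIndex T =
        Nat.card (C ⊓ D : AddSubgroup V) * Nat.card T := by
      rw [← e3, ← e2, ← e1]; ring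
    rw [hcardC, hcardD] at h1
    have h2 : p ^ j * p ^ j * (C ⊔ D).relIndex T ≤ p ^ j * p ^ j * p ^ s := by
      rw [h1]
      calc Nat.card (C ⊓ D : AddSubgroup V) * Nat.card T ≤ p ^ s * p ^ (2 * j) :=
            Nat.mul_le_mul hinf hcardT
        _ = _ := by ring
    exact Nat.le_of_mul_le_mul_left h2 (Nat.mul_pos hpj hpj)
  have hdvd : (C ⊔ D).relIndex T ∣ p ^ N := by
    rw [← hN]
    exact (Dvd.intro_left _ e3).trans (AddSubgroup.card_addSubgroup_dvd_card T)
  obtain ⟨e, -, he⟩ := (Nat.dvd_prime_pow hp).1 hdvd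
  have hes : e ≤ s := by
    rw [he] at hle
    exact (Nat.pow_le_pow_iff_right hp.one_lt).1 hle
  have hv' : v ∈ T := (hmemT v).2 hv
  have h5 := AddSubgroup.nsmul_index_mem ((C ⊔ D).addSubgroupOf T) ⟨v, hv'⟩
  rw [show ((C ⊔ D).addSubgroupOf T).index = (C ⊔ D).relIndex T from rfl, he,
    AddSubgroup.mem_addSubgroupOf] at h5
  have h6 : p ^ e • v ∈ C ⊔ D := by simpa using h5
  have h7 : p ^ s • v ∈ C ⊔ D := by
    have : p ^ s • v = p ^ (s - e) • (p ^ e • v) := by
      rw [← mul_nsmul', ← pow_add]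
      congr 2
      omega
    rw [this]
    exact AddSubgroup.nsmul_mem _ h6 _
  obtain ⟨y, hy, z, hz, hyz⟩ := AddSubgroup.mem_sup.1 h7
  obtain ⟨α, hα⟩ := AddSubgroup.mem_zmultiples_iff.1 hy
  obtain ⟨β, hβ⟩ := AddSubgroup.mem_zmultiples_iff.1 hz
  exact ⟨α, β, by rw [hα, hβ, hyz]⟩

/-- an element not killed by `p^k` has a multiple of order exactly `p^(k+1)` -/
theorem exists_order [Finite V] {p : ℕ} (hp : p.Prime) {N : ℕ} (hN : Nat.card V = p ^ N)
    {c : V} {k : ℕ} (hc : p ^ k • c ≠ 0) : ∃ n : ℕ, addOrderOf (n • c) = p ^ (k + 1) := by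
  have h1 : addOrderOf c ∣ p ^ N := by rw [← hN]; exact addOrderOf_dvd_natCard c
  obtain ⟨a, -, ha⟩ := (Nat.dvd_prime_pow hp).1 h1
  have hka : k + 1 ≤ a := by
    by_contra hcon
    apply hc
    apply addOrderOf_dvd_iff_nsmul_eq_zero.1
    rw [ha]
    exact pow_dvd_pow p (by omega)
  refine ⟨p ^ (a - (k + 1)), ?_⟩
  rw [addOrderOf_nsmul' c (pow_ne_zero _ hp.ne_zero), ha]
  have h2 : p ^ a = p ^ (a - (k + 1)) * p ^ (k + 1) := by
    rw [← pow_add]; congr 1; omega
  rw [h2, Nat.gcd_mul_right_left, Nat.mul_div_cancel_left _ (pow_pos hp.pos _)]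

/-- `y` and `z` commute, `C = ker (y - 1)` and `D = im (y - 1)` nearly meet in zero; then `z` is
nearly a scalar on elements of `D` -/
theorem scalar [Finite V] {p : ℕ} (hp : p.Prime) {N : ℕ} (hN : Nat.card V = p ^ N)
    (hr : ∀ j, Nat.card {v : V // p ^ j • v = 0} ≤ p ^ (2 * j)) (y z : AddMonoid.End V)
    (hyz : y * z = z * y) (s j : ℕ) (hsj : 2 * s ≤ j)
    (hCD : ∀ v, y (y v - v) = y v - v → p ^ s • (y v - v) = 0)
    {c d : V} (hyc : y c = c) (hyd : ∃ v, y v - v = d)
    (hc : addOrderOf c = p ^ j) (hd : addOrderOf d = p ^ j) :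
    ∃ u : ℤ, z (p ^ (2 * s) • d) = u • (p ^ (2 * s) • d) := by
  obtain ⟨v, hv⟩ := hyd
  have H : ∀ α β : ℤ, α • c = β • d → p ^ s • (α • c) = 0 := by
    intro α β h
    have h1 : y (β • v) - β • v = α • c := by
      rw [map_zsmul, ← smul_sub, hv, h]
    have h2 := hCD (β • v)
    rw [h1, map_zsmul, hyc] at h2
    exact h2 rfl
  have hzd : p ^ j • z d = 0 := by
    rw [← map_nsmul, ← hd, addOrderOf_nsmul_eq_zero, map_zero]
  obtain ⟨α, β, hαβ⟩ := two_gen hp hN hr hc hd H (z d) hzd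
  have hzy : ∀ w, y (z w) = z (y w) := fun w => by
    have := DFunLike.congr_fun hyz w
    exact this
  have h3 : p ^ s • (α • c) = 0 := by
    have h1 : y (p ^ s • z v - β • v) - (p ^ s • z v - β • v) = α • c := by
      rw [map_sub, map_nsmul, map_zsmul, hzy]
      have e1 : p ^ s • z (y v) - β • y v - (p ^ s • z v - β • v) =
          p ^ s • z (y v - v) - β • (y v - v) := by
        rw [map_sub, smul_sub, smul_sub]; abel
      rw [e1, hv, hαβ]
      abel
    have h2 := hCD (p ^ s • z v - β • v)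
    rw [h1, map_zsmul, hyc] at h2
    exact h2 rfl
  have h4 : p ^ (2 * s) • z d = p ^ s • (β • d) := by
    rw [two_mul, pow_add, mul_nsmul', hαβ, smul_add, h3, zero_add]
  have hpp : (p : ℤ) ≠ 0 := by exact_mod_cast hp.ne_zero
  -- `p ^ s` divides `β`
  have h5 : ((p ^ s : ℕ) : ℤ) ∣ β := by
    have h6 : ((p : ℤ) ^ (j - s) * β) • d = 0 := by
      have : ((p : ℤ) ^ (j - s) * β) • d = (p : ℤ) ^ (j - 2 * s) • ((p : ℤ) ^ s • (β • d)) := by
        rw [smul_smul, smul_smul, ← pow_add]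
        congr 3
        omega
      rw [this]
      have h7 : (p : ℤ) ^ s • (β • d) = (p : ℤ) ^ (2 * s) • z d := by
        have := h4
        rw [← natCast_zsmul, ← natCast_zsmul] at this
        push_cast at this
        exact this.symm
      rw [h7, smul_smul, ← pow_add, show j - 2 * s + 2 * s = j by omega]
      have := hzd
      rw [← natCast_zsmul] at this
      push_cast at this
      exact this
    have h8 := addOrderOf_dvd_iff_zsmul_eq_zero.2 h6
    rw [hd] at h8
    push_cast at h8 ⊢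
    rw [show (p : ℤ) ^ j = (p : ℤ) ^ (j - s) * (p : ℤ) ^ s by
      rw [← pow_add]; congr 1; omega] at h8
    exact (mul_dvd_mul_iff_left (pow_ne_zero _ hpp)).1 h8
  obtain ⟨u, hu⟩ := h5
  refine ⟨u, ?_⟩
  rw [map_nsmul, h4, hu, ← natCast_zsmul, ← natCast_zsmul, smul_smul, smul_smul]
  congr 1
  push_cast
  ring

/-- `y^p` nearly trivial: then `C` and `D` nearly meet in zero -/
theorem CD_small {p : ℕ} (y : AddMonoid.End V) (k : ℕ)
    (hy : ∀ v, p ^ k • ((y ^ p) v - v) = 0) (v : V) (hv : y (y v - v) = y v - v) :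
    p ^ (k + 1) • (y v - v) = 0 := by
  have h1 : ∀ i : ℕ, (y ^ i) v - v = i • (y v - v) := by
    intro i
    induction i with
    | zero => simp
    | succ i ih =>
      have h2 : (y ^ i) (y v - v) = y v - v := by
        clear ih
        induction i with
        | zero => simp
        | succ i ih =>
          rw [pow_succ]
          change (y ^ i) (y (y v - v)) = _
          rw [hv, ih]
      rw [pow_succ]
      change (y ^ i) (y v) - v = _
      have h3 : (y ^ i) (y v) = (y ^ i) (y v - v) + (y ^ i) v := by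
        rw [← map_add]; congr 1; abel
      rw [h3, h2, succ_nsmul, ← ih]
      abel
  have h2 := hy v
  rw [h1, ← mul_nsmul'] at h2
  rw [pow_succ]
  exact h2

theorem no_sq {p : ℕ} (hp : p.Prime) (hp2 : p ≠ 2) (u : ℤ) :
    ¬ (p : ℤ) ^ 2 ∣ ∑ i ∈ range p, u ^ i := by
  intro h
  have : Fact p.Prime := ⟨hp⟩
  have h1 : (p : ℤ) ∣ u ^ p - 1 := by
    rw [← geom_sum_mul]
    exact (dvd_trans (dvd_pow_self _ two_ne_zero) h).mul_right _
  have h2 : (u : ZMod p) = 1 := by
    have h3 := (ZMod.intCast_zmod_eq_zero_iff_dvd (u ^ p - 1) p).2 h1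
    push_cast at h3
    rw [ZMod.pow_card] at h3
    linear_combination h3
  have h3 : (p : ℤ) ∣ u - 1 := by
    rw [← ZMod.intCast_zmod_eq_zero_iff_dvd]
    push_cast
    rw [h2, sub_self]
  obtain ⟨b, hb⟩ := h3
  have hu : u = 1 + p * b := by linarith
  have h4 := odd_sq_dvd_geom_sum₂_sub (R := ℤ) 1 b (hp.odd_of_ne_two hp2)
  simp only [one_pow, mul_one] at h4
  rw [← hu] at h4
  have h5 : (p : ℤ) ^ 2 ∣ p := by
    have := dvd_sub h h4
    simpa using this
  have h6 := Int.le_of_dvd (by exact_mod_cast hp.pos) h5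
  have h7 : (2 : ℤ) ≤ p := by exact_mod_cast hp.two_le
  nlinarith

theorem sum_pow_apply (y : AddMonoid.End V) (n : ℕ) (v : V) :
    ∑ i ∈ range n, (y ^ i) (y v - v) = (y ^ n) v - v := by
  have h1 : ∀ i, (y ^ i) (y v - v) = (y ^ (i + 1)) v - (y ^ i) v := by
    intro i
    rw [map_sub, pow_succ]
    rfl
  simp_rw [h1]
  rw [Finset.sum_range_sub (fun i => (y ^ i) v)]
  simp

theorem base_odd [Finite V] {p : ℕ} (hp : p.Prime) (hp2 : p ≠ 2) {N : ℕ}
    (hN : Nat.card V = p ^ N)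
    (hr : ∀ j, Nat.card {v : V // p ^ j • v = 0} ≤ p ^ (2 * j)) (y : AddMonoid.End V) (k : ℕ)
    (hy : ∀ v, p ^ k • ((y ^ p) v - v) = 0) :
    (∀ v, y v = v → p ^ (2 * k + 3) • v = 0) ∨ (∀ v, p ^ (2 * k + 3) • (y v - v) = 0) := by
  by_contra hcon
  push Not at hcon
  obtain ⟨⟨c, hc1, hc2⟩, ⟨v, hv⟩⟩ := hcon
  obtain ⟨n, hn⟩ := exists_order hp hN hc2
  obtain ⟨n', hn'⟩ := exists_order hp hN hv
  have hnc : y (n • c) = n • c := by rw [map_nsmul, hc1]
  have hnd : ∃ w, y w - w = n' • (y v - v) := ⟨n' • v, by rw [map_nsmul, ← smul_sub]⟩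
  obtain ⟨u, hu⟩ := scalar hp hN hr y y rfl (k + 1) (2 * k + 3 + 1) (by omega)
    (CD_small y k hy) hnc hnd hn hn'
  obtain ⟨w, hw⟩ := hnd
  rw [← hw] at hn' hu
  set e := p ^ (2 * (k + 1)) • (y w - w) with he
  have hpow : ∀ i : ℕ, (y ^ i) e = u ^ i • e := by
    intro i
    induction i with
    | zero => simp
    | succ i ih =>
      rw [pow_succ]
      change (y ^ i) (y e) = _
      rw [hu, map_zsmul, ih, smul_smul, pow_succ, mul_comm]
  have h1 : ∑ i ∈ range p, (y ^ i) e = 0 := by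
    have h2 : ∀ i ∈ range p, (y ^ i) e = p ^ (2 * (k + 1)) • (y ^ i) (y w - w) := by
      intro i _
      rw [he, map_nsmul]
    rw [Finset.sum_congr rfl h2, ← Finset.smul_sum, sum_pow_apply,
      show 2 * (k + 1) = (k + 2) + k by omega, pow_add, mul_nsmul', hy, smul_zero]
  have h2 : (∑ i ∈ range p, u ^ i) • e = 0 := by
    rw [Finset.sum_smul, ← h1]
    exact Finset.sum_congr rfl fun i _ => (hpow i).symm
  have h3 : ((∑ i ∈ range p, u ^ i) * (p : ℤ) ^ (2 * (k + 1))) • (y w - w) = 0 := by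
    rw [← smul_smul]
    have : (p : ℤ) ^ (2 * (k + 1)) • (y w - w) = e := by
      rw [he, ← natCast_zsmul]
      push_cast
      rfl
    rw [this, h2]
  have h4 := addOrderOf_dvd_iff_zsmul_eq_zero.2 h3
  rw [hn', show 2 * k + 3 + 1 = 2 + 2 * (k + 1) by omega] at h4
  push_cast at h4
  rw [pow_add] at h4
  have hpp : (p : ℤ) ≠ 0 := by exact_mod_cast hp.ne_zero
  exact no_sq hp hp2 u ((mul_dvd_mul_iff_right (pow_ne_zero _ hpp)).1 h4)

theorem base_two [Finite V] {N : ℕ} (hN : Nat.card V = 2 ^ N)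
    (hr : ∀ j, Nat.card {v : V // 2 ^ j • v = 0} ≤ 2 ^ (2 * j)) (z : AddMonoid.End V) (k : ℕ)
    (hz : ∀ v, 2 ^ k • ((z ^ 4) v - v) = 0) :
    (∀ v, (z ^ 2) v = v → 2 ^ (2 * k + 3) • v = 0) ∨
      (∀ v, 2 ^ (2 * k + 3) • ((z ^ 2) v - v) = 0) := by
  have hp : Nat.Prime 2 := Nat.prime_two
  by_contra hcon
  push Not at hcon
  obtain ⟨⟨c, hc1, hc2⟩, ⟨v, hv⟩⟩ := hcon
  obtain ⟨n, hn⟩ := exists_order hp hN hc2
  obtain ⟨n', hn'⟩ := exists_order hp hN hv
  set y := z ^ 2 with hyz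
  have hy : ∀ v, 2 ^ k • ((y ^ 2) v - v) = 0 := by
    intro v
    rw [hyz, ← pow_mul]
    exact hz v
  have hnc : y (n • c) = n • c := by rw [map_nsmul, hc1]
  have hnd : ∃ w, y w - w = n' • (y v - v) := ⟨n' • v, by rw [map_nsmul, ← smul_sub]⟩
  obtain ⟨u, hu⟩ := scalar hp hN hr y z (by rw [hyz, ← pow_succ, ← pow_succ']) (k + 1)
    (2 * k + 3 + 1) (by omega) (CD_small y k hy) hnc hnd hn hn'
  obtain ⟨w, hw⟩ := hnd
  rw [← hw] at hn' hu
  set e := 2 ^ (2 * (k + 1)) • (y w - w) with he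
  have hye : y e = (u ^ 2) • e := by
    rw [hyz, pow_two]
    change z (z e) = _
    rw [hu, map_zsmul, hu, smul_smul, pow_two]
  have h1 : y e + e = 0 := by
    have h2 := sum_pow_apply y 2 w
    rw [Finset.sum_range_succ, Finset.sum_range_one, pow_zero, pow_one] at h2
    have h3 : y e + e = 2 ^ (2 * (k + 1)) • (y (y w - w) + (y w - w)) := by
      rw [he, map_nsmul, smul_add]
    have h4 : y (y w - w) + (y w - w) = (y ^ 2) w - w := by
      rw [← h2, add_comm]
      rfl
    rw [h3, h4, show 2 * (k + 1) = (k + 2) + k by omega, pow_add, mul_nsmul', hy, smul_zero]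
  have h2 : (u ^ 2 + 1) • e = 0 := by
    rw [add_smul, ← hye, one_smul, h1]
  have h3 : ((u ^ 2 + 1) * (2 : ℤ) ^ (2 * (k + 1))) • (y w - w) = 0 := by
    rw [← smul_smul]
    have : (2 : ℤ) ^ (2 * (k + 1)) • (y w - w) = e := by
      rw [he, ← natCast_zsmul]
      push_cast
      rfl
    rw [this, h2]
  have h4 := addOrderOf_dvd_iff_zsmul_eq_zero.2 h3
  rw [hn', show 2 * k + 3 + 1 = 2 + 2 * (k + 1) by omega] at h4
  push_cast at h4
  rw [pow_add] at h4
  have h5 := (mul_dvd_mul_iff_right (pow_ne_zero _ (two_ne_zero))).1 h4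
  have h6 : (u ^ 2 + 1) % 4 = 0 := Int.emod_eq_zero_of_dvd (by simpa using h5)
  have h7 : u % 4 = 0 ∨ u % 4 = 1 ∨ u % 4 = 2 ∨ u % 4 = 3 := by omega
  rcases h7 with h | h | h | h <;>
    · rw [pow_two, Int.add_emod, Int.mul_emod, h] at h6
      norm_num at h6

/-- the exponents in the chain -/
def ea : ℕ → ℕ
  | 0 => 0
  | n + 1 => 2 * ea n + 3

theorem ea_mono (n : ℕ) : ea n ≤ ea (n + 1) := by
  change ea n ≤ 2 * ea n + 3
  omega

theorem smul_le {p : ℕ} {a b : ℕ} (hab : a ≤ b) {v : V} (h : p ^ a • v = 0) : p ^ b • v = 0 := by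
  rw [show b = (b - a) + a by omega, pow_add, mul_nsmul', h, smul_zero]

theorem pow_fix (x : AddMonoid.End V) {v : V} (h : x v = v) (n : ℕ) : (x ^ n) v = v := by
  induction n with
  | zero => simp
  | succ n ih =>
    rw [pow_succ]
    change (x ^ n) (x v) = v
    rw [h, ih]

theorem chain_odd [Finite V] {p : ℕ} (hp : p.Prime) (hp2 : p ≠ 2) {N : ℕ}
    (hN : Nat.card V = p ^ N)
    (hr : ∀ j, Nat.card {v : V // p ^ j • v = 0} ≤ p ^ (2 * j)) (x : AddMonoid.End V) (s : ℕ)
    (hx : x ^ p ^ s = 1) (i : ℕ) : i ≤ s →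
    (∀ v, x v = v → p ^ ea i • v = 0) ∨ (∀ v, p ^ ea i • ((x ^ p ^ (s - i)) v - v) = 0) := by
  induction i with
  | zero =>
    intro _
    right
    intro v
    rw [Nat.sub_zero, hx]
    simp
  | succ i ih =>
    intro hi
    rcases ih (by omega) with h | h
    · left
      intro v hv
      exact smul_le (ea_mono i) (h v hv)
    · rcases base_odd hp hp2 hN hr (x ^ p ^ (s - (i + 1))) (ea i) (by
        intro v
        rw [← pow_mul, ← pow_succ, show s - (i + 1) + 1 = s - i by omega]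
        exact h v) with h | h
      · left
        intro v hv
        exact h v (pow_fix x hv _)
      · right
        exact h

theorem chain_two [Finite V] {N : ℕ} (hN : Nat.card V = 2 ^ N)
    (hr : ∀ j, Nat.card {v : V // 2 ^ j • v = 0} ≤ 2 ^ (2 * j)) (x : AddMonoid.End V) (s : ℕ)
    (hx : x ^ 2 ^ (s + 1) = 1) (i : ℕ) : i ≤ s →
    (∀ v, x v = v → 2 ^ ea i • v = 0) ∨
      (∀ v, 2 ^ ea i • ((x ^ 2 ^ (s + 1 - i)) v - v) = 0) := by
  induction i with
  | zero =>
    intro _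
    right
    intro v
    rw [Nat.sub_zero, hx]
    simp
  | succ i ih =>
    intro hi
    rcases ih (by omega) with h | h
    · left
      intro v hv
      exact smul_le (ea_mono i) (h v hv)
    · have e1 : s + 1 - (i + 1) = (s - (i + 1)) + 1 := by omega
      rcases base_two hN hr (x ^ 2 ^ (s - (i + 1))) (ea i) (by
        intro v
        rw [← pow_mul, show 2 ^ (s - (i + 1)) * 4 = 2 ^ (s + 1 - i) by
          rw [show s + 1 - i = (s - (i + 1)) + 2 by omega, pow_add]; norm_num]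
        exact h v) with h | h
      · left
        intro v hv
        exact h v (pow_fix _ (pow_fix x hv _) _)
      · right
        intro v
        have := h v
        rw [← pow_mul, ← pow_succ] at this
        rw [e1]
        exact this

end Run7.h505.RT
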