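import Pool.Agent.Run7.h505.RT.N

/-!
Groups acting on finite abelian `p`-groups of rank at most two: some element has few fixed points
unless all of them together have many.
-/

set_option autoImplicit false

namespace Run7.h505.RT

open Finset

variable {V : Type} [AddCommGroup V] {G : Type} [Group G]

theorem fin_odd [Finite V] {p : ℕ} (hp : p.Prime) (hp2 : p ≠ 2) {N : ℕ}
    (hN : Nat.card V = p ^ N)
    (hr : ∀ j, Nat.card {v : V // p ^ j • v = 0} ≤ p ^ (2 * j)) (Φ : G →* AddMonoid.End V)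
    (s c : ℕ) (hs : ∀ x, Φ x ^ p ^ s = 1) (hfix : ∀ v, (∀ x, Φ x v = v) → p ^ c • v = 0) :
    ∃ x, ∀ v, Φ x v = v → p ^ (ea s + 6 + c) • v = 0 := by
  by_cases h : ∃ x, ∀ v, Φ x v = v → p ^ ea s • v = 0
  · obtain ⟨x, hx⟩ := h
    exact ⟨x, fun v hv => smul_le (by omega) (hx v hv)⟩
  · have h1 : ∀ x v, p ^ ea s • (Φ x v - v) = 0 := by
      intro x
      rcases chain_odd hp hp2 hN hr (Φ x) s (hs x) s le_rfl with h2 | h2
      · exact absurd ⟨x, h2⟩ h
      · intro v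
        have := h2 v
        rwa [Nat.sub_self, pow_zero, pow_one] at this
    refine ⟨1, fun v _ => ?_⟩
    have h2 : p ^ c • (p ^ ea s • v) = 0 := by
      apply hfix
      intro x
      have := h1 x v
      rw [smul_sub, ← map_nsmul] at this
      exact sub_eq_zero.1 this
    have h3 : p ^ (c + ea s) • v = 0 := by rw [pow_add, mul_nsmul', h2]
    exact smul_le (by omega) h3

theorem three [Finite V] {N : ℕ} (hN : Nat.card V = 2 ^ N)
    (hr : ∀ j, Nat.card {v : V // 2 ^ j • v = 0} ≤ 2 ^ (2 * j)) {w1 w2 w3 : V}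
    (h1 : 2 ^ 4 • w1 ≠ 0) (h2 : 2 ^ 4 • w2 ≠ 0) (h3 : 2 ^ 4 • w3 ≠ 0)
    (H : ∀ α β γ : ℤ, α • w1 + β • w2 + γ • w3 = 0 → 4 • (α • w1) = 0 ∧ 4 • (γ • w3) = 0) :
    False := by
  have hp : Nat.Prime 2 := Nat.prime_two
  obtain ⟨n1, hn1⟩ := exists_order hp hN h1
  obtain ⟨n2, hn2⟩ := exists_order hp hN h2
  obtain ⟨n3, hn3⟩ := exists_order hp hN h3
  have H1 : ∀ α β : ℤ, α • (n1 • w1) = β • (n2 • w2) → 2 ^ 2 • (α • (n1 • w1)) = 0 := by
    intro α β h
    have := (H (α * n1) (-(β * n2)) 0 (by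
      rw [zero_smul, add_zero, neg_smul, ← smul_smul, ← smul_smul, natCast_zsmul, natCast_zsmul, h]
      abel)).1
    rw [← smul_smul, natCast_zsmul] at this
    exact this
  obtain ⟨α, β, hαβ⟩ := two_gen (s := 2) hp hN hr hn1 hn2 H1 (n3 • w3) (by
    rw [← hn3]; exact addOrderOf_nsmul_eq_zero _)
  have h4 := (H (α * n1) (β * n2) (-(4 * n3)) (by
    rw [neg_smul, ← smul_smul, ← smul_smul, ← smul_smul, natCast_zsmul, natCast_zsmul,
      natCast_zsmul, ← hαβ]
    norm_num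
    have : (4 : ℤ) • n3 • w3 = (4 : ℕ) • n3 • w3 := by
      rw [← natCast_zsmul (n3 • w3) 4]; rfl
    rw [this]
    abel)).2
  have h5 : 16 • (n3 • w3) = 0 := by
    have e : (4 : ℕ) • ((-(4 * (n3 : ℤ))) • w3) = -((16 : ℕ) • (n3 • w3)) := by
      rw [← natCast_zsmul, ← natCast_zsmul, ← natCast_zsmul, smul_smul, smul_smul, ← neg_smul]
      congr 1
      push_cast
      ring
    rw [e, neg_eq_zero] at h4
    exact h4
  have h6 := addOrderOf_dvd_of_nsmul_eq_zero h5
  rw [hn3] at h6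
  norm_num at h6

theorem fin_two [Finite V] {N : ℕ} (hN : Nat.card V = 2 ^ N)
    (hr : ∀ j, Nat.card {v : V // 2 ^ j • v = 0} ≤ 2 ^ (2 * j)) (Φ : G →* AddMonoid.End V)
    (s c : ℕ) (hs : ∀ x, Φ x ^ 2 ^ (s + 1) = 1) (hfix : ∀ v, (∀ x, Φ x v = v) → 2 ^ c • v = 0) :
    ∃ x, ∀ v, Φ x v = v → 2 ^ (ea s + 6 + c) • v = 0 := by
  by_contra hcon
  push Not at hcon
  have h1 : ∀ x v, 2 ^ ea s • ((Φ x ^ 2) v - v) = 0 := by
    intro x
    rcases chain_two hN hr (Φ x) s (hs x) s le_rfl with h2 | h2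
    · exfalso
      obtain ⟨v, hv, hv0⟩ := hcon x
      exact hv0 (smul_le (by omega) (h2 v hv))
    · intro v
      have := h2 v
      rwa [show s + 1 - s = 1 by omega, pow_one] at this
  set W : Set V := {w | ∃ v, w = 2 ^ ea s • v} with hW
  have hsq : ∀ (x : G) (w : V), w ∈ W → Φ x (Φ x w) = w := by
    rintro x w ⟨v, rfl⟩
    have := h1 x v
    rw [smul_sub, ← map_nsmul, pow_two] at this
    exact sub_eq_zero.1 this
  have hmem : ∀ (x : G) (w : V), w ∈ W → Φ x w ∈ W := by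
    rintro x w ⟨v, rfl⟩
    exact ⟨Φ x v, by rw [map_nsmul]⟩
  have hadd : ∀ w w' : V, w ∈ W → w' ∈ W → w + w' ∈ W := by
    rintro _ _ ⟨v, rfl⟩ ⟨v', rfl⟩
    exact ⟨v + v', by rw [smul_add]⟩
  have hsub : ∀ w w' : V, w ∈ W → w' ∈ W → w - w' ∈ W := by
    rintro _ _ ⟨v, rfl⟩ ⟨v', rfl⟩
    exact ⟨v - v', by rw [smul_sub]⟩
  have hmul : ∀ (x y : G) (w : V), Φ (x * y) w = Φ x (Φ y w) := by
    intro x y w
    rw [map_mul]
    rfl
  have hcomm : ∀ (x y : G) (w : V), w ∈ W → Φ x (Φ y w) = Φ y (Φ x w) := by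
    intro x y w hw
    have e1 := hsq (x * y) w hw
    rw [hmul, hmul] at e1
    have m1 := hmem y _ (hmem x _ (hmem y w hw))
    have e2 : Φ y (Φ x (Φ y w)) = Φ x w := by
      rw [← hsq x _ m1, e1]
    have e3 := hsq y _ (hmem x _ (hmem y w hw))
    rw [← e3, e2]
  -- elements of `W` fixed by `x`
  have hc : ∀ x, ∃ w ∈ W, Φ x w = w ∧ 2 ^ (6 + c) • w ≠ 0 := by
    intro x
    obtain ⟨v, hv, hv0⟩ := hcon x
    refine ⟨2 ^ ea s • v, ⟨v, rfl⟩, by rw [map_nsmul, hv], ?_⟩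
    intro h
    apply hv0
    rw [show ea s + 6 + c = (6 + c) + ea s by omega, pow_add, mul_nsmul', h]
  have hfixW : ∀ w ∈ W, (∀ x, 2 ^ 4 • (Φ x w - w) = 0) → 2 ^ (6 + c) • w = 0 := by
    intro w _ h
    have h2 : 2 ^ c • (2 ^ 4 • w) = 0 := by
      apply hfix
      intro x
      have := h x
      rw [smul_sub, ← map_nsmul] at this
      exact sub_eq_zero.1 this
    have h3 : 2 ^ (c + 4) • w = 0 := by rw [pow_add, mul_nsmul', h2]
    exact smul_le (by omega) h3
  -- step 1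
  obtain ⟨x, d, hdW, hxd, hd0⟩ : ∃ x d, d ∈ W ∧ Φ x d = -d ∧ 2 ^ 4 • d ≠ 0 := by
    by_contra hno
    push Not at hno
    obtain ⟨w, hw, -, hw0⟩ := hc 1
    apply hw0
    apply hfixW w hw
    intro x
    apply hno x _ (hsub _ _ (hmem x w hw) hw)
    rw [map_sub, hsq x w hw]
    abel
  -- step 2
  obtain ⟨y, e, heW, hxe, he0⟩ : ∃ y e, e ∈ W ∧ Φ x e = e ∧ 2 ^ 4 • (e - Φ y e) ≠ 0 := by
    by_contra hno
    push Not at hno
    obtain ⟨w, hw, hxw, hw0⟩ := hc x
    apply hw0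
    apply hfixW w hw
    intro y
    have := hno y w hw hxw
    rw [← neg_sub, smul_neg, this, neg_zero]
  have hA : ∀ f ∈ W, Φ x f = f → 2 ^ 4 • (f + Φ y f) = 0 := by
    intro f hf hxf
    by_contra hf0
    apply three hN hr hd0 hf0 he0
    intro α β γ h
    have e1 : Φ x (f + Φ y f) = f + Φ y f := by
      rw [map_add, hcomm x y f hf, hxf]
    have e2 : Φ x (e - Φ y e) = e - Φ y e := by
      rw [map_sub, hcomm x y e heW, hxe]
    have e3 : Φ y (f + Φ y f) = f + Φ y f := by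
      rw [map_add, hsq y f hf, add_comm]
    have e4 : Φ y (e - Φ y e) = -(e - Φ y e) := by
      rw [map_sub, hsq y e heW]; abel
    have h2 := congrArg (Φ x) h
    rw [map_add, map_add, map_zsmul, map_zsmul, map_zsmul, hxd, e1, e2, map_zero, smul_neg] at h2
    have h3 : (2 : ℕ) • (α • d) = 0 := by
      have : (2 : ℕ) • (α • d) = (α • d + β • (f + Φ y f) + γ • (e - Φ y e)) -
        (-(α • d) + β • (f + Φ y f) + γ • (e - Φ y e)) := by
          rw [two_nsmul]; abel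
      rw [this, h, h2, sub_zero]
    have h4 : (2 : ℕ) • (β • (f + Φ y f) + γ • (e - Φ y e)) = 0 := by
      have : (2 : ℕ) • (β • (f + Φ y f) + γ • (e - Φ y e)) =
        (α • d + β • (f + Φ y f) + γ • (e - Φ y e)) +
        (-(α • d) + β • (f + Φ y f) + γ • (e - Φ y e)) := by
          rw [two_nsmul]; abel
      rw [this, h, h2, add_zero]
    have h5 := congrArg (Φ y) h4
    rw [map_nsmul, map_add, map_zsmul, map_zsmul, e3, e4, map_zero, smul_neg] at h5
    constructor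
    · rw [show (4 : ℕ) = 2 * 2 by norm_num, mul_nsmul', h3, smul_zero]
    · have : (4 : ℕ) • (γ • (e - Φ y e)) =
        (2 : ℕ) • (β • (f + Φ y f) + γ • (e - Φ y e)) -
        (2 : ℕ) • (β • (f + Φ y f) + -(γ • (e - Φ y e))) := by
          rw [← smul_sub, show (4 : ℕ) = 2 * 2 by norm_num, mul_nsmul']
          congr 1
          rw [two_nsmul]; abel
      rw [this, h4, h5, sub_zero]
  obtain ⟨g, hgW, hxg, hg0⟩ := hc x
  have hg0' : 2 ^ 4 • g ≠ 0 := fun h => hg0 (smul_le (by omega) h)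
  by_cases hB : ∀ f ∈ W, Φ x f = -f → 2 ^ 4 • (f + Φ y f) = 0
  · -- case (i)
    obtain ⟨w, hw, hyw, hw0⟩ := hc y
    apply hw0
    have m1 : w + Φ x w ∈ W := hadd _ _ hw (hmem x w hw)
    have m2 : w - Φ x w ∈ W := hsub _ _ hw (hmem x w hw)
    have f1 := hA (w + Φ x w) m1 (by rw [map_add, hsq x w hw, add_comm])
    have f2 := hB (w - Φ x w) m2 (by rw [map_sub, hsq x w hw]; abel)
    have g1 : Φ y (w + Φ x w) = w + Φ x w := by rw [map_add, hcomm y x w hw, hyw]
    have g2 : Φ y (w - Φ x w) = w - Φ x w := by rw [map_sub, hcomm y x w hw, hyw]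
    rw [g1] at f1
    rw [g2] at f2
    have h6 : 2 ^ 6 • w = 0 := by
      have : 2 ^ 6 • w = 2 ^ 4 • (w + Φ x w + (w + Φ x w)) + 2 ^ 4 • (w - Φ x w + (w - Φ x w)) := by
        rw [← smul_add, show (2 : ℕ) ^ 6 = 2 ^ 4 * 4 by norm_num, mul_nsmul']
        congr 1
        rw [show (4 : ℕ) = 1 + 1 + 1 + 1 by norm_num, add_nsmul, add_nsmul, add_nsmul, one_nsmul]
        abel
      rw [this, f1, f2, add_zero]
    exact smul_le (by omega) h6
  · -- case (ii)
    push Not at hB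
    obtain ⟨f, hf, hxf, hf0⟩ := hB
    have hB' : ∀ e ∈ W, Φ x e = -e → 2 ^ 4 • (e - Φ y e) = 0 := by
      intro e heW hxe
      by_contra he0
      apply three hN hr hg0' hf0 he0
      intro α β γ h
      have e1 : Φ x (f + Φ y f) = -(f + Φ y f) := by
        rw [map_add, hcomm x y f hf, hxf, map_neg]; abel
      have e2 : Φ x (e - Φ y e) = -(e - Φ y e) := by
        rw [map_sub, hcomm x y e heW, hxe, map_neg]; abel
      have e3 : Φ y (f + Φ y f) = f + Φ y f := by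
        rw [map_add, hsq y f hf, add_comm]
      have e4 : Φ y (e - Φ y e) = -(e - Φ y e) := by
        rw [map_sub, hsq y e heW]; abel
      have h2 := congrArg (Φ x) h
      rw [map_add, map_add, map_zsmul, map_zsmul, map_zsmul, hxg, e1, e2, map_zero, smul_neg,
        smul_neg] at h2
      have h3 : (2 : ℕ) • (α • g) = 0 := by
        have : (2 : ℕ) • (α • g) = (α • g + β • (f + Φ y f) + γ • (e - Φ y e)) +
          (α • g + -(β • (f + Φ y f)) + -(γ • (e - Φ y e))) := by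
            rw [two_nsmul]; abel
        rw [this, h, h2, add_zero]
      have h4 : (2 : ℕ) • (β • (f + Φ y f) + γ • (e - Φ y e)) = 0 := by
        have : (2 : ℕ) • (β • (f + Φ y f) + γ • (e - Φ y e)) =
          (α • g + β • (f + Φ y f) + γ • (e - Φ y e)) -
          (α • g + -(β • (f + Φ y f)) + -(γ • (e - Φ y e))) := by
            rw [two_nsmul]; abel
        rw [this, h, h2, sub_zero]
      have h5 := congrArg (Φ y) h4
      rw [map_nsmul, map_add, map_zsmul, map_zsmul, e3, e4, map_zero, smul_neg] at h5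
      constructor
      · rw [show (4 : ℕ) = 2 * 2 by norm_num, mul_nsmul', h3, smul_zero]
      · have : (4 : ℕ) • (γ • (e - Φ y e)) =
          (2 : ℕ) • (β • (f + Φ y f) + γ • (e - Φ y e)) -
          (2 : ℕ) • (β • (f + Φ y f) + -(γ • (e - Φ y e))) := by
            rw [← smul_sub, show (4 : ℕ) = 2 * 2 by norm_num, mul_nsmul']
            congr 1
            rw [two_nsmul]; abel
        rw [this, h4, h5, sub_zero]
    obtain ⟨w, hw, hzw, hw0⟩ := hc (x * y)
    rw [hmul] at hzw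
    apply hw0
    have m1 : w + Φ x w ∈ W := hadd _ _ hw (hmem x w hw)
    have m2 : w - Φ x w ∈ W := hsub _ _ hw (hmem x w hw)
    have hyw : Φ y w = Φ x w := by
      rw [← hsq x _ (hmem y w hw), hzw]
    have hyxw : Φ y (Φ x w) = w := by
      rw [← hcomm x y w hw, hzw]
    have f1 := hA (w + Φ x w) m1 (by rw [map_add, hsq x w hw, add_comm])
    have f2 := hB' (w - Φ x w) m2 (by rw [map_sub, hsq x w hw]; abel)
    have g1 : Φ y (w + Φ x w) = w + Φ x w := by rw [map_add, hyw, hyxw, add_comm]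
    have g2 : Φ y (w - Φ x w) = -(w - Φ x w) := by rw [map_sub, hyw, hyxw]; abel
    rw [g1] at f1
    rw [g2] at f2
    have h6 : 2 ^ 6 • w = 0 := by
      have : 2 ^ 6 • w = 2 ^ 4 • (w + Φ x w + (w + Φ x w)) +
          2 ^ 4 • (w - Φ x w - -(w - Φ x w)) := by
        rw [← smul_add, show (2 : ℕ) ^ 6 = 2 ^ 4 * 4 by norm_num, mul_nsmul']
        congr 1
        rw [show (4 : ℕ) = 1 + 1 + 1 + 1 by norm_num, add_nsmul, add_nsmul, add_nsmul, one_nsmul]
        abel
      rw [this, f1, f2, add_zero]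
    exact smul_le (by omega) h6

end Run7.h505.RT
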