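import Pool.Agent.Run7.h505.RT.O
import Pool.Agent.Run7.h505.RT.M

/-!
Finite `p`-groups with a normal abelian subgroup generated by two elements and of bounded index.
-/

set_option autoImplicit false

namespace Run7.h505.RT

open Finset

section

variable {G : Type} [Group G] [Finite G]

/-- a finite abelian group generated by two elements has at most `n ^ 2` elements killed by `n` -/
theorem card_torsion {V : Type} [AddCommGroup V] [Finite V] {a b : V}
    (hab : ∀ v : V, ∃ i j : ℕ, v = i • a + j • b) {n : ℕ} (hn : 0 < n) :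
    Nat.card {v : V // n • v = 0} ≤ n ^ 2 := by
  set f := nsmulAddMonoidHom (α := V) n with hf
  have h1 : Nat.card {v : V // n • v = 0} = Nat.card f.ker := by
    apply Nat.card_congr
    apply Equiv.subtypeEquivRight
    intro v
    rw [AddMonoidHom.mem_ker]
    rfl
  have h2 : Nat.card f.ker * Nat.card f.range = Nat.card V := by
    rw [← AddSubgroup.index_ker, AddSubgroup.card_mul_index]
  have h3 : Nat.card f.range * f.range.index = Nat.card V := AddSubgroup.card_mul_index _
  have h4 : Nat.card f.ker = f.range.index := by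
    have h5 : 0 < Nat.card f.range := Nat.card_pos
    have h6 : Nat.card f.range * Nat.card f.ker = Nat.card f.range * f.range.index := by
      rw [h3, mul_comm, h2]
    exact Nat.eq_of_mul_eq_mul_left h5 h6
  rw [h1, h4]
  let φ : Fin n × Fin n → V ⧸ f.range := fun z => ((z.1 : ℕ) • a + (z.2 : ℕ) • b : V)
  have hφ : Function.Surjective φ := by
    intro w
    obtain ⟨v, rfl⟩ := QuotientAddGroup.mk_surjective w
    obtain ⟨i, j, rfl⟩ := hab v
    refine ⟨(⟨i % n, Nat.mod_lt _ hn⟩, ⟨j % n, Nat.mod_lt _ hn⟩), ?_⟩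
    apply QuotientAddGroup.eq.2
    refine ⟨(i / n) • a + (j / n) • b, ?_⟩
    change n • ((i / n) • a + (j / n) • b) = -((i % n) • a + (j % n) • b) + (i • a + j • b)
    have e1 : i • a = (i % n) • a + n • ((i / n) • a) := by
      rw [← mul_nsmul', ← add_nsmul, Nat.mod_add_div]
    have e2 : j • b = (j % n) • b + n • ((j / n) • b) := by
      rw [← mul_nsmul', ← add_nsmul, Nat.mod_add_div]
    rw [e1, e2, smul_add]
    abel
  calc f.range.index = Nat.card (V ⧸ f.range) := rfl
    _ ≤ Nat.card (Fin n × Fin n) := Nat.card_le_card_of_surjective φ hφ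
    _ = n ^ 2 := by rw [Nat.card_prod, Nat.card_fin, pow_two]

omit [Finite G] in
/-- the commutative group structure on a commutative subgroup -/
@[reducible] def cgA (A : Subgroup G) (hA : ∀ a ∈ A, ∀ b ∈ A, a * b = b * a) : CommGroup A :=
  { (inferInstance : Group A) with
    mul_comm := fun a b => Subtype.ext (hA a.1 a.2 b.1 b.2) }

/-- Let `A` be a normal abelian subgroup of the finite `p`-group `G`, generated by two elements and
of index at most `m`.  If the abelianization of `G` has at most `M` elements, then some element of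
`G` commutes with few elements of `A` only. -/
theorem exists_few (p : ℕ) [hp : Fact p.Prime] (m M : ℕ) (hG : IsPGroup p G) (A : Subgroup G)
    [A.Normal] (hA : ∀ a ∈ A, ∀ b ∈ A, a * b = b * a) {g h : G} (hg : g ∈ A) (hh : h ∈ A)
    (hgen : ∀ a ∈ A, ∃ i j : ℕ, a = g ^ i * h ^ j) (hm : A.index ≤ m)
    (hM : Nat.card (Abelianization G) ≤ M) :
    ∃ x : G, Nat.card {a : A // x * a.1 = a.1 * x} ≤ p ^ (2 * (ea m + 6 + (m + M))) := by
  let _ := cgA A hA
  let Φ : G →* AddMonoid.End (Additive A) :=
    { toFun := fun x => MonoidHom.toAdditive (MulAut.conjNormal x : A ≃* A).toMonoidHom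
      map_one' := by
        apply AddMonoidHom.ext
        intro a
        apply Additive.toMul.injective
        apply Subtype.ext
        change (1 : G) * a.toMul.1 * (1 : G)⁻¹ = a.toMul.1
        rw [one_mul, inv_one, mul_one]
      map_mul' := by
        intro x y
        apply AddMonoidHom.ext
        intro a
        apply Additive.toMul.injective
        apply Subtype.ext
        change (x * y) * a.toMul.1 * (x * y)⁻¹ = x * (y * a.toMul.1 * y⁻¹) * x⁻¹
        group }
  have hΦ : ∀ (x : G) (a : Additive A), ((Φ x a).toMul : G) = x * a.toMul * x⁻¹ := by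
    intro x a
    rfl
  obtain ⟨N, hN⟩ := (IsPGroup.iff_card.1 (hG.to_subgroup A))
  have hN' : Nat.card (Additive A) = p ^ N := hN
  have hr : ∀ n, 0 < n → Nat.card {v : Additive A // n • v = 0} ≤ n ^ 2 := by
    intro n hn
    apply card_torsion (a := Additive.ofMul (⟨g, hg⟩ : A)) (b := Additive.ofMul (⟨h, hh⟩ : A)) _ hn
    intro v
    obtain ⟨i, j, hij⟩ := hgen v.toMul.1 v.toMul.2
    refine ⟨i, j, ?_⟩
    apply Additive.toMul.injective
    apply Subtype.ext
    exact hij
  have hr' : ∀ j, Nat.card {v : Additive A // p ^ j • v = 0} ≤ p ^ (2 * j) := by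
    intro j
    refine (hr _ (pow_pos hp.out.pos j)).trans (le_of_eq ?_)
    rw [← pow_mul, mul_comm]
  have hV0 : ∀ (x : G) (v : Additive A), Φ x v = v ↔ x * v.toMul.1 = v.toMul.1 * x := by
    intro x v
    rw [← Additive.toMul.injective.eq_iff, ← Subtype.coe_injective.eq_iff, hΦ,
      mul_inv_eq_iff_eq_mul]
  -- the index
  obtain ⟨k, hk⟩ := hG.index A
  have hkm : k ≤ m := by
    have : k < p ^ k := Nat.lt_pow_self hp.out.one_lt
    omega
  have hpow : ∀ x : G, Φ x ^ p ^ m = 1 := by
    intro x
    rw [← map_pow]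
    have hx : x ^ p ^ m ∈ A := by
      rw [show p ^ m = p ^ k * p ^ (m - k) by rw [← pow_add]; congr 1; omega, pow_mul]
      apply Subgroup.pow_mem
      rw [← hk]
      exact A.pow_index_mem x
    apply AddMonoidHom.ext
    intro v
    change Φ (x ^ p ^ m) v = v
    rw [hV0]
    exact hA _ hx _ v.toMul.2
  have hpow' : ∀ x : G, Φ x ^ p ^ (m + 1) = 1 := by
    intro x
    rw [pow_succ, pow_mul, hpow, one_pow]
  -- common fixed points
  have hfix : ∀ v, (∀ x, Φ x v = v) → p ^ (m + M) • v = 0 := by
    intro v hv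
    set f := MonoidHom.transfer (MonoidHom.id A) with hf
    set a : G := v.toMul.1 with ha
    have hcen : ∀ x : G, x * a = a * x := fun x => (hV0 x v).1 (hv x)
    have key : ∀ (k : ℕ) (g₀ : G), g₀⁻¹ * a ^ k * g₀ ∈ A → g₀⁻¹ * a ^ k * g₀ = a ^ k := by
      intro k g₀ _
      have h1 : Commute g₀ (a ^ k) := (show Commute g₀ a from hcen g₀).pow_right k
      rw [mul_assoc, ← h1.eq, inv_mul_cancel_left]
    have h1 : f a = ⟨a ^ A.index, MonoidHom.transfer_eq_pow_aux a key⟩ :=
      MonoidHom.transfer_eq_pow (MonoidHom.id A) a key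
    obtain ⟨l, hl⟩ := hG.index (commutator G)
    have hlM : l ≤ M := by
      have h2 : l < p ^ l := Nat.lt_pow_self hp.out.one_lt
      have h3 : (commutator G).index ≤ M := hM
      omega
    have h2 : f (a ^ (commutator G).index) = 1 := by
      have := Abelianization.commutator_subset_ker f ((commutator G).pow_index_mem a)
      exact MonoidHom.mem_ker.1 this
    rw [map_pow, h1] at h2
    have h3 := congrArg Subtype.val h2
    have h4 : a ^ p ^ (k + l) = 1 := by
      rw [pow_add, pow_mul, ← hk, ← hl]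
      exact h3
    have h5 : a ^ p ^ (m + M) = 1 := by
      rw [show p ^ (m + M) = p ^ (k + l) * p ^ (m + M - (k + l)) by
        rw [← pow_add]; congr 1; omega, pow_mul, h4, one_pow]
    apply Additive.toMul.injective
    apply Subtype.ext
    exact h5
  obtain ⟨x, hx⟩ : ∃ x, ∀ v, Φ x v = v → p ^ (ea m + 6 + (m + M)) • v = 0 := by
    by_cases hp2 : p = 2
    · subst hp2
      exact fin_two hN' hr' Φ m (m + M) hpow' hfix
    · exact fin_odd hp.out hp2 hN' hr' Φ m (m + M) hpow hfix
  refine ⟨x, ?_⟩
  refine le_trans ?_ (hr' (ea m + 6 + (m + M)))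
  let ι : {a : A // x * a.1 = a.1 * x} →
      {v : Additive A // p ^ (ea m + 6 + (m + M)) • v = 0} :=
    fun a => ⟨Additive.ofMul a.1, hx _ ((hV0 x _).2 a.2)⟩
  apply Nat.card_le_card_of_injective ι
  intro a b hab
  have := congrArg Subtype.val hab
  exact Subtype.ext (Additive.ofMul.injective this)

/-- the element needed for good left ideals -/
theorem exists_t (p : ℕ) [hp : Fact p.Prime] (m M : ℕ) (hG : IsPGroup p G) (A : Subgroup G)
    [A.Normal] (hA : ∀ a ∈ A, ∀ b ∈ A, a * b = b * a) {g h : G} (hAgh : A = Subgroup.closure {g, h})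
    (hm : A.index ≤ m)
    (hM : Nat.card (Abelianization G) ≤ M) :
    ∃ t : G, orderOf t ≤ m * p ^ (2 * (ea m + 6 + (m + M))) ∧
      (Subgroup.closure (Set.range fun i : Fin 3 => ![1, g, h] i * t * (![1, g, h] i)⁻¹)).index ≤
        m * p ^ (2 * (ea m + 6 + (m + M))) := by
  have hg : g ∈ A := by rw [hAgh]; exact Subgroup.subset_closure (by simp)
  have hh : h ∈ A := by rw [hAgh]; exact Subgroup.subset_closure (by simp)
  have hgh : Commute g h := hA g hg h hh
  obtain ⟨x, hx⟩ := exists_few p m M hG A hA hg hh (fun a ha => by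
    rw [hAgh] at ha
    exact mem_closure_pair hgh ha) hm hM
  set B := p ^ (2 * (ea m + 6 + (m + M))) with hB
  set C : Subgroup G := A ⊓ Subgroup.centralizer {x} with hC
  have hCcard : Nat.card C ≤ B := by
    refine le_trans (le_of_eq ?_) hx
    apply Nat.card_congr
    refine ⟨fun a => ⟨⟨a.1, a.2.1⟩, (Subgroup.mem_centralizer_singleton_iff (g := x).1 a.2.2).symm⟩,
      fun a => ⟨a.1.1, a.1.2, Subgroup.mem_centralizer_singleton_iff.2 a.2.symm⟩, fun a => rfl,
      fun a => rfl⟩
  have hapos : 0 < A.index := Nat.pos_of_ne_zero Subgroup.index_ne_zero_of_finite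
  refine ⟨x, ?_, ?_⟩
  · have h1 : x ^ A.index ∈ C :=
      ⟨A.pow_index_mem x, Subgroup.mem_centralizer_singleton_iff.2 (by rw [← pow_succ, pow_succ'])⟩
    have h2 : (x ^ A.index) ^ Nat.card C = 1 := by
      have := pow_card_eq_one' (x := (⟨x ^ A.index, h1⟩ : C))
      exact congrArg Subtype.val this
    rw [← pow_mul] at h2
    exact (Nat.le_of_dvd (Nat.mul_pos hapos Nat.card_pos) (orderOf_dvd_of_pow_eq_one h2)).trans
      (Nat.mul_le_mul hm hCcard)
  · set H := Subgroup.closure
      (Set.range fun i : Fin 3 => ![1, g, h] i * x * (![1, g, h] i)⁻¹) with hH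
    have hxH : x ∈ H := by
      apply Subgroup.subset_closure
      exact ⟨0, by simp⟩
    have hgH : g * x * g⁻¹ ∈ H := Subgroup.subset_closure ⟨1, by simp⟩
    have hhH : h * x * h⁻¹ ∈ H := Subgroup.subset_closure ⟨2, by simp⟩
    let κ : A →* G :=
      { toFun := fun a => a.1 * x * a.1⁻¹ * x⁻¹
        map_one' := by simp
        map_mul' := by
          intro a b
          have h1 : x * b.1⁻¹ * x⁻¹ ∈ A :=
            (inferInstance : A.Normal).conj_mem _ (A.inv_mem b.2) x
          have h2 : x * a.1⁻¹ * x⁻¹ ∈ A :=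
            (inferInstance : A.Normal).conj_mem _ (A.inv_mem a.2) x
          have h3 := hA _ h1 _ h2
          have h4 : b.1 * (x * a.1⁻¹ * x⁻¹) = (x * a.1⁻¹ * x⁻¹) * b.1 := hA _ b.2 _ h2
          change (a.1 * b.1) * x * (a.1 * b.1)⁻¹ * x⁻¹ =
            a.1 * x * a.1⁻¹ * x⁻¹ * (b.1 * x * b.1⁻¹ * x⁻¹)
          calc (a.1 * b.1) * x * (a.1 * b.1)⁻¹ * x⁻¹ =
              a.1 * (b.1 * ((x * b.1⁻¹ * x⁻¹) * (x * a.1⁻¹ * x⁻¹))) := by group
            _ = a.1 * ((b.1 * (x * a.1⁻¹ * x⁻¹)) * (x * b.1⁻¹ * x⁻¹)) := by rw [h3]; group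
            _ = a.1 * (((x * a.1⁻¹ * x⁻¹) * b.1) * (x * b.1⁻¹ * x⁻¹)) := by rw [h4]
            _ = _ := by group }
    have hκ : ∀ a : A, κ a = a.1 * x * a.1⁻¹ * x⁻¹ := fun a => rfl
    have hrange : κ.range ≤ H := by
      have h1 : ∀ a : A, a ∈ Subgroup.closure {(⟨g, hg⟩ : A), ⟨h, hh⟩} := by
        intro a
        obtain ⟨i, j, hij⟩ := mem_closure_pair hgh (by rw [← hAgh]; exact a.2)
        have : a = (⟨g, hg⟩ : A) ^ i * (⟨h, hh⟩ : A) ^ j := Subtype.ext hij
        rw [this]
        exact Subgroup.mul_mem _ (Subgroup.pow_mem _ (Subgroup.subset_closure (by simp)) _)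
          (Subgroup.pow_mem _ (Subgroup.subset_closure (by simp)) _)
      rintro _ ⟨a, rfl⟩
      have h2 := h1 a
      have h3 : Subgroup.closure {(⟨g, hg⟩ : A), ⟨h, hh⟩} ≤ H.comap κ := by
        rw [Subgroup.closure_le]
        rintro b (rfl | rfl)
        · rw [SetLike.mem_coe, Subgroup.mem_comap, hκ]
          exact H.mul_mem hgH (H.inv_mem hxH)
        · rw [SetLike.mem_coe, Subgroup.mem_comap, hκ]
          exact H.mul_mem hhH (H.inv_mem hxH)
      exact h3 h2
    have hker : Nat.card κ.ker ≤ B := by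
      refine le_trans (le_of_eq ?_) hx
      apply Nat.card_congr
      apply Equiv.subtypeEquivRight
      intro a
      rw [MonoidHom.mem_ker, hκ, mul_inv_eq_one, mul_inv_eq_iff_eq_mul]
      exact eq_comm
    have e1 : Nat.card κ.ker * Nat.card κ.range = Nat.card A := by
      rw [← Subgroup.index_ker, Subgroup.card_mul_index]
    have e2 : Nat.card κ.range ≤ Nat.card H := Nat.card_le_card_of_injective _
      (Subgroup.inclusion_injective hrange)
    have e3 : Nat.card H * H.index = Nat.card G := H.card_mul_index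
    have e4 : Nat.card A * A.index = Nat.card G := A.card_mul_index
    have hHpos : 0 < Nat.card H := Nat.card_pos
    apply Nat.le_of_mul_le_mul_left _ hHpos
    calc Nat.card H * H.index = Nat.card A * A.index := by rw [e3, e4]
      _ = (Nat.card κ.ker * Nat.card κ.range) * A.index := by rw [e1]
      _ ≤ (B * Nat.card H) * m := Nat.mul_le_mul (Nat.mul_le_mul hker e2) hm
      _ = Nat.card H * (m * B) := by ring

end

end Run7.h505.RT
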