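import Pool.Agent.Run7.h505.RT.Q

/-!
Left ideals in group algebras of `p`-groups with a large cyclic quotient.
-/

set_option autoImplicit false

namespace Run7.h505.RT

open Module Finset

section fixed

variable {F : Type} [Field F] [Finite F] (p : ℕ) [hp : Fact p.Prime] [CharP F p]

include hp in
theorem exists_fixed {G M : Type*} [Group G] [Finite G] (hG : IsPGroup p G) [AddCommGroup M]
    [Module F M] [Finite M] [Nontrivial M] (ρ : Representation F G M) :
    ∃ v : M, v ≠ 0 ∧ ∀ g, ρ g v = v := by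
  let _ : MulAction G M :=
    { smul := fun g v => ρ g v
      one_smul := fun v => by
        change ρ 1 v = v
        rw [map_one]; rfl
      mul_smul := fun g h v => by
        change ρ (g * h) v = ρ g (ρ h v)
        rw [map_mul]; rfl }
  have h2 : p ∣ Nat.card M := by
    obtain ⟨v, hv⟩ := exists_ne (0 : M)
    have h3 : p • v = 0 := by
      rw [← Nat.cast_smul_eq_nsmul F p v, CharP.cast_eq_zero, zero_smul]
    have h4 : addOrderOf v = p := addOrderOf_eq_prime h3 hv
    rw [← h4]
    exact addOrderOf_dvd_natCard v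
  have h0 : (0 : M) ∈ MulAction.fixedPoints G M := fun g => map_zero (ρ g)
  obtain ⟨v, hv, hv0⟩ := hG.exists_fixed_point_of_prime_dvd_card_of_fixed_point M h2 h0
  exact ⟨v, hv0.symm, fun g => hv g⟩

include hp in
/-- The dimension of a module of a `p`-group is at most the order of the group times the dimension
of the space of fixed vectors. -/
theorem finrank_le_fixed {G M : Type*} [Group G] [Finite G] (hG : IsPGroup p G) [AddCommGroup M]
    [Module F M] [Finite M] (ρ : Representation F G M) :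
    finrank F M ≤ Nat.card G * finrank F ρ.invariants := by
  classical
  obtain ⟨μ, hμ⟩ := LinearMap.exists_leftInverse_of_injective ρ.invariants.subtype
    (by rw [Submodule.ker_subtype])
  have hμ' : ∀ v : ρ.invariants, μ v.1 = v := fun v => LinearMap.congr_fun hμ v
  let Ψ : M →ₗ[F] (G → ρ.invariants) := LinearMap.pi fun g => μ.comp (ρ g)
  have hker : LinearMap.ker Ψ = ⊥ := by
    by_contra hne
    have hinv : ∀ g, LinearMap.ker Ψ ≤ (LinearMap.ker Ψ).comap (ρ g) := by
      intro g s hs
      rw [Submodule.mem_comap, LinearMap.mem_ker]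
      funext h
      have h1 : Ψ s (h * g) = 0 := by rw [LinearMap.mem_ker.1 hs]; rfl
      change μ (ρ (h * g) s) = 0 at h1
      change μ (ρ h (ρ g s)) = 0
      rw [map_mul] at h1
      exact h1
    have : Nontrivial (LinearMap.ker Ψ) := (Submodule.nontrivial_iff_ne_bot).2 hne
    obtain ⟨v, hv0, hv⟩ := exists_fixed p hG (ρ.subrepresentation (LinearMap.ker Ψ) hinv)
    have hvi : v.1 ∈ ρ.invariants := fun g => congrArg Subtype.val (hv g)
    have h1 : Ψ v.1 1 = 0 := by rw [LinearMap.mem_ker.1 v.2]; rfl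
    change μ (ρ 1 v.1) = 0 at h1
    rw [map_one] at h1
    have h2 := hμ' ⟨v.1, hvi⟩
    change μ v.1 = _ at h2
    rw [Module.End.one_apply, h2] at h1
    have h3 : v.1 = 0 := congrArg Subtype.val h1
    exact hv0 (Subtype.ext h3)
  have hinj : Function.Injective Ψ := LinearMap.ker_eq_bot.1 hker
  have := Fintype.ofFinite G
  have h1 := LinearMap.finrank_le_finrank_of_injective hinj
  rw [Module.finrank_pi_fintype, Finset.sum_const, Finset.card_univ, smul_eq_mul,
    ← Nat.card_eq_fintype_card] at h1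
  exact h1

end fixed

variable {F : Type} [Field F] [Finite F] (p : ℕ) [hp : Fact p.Prime] [CharP F p]
  {G : Type} [Group G] [Finite G]

include hp in
/-- words of a left ideal constant on the cosets of a normal subgroup -/
theorem finrank_const (N : Subgroup G) [N.Normal] (hN : IsPGroup p N) (C : Submodule F (G → F))
    (hC : ∀ c ∈ C, ∀ z : G, (fun x => c (z * x)) ∈ C) :
    finrank F C ≤ Nat.card N * finrank F ↥(C ⊓ Fix F N) := by
  let ρ : Representation F N C :=
    { toFun := fun n =>
        (LinearMap.funLeft F F fun x : G => n.1⁻¹ * x).restrict (fun c hc => hC c hc n.1⁻¹)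
      map_one' := by
        apply LinearMap.ext
        intro c
        apply Subtype.ext
        funext q
        change c.1 ((1 : G)⁻¹ * q) = c.1 q
        simp
      map_mul' := fun n n' => by
        apply LinearMap.ext
        intro c
        apply Subtype.ext
        funext q
        change c.1 ((n.1 * n'.1)⁻¹ * q) = c.1 (n'.1⁻¹ * (n.1⁻¹ * q))
        rw [mul_inv_rev, mul_assoc] }
  refine (finrank_le_fixed p hN ρ).trans (Nat.mul_le_mul_left _ ?_)
  have h3 : ρ.invariants.map C.subtype ≤ C ⊓ Fix F N := by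
    rintro _ ⟨c, hc, rfl⟩
    refine ⟨c.2, ?_⟩
    intro n hn
    funext x
    change c.1 (x * n) = c.1 x
    have hk : x * n⁻¹ * x⁻¹ ∈ N := (inferInstance : N.Normal).conj_mem _ (N.inv_mem hn) x
    have h4 := congrFun (congrArg Subtype.val (hc ⟨_, hk⟩)) x
    change c.1 ((x * n⁻¹ * x⁻¹)⁻¹ * x) = c.1 x at h4
    rw [← h4]
    group
  have h4 := Submodule.finrank_mono h3
  rwa [Submodule.finrank_map_subtype_eq] at h4

include hp in
theorem bad_cyclic (hG : IsPGroup p G) (N : Subgroup G) [N.Normal] (z : G)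
    (hz : ∀ x : G, ∃ i : ℤ, (z ^ i)⁻¹ * x ∈ N) (C : Submodule F (G → F))
    (hC : ∀ c ∈ C, ∀ z : G, (fun x => c (z * x)) ∈ C) (i : ℕ)
    (hi : p ^ i * Nat.card N ≤ finrank F C) :
    ∃ U : Subgroup G, U.Normal ∧ p ^ i ≤ U.index ∧ Fix F U ≤ C := by
  set T : End F (G → F) := R F z - 1 with hT
  set W := Fix F N with hW
  have hNc : ∀ x n : G, n ∈ N → x⁻¹ * n * x ∈ N := by
    intro x n hn
    have := (inferInstance : N.Normal).conj_mem n hn x⁻¹
    rwa [inv_inv] at this
  -- the quotient is commutative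
  have hab : ∀ x y : G, x⁻¹ * y⁻¹ * x * y ∈ N := by
    intro x y
    obtain ⟨a, ha⟩ := hz x
    obtain ⟨b, hb⟩ := hz y
    have hx : (QuotientGroup.mk x : G ⧸ N) = (QuotientGroup.mk z) ^ a := by
      rw [← QuotientGroup.mk_zpow]
      exact (QuotientGroup.eq.2 ha).symm
    have hy : (QuotientGroup.mk y : G ⧸ N) = (QuotientGroup.mk z) ^ b := by
      rw [← QuotientGroup.mk_zpow]
      exact (QuotientGroup.eq.2 hb).symm
    rw [← QuotientGroup.eq_one_iff]
    rw [QuotientGroup.mk_mul, QuotientGroup.mk_mul, QuotientGroup.mk_mul, QuotientGroup.mk_inv,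
      QuotientGroup.mk_inv, hx, hy]
    group
  have hWR : ∀ w ∈ W, R F z w ∈ W := by
    intro w hw n hn
    have h1 := hw _ (hNc z n hn)
    have h2 : R F n (R F z w) = R F z (R F (z⁻¹ * n * z) w) := by
      rw [← Module.End.mul_apply, ← Module.End.mul_apply, ← R_mul, ← R_mul]
      congr 2
      group
    rw [h2, h1]
  have hWT : ∀ w ∈ W, T w ∈ W := by
    intro w hw
    rw [hT, LinearMap.sub_apply]
    exact Submodule.sub_mem _ (hWR w hw) hw
  set C0 := C ⊓ W with hC0
  have hC0T : ∀ w ∈ C0, T w ∈ C0 := by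
    rintro w ⟨hw1, hw2⟩
    refine ⟨?_, hWT w hw2⟩
    rw [hT, LinearMap.sub_apply]
    refine Submodule.sub_mem _ ?_ hw1
    have h1 : R F z w = fun x => w (z * x) := by
      funext x
      rw [R_apply]
      have h2 : x⁻¹ * z⁻¹ * x * z ∈ N := hab x z
      have h3 := congrFun (hw2 _ h2) (z * x)
      rw [R_apply] at h3
      rw [← h3]
      congr 1
      group
    rw [h1]
    exact hC w hw1 z
  have hTp : ∀ j : ℕ, T ^ p ^ j = R F (z ^ p ^ j) - 1 := by
    intro j
    rw [hT, D_pow p, R_pow]
  obtain ⟨a, ha⟩ := (IsPGroup.iff_orderOf.1 hG) z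
  have hnil : T ^ p ^ a = 0 := by
    rw [hTp, ← ha, pow_orderOf_eq_one, R_one, sub_self]
  set c := finrank F C0 with hc
  -- dimensions of the kernels
  have hk1 : finrank F ↥(LinearMap.ker T ⊓ W) ≤ 1 := by
    have h1 : LinearMap.ker T ⊓ W ≤ Fix F (⊤ : Subgroup G) := by
      rintro w ⟨hw1, hw2⟩ x _
      have hw3 : R F z w = w := by
        have h5 := LinearMap.mem_ker.1 hw1
        rw [hT, LinearMap.sub_apply] at h5
        exact sub_eq_zero.1 h5
      have hw3' : w ∈ Fix F (Subgroup.zpowers z) := by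
        rintro x hx
        obtain ⟨i, rfl⟩ : ∃ i : ℕ, z ^ i = x := mem_powers_iff_mem_zpowers.2 hx
        rw [R_pow]
        clear hx
        induction i with
        | zero => simp
        | succ i ih =>
          rw [pow_succ, Module.End.mul_apply, hw3, ih]
      obtain ⟨i, hi⟩ := hz x
      have e : x = z ^ i * ((z ^ i)⁻¹ * x) := by group
      rw [e, R_mul, Module.End.mul_apply, hw2 _ hi, hw3' _ (Subgroup.zpow_mem_zpowers z i)]
    refine (Submodule.finrank_mono h1).trans ?_
    rw [finrank_Fix, Subgroup.index_top]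
  have hstep : ∀ j l : ℕ, finrank F ↥(LinearMap.ker (T ^ (j + l)) ⊓ W) ≤
      finrank F ↥(LinearMap.ker (T ^ j) ⊓ W) + l := by
    intro j l
    induction l with
    | zero => simp
    | succ l ih =>
      have h1 := finrank_map_ker T (LinearMap.ker (T ^ (j + (l + 1))) ⊓ W)
      have h2 : (LinearMap.ker (T ^ (j + (l + 1))) ⊓ W).map T ≤
          LinearMap.ker (T ^ (j + l)) ⊓ W := by
        rintro _ ⟨w, ⟨hw1, hw2⟩, rfl⟩
        refine ⟨?_, hWT w hw2⟩
        change (T ^ (j + l)) (T w) = 0
        rw [← Module.End.mul_apply, ← pow_succ]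
        exact hw1
      have h3 : LinearMap.ker T ⊓ (LinearMap.ker (T ^ (j + (l + 1))) ⊓ W) ≤ LinearMap.ker T ⊓ W := by
        rintro w ⟨hw1, _, hw2⟩
        exact ⟨hw1, hw2⟩
      have h4 := Submodule.finrank_mono h2
      have h5 := Submodule.finrank_mono h3
      omega
  have hC0le : C0 ≤ LinearMap.ker (T ^ c) ⊓ W := by
    intro w hw
    refine ⟨?_, hw.2⟩
    exact nil T c C0 le_rfl hC0T ⟨p ^ a, fun v _ => by rw [hnil]; rfl⟩ w hw
  have h0 : finrank F ↥(LinearMap.ker (T ^ 0) ⊓ W) = 0 := by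
    rw [pow_zero]
    have : LinearMap.ker (1 : End F (G → F)) ⊓ W = ⊥ := by
      rw [eq_bot_iff]
      rintro w ⟨hw, _⟩
      exact hw
    rw [this, finrank_bot]
  have hkc : finrank F ↥(LinearMap.ker (T ^ c) ⊓ W) ≤ c := by
    have := hstep 0 c
    rw [h0, zero_add] at this
    exact this
  have hC0eq : C0 = LinearMap.ker (T ^ c) ⊓ W := Submodule.eq_of_le_of_finrank_le hC0le hkc
  have hic : p ^ i ≤ c := by
    have h1 := finrank_const p N (hG.to_subgroup N) C hC
    have h2 : p ^ i * Nat.card N ≤ c * Nat.card N := by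
      rw [mul_comm c]
      exact hi.trans h1
    exact Nat.le_of_mul_le_mul_right h2 Nat.card_pos
  -- the subgroup
  set U := Subgroup.zpowers (z ^ p ^ i) ⊔ N with hU
  have hFixU : Fix F U = LinearMap.ker (T ^ p ^ i) ⊓ W := by
    apply le_antisymm
    · intro w hw
      refine ⟨?_, fun n hn => hw n (le_sup_right (a := Subgroup.zpowers (z ^ p ^ i)) hn)⟩
      change (T ^ p ^ i) w = 0
      rw [hTp, LinearMap.sub_apply]
      rw [hw _ (le_sup_left (b := N) (Subgroup.mem_zpowers _))]
      simp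
    · rintro w ⟨hw1, hw2⟩ x hx
      change (T ^ p ^ i) w = 0 at hw1
      rw [hTp, LinearMap.sub_apply] at hw1
      have hw3 : R F (z ^ p ^ i) w = w := sub_eq_zero.1 hw1
      obtain ⟨y, hy, n, hn, rfl⟩ := Subgroup.mem_sup_of_normal_right.1 hx
      rw [R_mul, Module.End.mul_apply, hw2 n hn]
      obtain ⟨j, rfl⟩ : ∃ j : ℕ, (z ^ p ^ i) ^ j = y := mem_powers_iff_mem_zpowers.2 hy
      rw [R_pow]
      clear hy hx
      induction j with
      | zero => simp
      | succ j ih => rw [pow_succ, Module.End.mul_apply, hw3, ih]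
  refine ⟨U, ?_, ?_, ?_⟩
  · constructor
    intro u hu x
    have h1 : x * u * x⁻¹ = u * (u⁻¹ * x⁻¹⁻¹ * u * x⁻¹) := by group
    rw [h1]
    exact U.mul_mem hu (le_sup_right (a := Subgroup.zpowers (z ^ p ^ i)) (hab u x⁻¹))
  · rw [← finrank_Fix (F := F) U, hFixU]
    have h1 := hstep (p ^ i) (c - p ^ i)
    rw [show p ^ i + (c - p ^ i) = c by omega, ← hC0eq] at h1
    omega
  · rw [hFixU]
    have h1 : LinearMap.ker (T ^ p ^ i) ⊓ W ≤ C0 := by
      rw [hC0eq]
      rintro w ⟨hw1, hw2⟩
      refine ⟨?_, hw2⟩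
      change (T ^ c) w = 0
      rw [show c = (c - p ^ i) + p ^ i by omega, pow_add,
        Module.End.mul_apply, LinearMap.mem_ker.1 hw1, map_zero]
    exact h1.trans inf_le_left

end Run7.h505.RT
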