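import Pool.Agent.Run7.h505.RT.S
import Pool.Agent.H70R2.TP.Final

/-!
Left ideals in group algebras of `p`-groups with a large abelianization.
-/

set_option autoImplicit false

namespace Run7.h505.RT

open Module Finset

/-- A large abelian `p`-group maps onto `(ℤ/p)^d` or onto a large cyclic group. -/
theorem abelian_cases (p : ℕ) [hp : Fact p.Prime] (d k : ℕ) (hk : 1 ≤ k) (A : Type) [CommGroup A]
    [Finite A] (hA : IsPGroup p A) (hcard : p ^ (k * d) ≤ Nat.card A) :
    (∃ φ : A →* Multiplicative (Fin d → ZMod p), Function.Surjective φ) ∨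
      ∃ k' ≥ k, ∃ φ : A →* Multiplicative (ZMod (p ^ k')), Function.Surjective φ := by
  classical
  obtain ⟨ι, hι, n, hn, ⟨e⟩⟩ := CommGroup.equiv_prod_multiplicative_zmod_of_finite A
  have hn0 : ∀ i, NeZero (n i) := fun i => ⟨by have := hn i; omega⟩
  have heval : ∀ i, Function.Surjective ((Pi.evalMonoidHom _ i).comp e.toMonoidHom :
      A →* Multiplicative (ZMod (n i))) :=
    fun i => (Function.surjective_eval i).comp e.surjective
  -- all the orders are powers of `p`
  have hpow : ∀ i, ∃ a, n i = p ^ a := by
    intro i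
    have h1 : IsPGroup p (Multiplicative (ZMod (n i))) := hA.of_surjective _ (heval i)
    obtain ⟨a, ha⟩ := IsPGroup.iff_card.1 h1
    refine ⟨a, ?_⟩
    rw [← ha]
    have h2 : Nat.card (Multiplicative (ZMod (n i))) = Nat.card (ZMod (n i)) := rfl
    rw [h2, Nat.card_zmod]
  by_cases hd : d ≤ Fintype.card ι
  · left
    obtain ⟨s⟩ : Nonempty (Fin d ↪ ι) :=
      Function.Embedding.nonempty_of_card_le (by simpa using hd)
    have h2 : ∀ i, p ∣ n i := by
      intro i
      obtain ⟨a, ha⟩ := hpow i
      have h3 := hn i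
      rw [ha] at h3 ⊢
      have h4 : a ≠ 0 := by rintro rfl; simp at h3
      exact dvd_pow_self p h4
    let ψ : ((i : ι) → Multiplicative (ZMod (n i))) →* Multiplicative (Fin d → ZMod p) :=
      { toFun := fun x => Multiplicative.ofAdd fun j =>
          ZMod.castHom (h2 (s j)) (ZMod p) (x (s j)).toAdd
        map_one' := by
          apply Multiplicative.toAdd.injective
          funext j
          change ZMod.castHom (h2 (s j)) (ZMod p) 0 = 0
          rw [map_zero]
        map_mul' := fun x y => by
          apply Multiplicative.toAdd.injective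
          funext j
          change ZMod.castHom (h2 (s j)) (ZMod p) ((x (s j)).toAdd + (y (s j)).toAdd) =
            ZMod.castHom (h2 (s j)) (ZMod p) (x (s j)).toAdd +
            ZMod.castHom (h2 (s j)) (ZMod p) (y (s j)).toAdd
          rw [map_add] }
    have hψ : Function.Surjective ψ := by
      intro y
      choose w hw using fun (i : ι) (ε : ZMod p) => ZMod.castHom_surjective (h2 i) ε
      refine ⟨fun i => if h : ∃ j, s j = i then
        Multiplicative.ofAdd (w i (y.toAdd h.choose)) else 1, ?_⟩
      apply Multiplicative.toAdd.injective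
      funext j
      have hex : ∃ j', s j' = s j := ⟨j, rfl⟩
      have hj : hex.choose = j := s.injective hex.choose_spec
      change ZMod.castHom (h2 (s j)) (ZMod p) (Multiplicative.toAdd (dite (∃ j', s j' = s j)
        (fun h => Multiplicative.ofAdd (w (s j) (y.toAdd h.choose))) fun _ => 1)) = y.toAdd j
      rw [dif_pos hex, toAdd_ofAdd, hj, hw]
    exact ⟨ψ.comp e.toMonoidHom, hψ.comp e.surjective⟩
  · right
    push Not at hd
    have hprod : Nat.card A = ∏ i, n i := by
      rw [Nat.card_congr e.toEquiv, Nat.card_pi]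
      refine Finset.prod_congr rfl fun i _ => ?_
      have h2 : Nat.card (Multiplicative (ZMod (n i))) = Nat.card (ZMod (n i)) := rfl
      rw [h2, Nat.card_zmod]
    obtain ⟨i, hi⟩ : ∃ i, p ^ k ≤ n i := by
      by_contra hno
      push Not at hno
      have h1 : ∏ i, n i ≤ (p ^ k) ^ Fintype.card ι := by
        refine (Finset.prod_le_pow_card _ _ _ fun i _ => (hno i).le).trans ?_
        rw [Finset.card_univ]
      have h2 : (p ^ k) ^ Fintype.card ι < (p ^ k) ^ d :=
        Nat.pow_lt_pow_right (Nat.one_lt_pow (by omega) hp.out.one_lt) hd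
      rw [hprod, pow_mul] at hcard
      omega
    obtain ⟨a, ha⟩ := hpow i
    refine ⟨a, ?_, ?_⟩
    · rw [ha] at hi
      exact (Nat.pow_le_pow_iff_right hp.out.one_lt).1 hi
    · have key : ∀ N, N = p ^ a → (∃ φ : A →* Multiplicative (ZMod N), Function.Surjective φ) →
          ∃ φ : A →* Multiplicative (ZMod (p ^ a)), Function.Surjective φ := by
        rintro _ rfl h; exact h
      exact key _ ha ⟨_, heval i⟩

/-- the weight is the Hamming norm -/
theorem wt_eq {F G : Type} [Field F] [DecidableEq F] [Fintype G] (c : G → F) :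
    wt c = hammingNorm c := by
  unfold wt hammingNorm
  congr!

/-- Left ideals of large dimension in the group algebra of a `p`-group with large abelianization
contain words of small weight. -/
theorem bad (F : Type) [Field F] [Fintype F] (p : ℕ) [hp : Fact p.Prime] [CharP F p] (r e : ℝ)
    (hr : 0 < r) (he : 0 < e) : ∃ N : ℕ, ∀ (G : Type) [Group G] [Fintype G], IsPGroup p G →
      N ≤ Nat.card (Abelianization G) →
      ∀ C : Submodule F (G → F), (∀ c ∈ C, ∀ z : G, (fun x => c (z * x)) ∈ C) →
        r * Fintype.card G ≤ finrank F C →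
        ∃ c ∈ C, c ≠ 0 ∧ (wt c : ℝ) < e * Fintype.card G := by
  classical
  have hp1 : (1 : ℝ) < p := by exact_mod_cast hp.out.one_lt
  obtain ⟨d, hd⟩ := H70.TP.main p F 1 e (r / 2) he (by positivity)
  obtain ⟨i, hi⟩ := pow_unbounded_of_one_lt (1 / e) hp1
  obtain ⟨k, hk⟩ := pow_unbounded_of_one_lt ((p : ℝ) ^ i / r) hp1
  refine ⟨p ^ ((k + 1) * d), ?_⟩
  intro G _ _ hG hab C hC hrC
  have hGpos : (0 : ℝ) < Fintype.card G := by exact_mod_cast Fintype.card_pos
  have hA : IsPGroup p (Abelianization G) := hG.of_surjective Abelianization.of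
    (QuotientGroup.mk_surjective)
  rcases abelian_cases p d (k + 1) (by omega) (Abelianization G) hA hab with
    ⟨φ, hφ⟩ | ⟨k', hk', φ, hφ⟩
  · by_contra hcon
    push Not at hcon
    have h1 := hd d le_rfl G G (φ.comp Abelianization.of) hG (hφ.comp QuotientGroup.mk_surjective)
      (by
        intro x g hg
        rw [MulAction.mem_stabilizer_iff, smul_eq_mul] at hg
        have : g = 1 := by simpa using hg
        rw [this]
        exact Subgroup.one_mem _)
      (by
        have : Subsingleton (MulAction.orbitRel.Quotient G G) := by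
          constructor
          intro a b
          induction a using Quotient.inductionOn with
          | h a =>
            induction b using Quotient.inductionOn with
            | h b =>
              apply Quotient.sound
              exact MulAction.orbitRel_apply.2 ⟨a * b⁻¹, by simp⟩
        rw [Nat.card_eq_fintype_card]
        exact Fintype.card_le_one_iff_subsingleton.2 this)
      C (fun g f hf => hC f hf g) (fun f hf hf0 => by
        have := hcon f hf hf0
        rwa [wt_eq] at this)
    nlinarith
  · set ψ : G →* Multiplicative (ZMod (p ^ k')) := φ.comp Abelianization.of with hψ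
    have hψs : Function.Surjective ψ := hφ.comp QuotientGroup.mk_surjective
    set N := ψ.ker with hN
    obtain ⟨z, hz⟩ := hψs (Multiplicative.ofAdd 1)
    have hcard : p ^ k' * Nat.card N = Fintype.card G := by
      rw [← Nat.card_eq_fintype_card, ← N.card_mul_index, mul_comm, Subgroup.index_ker,
        MonoidHom.range_eq_top.2 hψs]
      congr 1
      have : Nat.card (⊤ : Subgroup (Multiplicative (ZMod (p ^ k')))) =
        Nat.card (ZMod (p ^ k')) := Nat.card_congr (Subgroup.topEquiv).toEquiv
      rw [this, Nat.card_zmod]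
    have hpk : (p : ℝ) ^ i ≤ r * (p : ℝ) ^ k' := by
      rw [div_lt_iff₀ hr] at hk
      have h1 : (p : ℝ) ^ k ≤ (p : ℝ) ^ k' := pow_le_pow_right₀ hp1.le (by omega)
      nlinarith
    have hNpos : (0 : ℝ) < Nat.card N := by exact_mod_cast Nat.card_pos
    have hle : p ^ i * Nat.card N ≤ finrank F C := by
      have h1 : ((p ^ i * Nat.card N : ℕ) : ℝ) ≤ finrank F C := by
        refine le_trans ?_ hrC
        rw [← hcard]
        push_cast
        calc (p : ℝ) ^ i * Nat.card N ≤ (r * (p : ℝ) ^ k') * Nat.card N :=
              mul_le_mul_of_nonneg_right hpk hNpos.le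
          _ = _ := by ring
      exact_mod_cast h1
    obtain ⟨U, -, hUi, hUC⟩ := bad_cyclic p hG N z (by
      intro x
      have : NeZero (p ^ k') := ⟨pow_ne_zero _ hp.out.ne_zero⟩
      refine ⟨((ψ x).toAdd.val : ℤ), ?_⟩
      rw [hN, MonoidHom.mem_ker, map_mul, map_inv, map_zpow, hz, inv_mul_eq_one]
      apply Multiplicative.toAdd.injective
      rw [zpow_natCast, toAdd_pow, toAdd_ofAdd, nsmul_eq_mul, mul_one, ZMod.natCast_zmod_val])
      C hC i hle
    refine ⟨fun x => if x ∈ U then 1 else 0, hUC ?_, ?_, ?_⟩
    · intro u hu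
      funext x
      rw [R_apply]
      have : x * u ∈ U ↔ x ∈ U := U.mul_mem_cancel_right hu
      simp [this]
    · intro h0
      have := congrFun h0 1
      simp [U.one_mem] at this
    · have h1 : wt (fun x : G => if x ∈ U then (1 : F) else 0) = Nat.card U := by
        unfold wt
        rw [Nat.card_eq_fintype_card, Fintype.card_subtype]
        congr 1
        ext x
        simp
      rw [h1]
      have h2 : (Nat.card U : ℝ) * U.index = Fintype.card G := by
        rw [← Nat.card_eq_fintype_card, ← U.card_mul_index]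
        push_cast
        rfl
      have h3 : (p : ℝ) ^ i ≤ U.index := by exact_mod_cast hUi
      have hUpos : (0 : ℝ) < Nat.card U := by exact_mod_cast Nat.card_pos
      rw [← h2]
      rw [div_lt_iff₀ he] at hi
      calc (Nat.card U : ℝ) = 1 * Nat.card U := (one_mul _).symm
        _ < ((p : ℝ) ^ i * e) * Nat.card U := mul_lt_mul_of_pos_right hi hUpos
        _ ≤ (U.index * e) * Nat.card U :=
          mul_le_mul_of_nonneg_right (mul_le_mul_of_nonneg_right h3 he.le) hUpos.le
        _ = _ := by ring

/-- a subgroup of a finite commutative group generated by two elements is generated by two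
elements -/
theorem sub_two {G : Type} [Group G] [Finite G] {g h : G} (hgh : Commute g h) (B : Subgroup G)
    (hB : B ≤ Subgroup.closure {g, h}) :
    ∃ g' h' : G, Commute g' h' ∧ B = Subgroup.closure {g', h'} := by
  have hcomm : ∀ i j : ℤ, Commute (g ^ i) (h ^ j) := fun i j => (hgh.zpow_left i).zpow_right j
  let J : AddSubgroup ℤ :=
    { carrier := {j | ∃ i : ℤ, g ^ i * h ^ j ∈ B}
      zero_mem' := ⟨0, by simp [B.one_mem]⟩
      add_mem' := by
        rintro j j' ⟨i, hi⟩ ⟨i', hi'⟩
        refine ⟨i + i', ?_⟩
        have := B.mul_mem hi hi'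
        rw [zpow_add, zpow_add]
        have e : g ^ i * g ^ i' * (h ^ j * h ^ j') = g ^ i * h ^ j * (g ^ i' * h ^ j') := by
          calc g ^ i * g ^ i' * (h ^ j * h ^ j') = g ^ i * (g ^ i' * h ^ j) * h ^ j' := by group
            _ = g ^ i * (h ^ j * g ^ i') * h ^ j' := by rw [(hcomm i' j).eq]
            _ = _ := by group
        rw [e]
        exact this
      neg_mem' := by
        rintro j ⟨i, hi⟩
        refine ⟨-i, ?_⟩
        have := B.inv_mem hi
        rw [mul_inv_rev, ← zpow_neg, ← zpow_neg] at this
        rw [(hcomm (-i) (-j)).eq]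
        exact this }
  let I : AddSubgroup ℤ :=
    { carrier := {i | g ^ i ∈ B}
      zero_mem' := by simp [B.one_mem]
      add_mem' := by
        intro i i' hi hi'
        change g ^ (i + i') ∈ B
        rw [zpow_add]
        exact B.mul_mem hi hi'
      neg_mem' := by
        intro i hi
        change g ^ (-i) ∈ B
        rw [zpow_neg]
        exact B.inv_mem hi }
  obtain ⟨j0, hj0⟩ := Int.subgroup_cyclic J
  obtain ⟨i1, hi1⟩ := Int.subgroup_cyclic I
  have hj0' : j0 ∈ J := by rw [hj0]; exact AddSubgroup.subset_closure rfl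
  have hi1' : i1 ∈ I := by rw [hi1]; exact AddSubgroup.subset_closure rfl
  obtain ⟨i0, hi0⟩ := hj0'
  refine ⟨g ^ i0 * h ^ j0, g ^ i1, ?_, ?_⟩
  · exact ((Commute.refl g).zpow_zpow i0 i1).mul_left (hcomm i1 j0).symm
  · apply le_antisymm
    · intro b hb
      obtain ⟨i, j, rfl⟩ := mem_closure_pair hgh (hB hb)
      have hj : (j : ℤ) ∈ J := ⟨i, by simpa using hb⟩
      rw [hj0, ← AddSubgroup.zmultiples_eq_closure, AddSubgroup.mem_zmultiples_iff] at hj
      obtain ⟨k, hk⟩ := hj
      have e1 : (g ^ i0 * h ^ j0) ^ k = g ^ (i0 * k) * h ^ (j : ℤ) := by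
        rw [(hcomm i0 j0).mul_zpow, ← zpow_mul, ← zpow_mul, mul_comm j0 k]
        congr 2
      have hi : (i : ℤ) - i0 * k ∈ I := by
        change g ^ ((i : ℤ) - i0 * k) ∈ B
        have h1 : g ^ ((i : ℤ) - i0 * k) = (g ^ i * h ^ j) * ((g ^ i0 * h ^ j0) ^ k)⁻¹ := by
          rw [e1, zpow_sub, zpow_natCast, zpow_natCast]
          group
        rw [h1]
        exact B.mul_mem hb (B.inv_mem (B.zpow_mem hi0 k))
      rw [hi1, ← AddSubgroup.zmultiples_eq_closure, AddSubgroup.mem_zmultiples_iff] at hi
      obtain ⟨l, hl⟩ := hi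
      have h2 : g ^ i * h ^ j = (g ^ i1) ^ l * (g ^ i0 * h ^ j0) ^ k := by
        rw [e1, ← zpow_mul, ← mul_assoc, ← zpow_add, zpow_natCast]
        rw [show i1 * l + i0 * k = (i : ℤ) by
          have : l • i1 = l * i1 := rfl
          rw [this] at hl
          linarith]
        rw [zpow_natCast]
      rw [h2]
      exact Subgroup.mul_mem _ (Subgroup.zpow_mem _ (Subgroup.subset_closure (by simp)) _)
        (Subgroup.zpow_mem _ (Subgroup.subset_closure (by simp)) _)
    · rw [Subgroup.closure_le]
      rintro x (rfl | rfl)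
      · exact hi0
      · exact hi1'

/-- **Good left ideals.**  Finite `p`-groups with a subgroup of bounded index that is abelian and
generated by two elements, and with bounded abelianization. -/
theorem good_class (F : Type) [Field F] [Fintype F] (p : ℕ) [hp : Fact p.Prime] [CharP F p]
    (m M : ℕ) : ∃ r e : ℝ, 0 < r ∧ 0 < e ∧ ∀ (G : Type) [Group G] [Fintype G], IsPGroup p G →
      (∃ g h : G, Commute g h ∧ (Subgroup.closure {g, h}).index ≤ m) →
      Nat.card (Abelianization G) ≤ M →
      ∃ C : Submodule F (G → F), (∀ c ∈ C, ∀ z : G, (fun x => c (z * x)) ∈ C) ∧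
        r * Fintype.card G ≤ finrank F C ∧
        ∀ c ∈ C, c ≠ 0 → e * Fintype.card G < wt c := by
  set m' := m.factorial with hm'
  set B := m' * p ^ (2 * (ea m' + 6 + (m' + M))) with hB
  obtain ⟨e, he, hgood⟩ := good F p m' B 3
  have hBpos : 0 < B := Nat.mul_pos (Nat.factorial_pos m) (pow_pos hp.out.pos _)
  have hBR : (0 : ℝ) < B := by exact_mod_cast hBpos
  refine ⟨1 / B, e, by positivity, he, ?_⟩
  intro G _ _ hG ⟨g, h, hgh, hm⟩ hM
  set A := Subgroup.closure {g, h} with hA
  -- the normal core
  obtain ⟨g', h', hgh', hcore⟩ := sub_two hgh A.normalCore A.normalCore_le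
  have hidx : A.normalCore.index ≤ m' := by
    have h1 : A.normalCore.index ∣ A.index.factorial := by
      rw [Subgroup.normalCore_eq_ker, Subgroup.index_ker, Subgroup.index_eq_card, ← Nat.card_perm]
      exact Subgroup.card_subgroup_dvd_card _
    exact (Nat.le_of_dvd (Nat.factorial_pos _) h1).trans (Nat.factorial_le hm)
  have hcomm : ∀ a ∈ A.normalCore, ∀ b ∈ A.normalCore, a * b = b * a := by
    intro a ha b hb
    rw [hcore] at ha hb
    obtain ⟨i, j, rfl⟩ := mem_closure_pair hgh' ha
    obtain ⟨i', j', rfl⟩ := mem_closure_pair hgh' hb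
    have h1 : Commute (g' ^ i * h' ^ j) (g' ^ i' * h' ^ j') := by
      apply Commute.mul_left
      · exact ((Commute.refl g').pow_pow i i').mul_right (hgh'.pow_pow i j')
      · exact (hgh'.symm.pow_pow j i').mul_right ((Commute.refl h').pow_pow j j')
    exact h1.eq
  obtain ⟨t, ht1, ht2⟩ := exists_t p m' M hG A.normalCore hcomm hcore hidx hM
  rw [hcore] at hidx
  obtain ⟨C, hC1, hC2, hC3⟩ := hgood G g' h' t ![1, g', h'] hgh' (hG.to_subgroup _) hidx ht2
  refine ⟨C, hC1, ?_, hC3⟩
  have h1 : Fintype.card G ≤ B * finrank F C := hC2.trans (Nat.mul_le_mul_right _ ht1)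
  have h2 : (Fintype.card G : ℝ) ≤ B * finrank F C := by exact_mod_cast h1
  rw [one_div, inv_mul_le_iff₀ hBR]
  exact h2

end Run7.h505.RT
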