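import Pool.Agent.Run7.h505.RT.T

/-!
For `p ≥ 5`, boundedness of the abelianization bounds the group.
-/

set_option autoImplicit false

namespace Run7.h505.RT

open Module Finset

section

variable {V : Type} [AddCommGroup V]

theorem geom_binom (δ : AddMonoid.End V) (n : ℕ) :
    ∑ i ∈ range n, (1 + δ) ^ i = ∑ j ∈ range n, (n.choose (j + 1)) • δ ^ j := by
  induction n with
  | zero => simp
  | succ n ih =>
    have h1 : ∀ j, δ ^ j * (n.choose j : AddMonoid.End V) = (n.choose j) • δ ^ j := by
      intro j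
      rw [nsmul_eq_mul, (Nat.cast_commute _ _).eq]
    have h2 : ∀ j, ((n + 1).choose (j + 1)) • δ ^ j =
        (n.choose j) • δ ^ j + (n.choose (j + 1)) • δ ^ j := by
      intro j
      rw [Nat.choose_succ_succ', add_nsmul]
    rw [Finset.sum_range_succ, ih, add_comm 1 δ, (Commute.one_right δ).add_pow]
    simp only [one_pow, mul_one]
    rw [Finset.sum_congr rfl fun j _ => h1 j, Finset.sum_congr rfl fun j _ => h2 j,
      Finset.sum_add_distrib, Finset.sum_range_succ (fun j => (n.choose (j + 1)) • δ ^ j) n]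
    have h3 : n.choose (n + 1) = 0 := Nat.choose_succ_self n
    rw [h3, zero_nsmul, add_zero, add_comm]

theorem end_sum_apply (s : Finset ℕ) (f : ℕ → AddMonoid.End V) (w : V) :
    (∑ j ∈ s, f j) w = ∑ j ∈ s, f j w := by
  induction s using Finset.induction_on with
  | empty => rfl
  | insert a s ha ih =>
    rw [Finset.sum_insert ha, Finset.sum_insert ha, ← ih]
    rfl

theorem sq_zero {p : ℕ} [hp : Fact p.Prime] (U : Type) [AddCommGroup U] [Finite U]
    [Module (ZMod p) U] (hU : Nat.card U ≤ p ^ 2) (y : AddMonoid.End U)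
    (hy : ∀ u, (y ^ p) u = u) (u : U) :
    y (y u - u) - (y u - u) = 0 := by
  have hfin : Module.Finite (ZMod p) U := Module.Finite.of_finite
  have hcardU : finrank (ZMod p) U ≤ 2 := by
    have h1 : Nat.card U = p ^ finrank (ZMod p) U := by
      have := Module.natCard_eq_pow_finrank (K := ZMod p) (V := U)
      rwa [Nat.card_zmod] at this
    rw [h1] at hU
    exact (Nat.pow_le_pow_iff_right hp.out.one_lt).1 hU
  let X : End (ZMod p) U := AddMonoidHom.toZModLinearMap p (y : U →+ U)
  have hX : ∀ u : U, X u = y u := fun u => rfl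
  have hXp : ∀ (i : ℕ) (u : U), (X ^ i) u = (y ^ i) u := by
    intro i
    induction i with
    | zero => intro u; rfl
    | succ i ih =>
      intro u
      rw [pow_succ', pow_succ', Module.End.mul_apply, hX, ih]
      rfl
  have hXnil : (X - 1) ^ p = 0 := by
    have h1 := D_pow p X 1
    rw [pow_one] at h1
    rw [h1, sub_eq_zero]
    apply LinearMap.ext
    intro u
    rw [hXp]
    exact hy u
  have h1 := nil (X - 1) 2 ⊤ (by rwa [finrank_top]) (fun _ _ => Submodule.mem_top)
    ⟨p, fun v _ => by rw [hXnil]; rfl⟩ u Submodule.mem_top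
  rw [pow_two, Module.End.mul_apply] at h1
  exact h1

theorem five_base [Finite V] {p : ℕ} [hp : Fact p.Prime] (hp5 : 5 ≤ p) {N : ℕ}
    (hN : Nat.card V = p ^ N)
    (hr : Nat.card {v : V // p • v = 0} ≤ p ^ 2) (y : AddMonoid.End V) (k l : ℕ)
    (hy : ∀ v, p ^ k • ((y ^ p) v - v) = 0) (hC : ∀ v, y v = v → p ^ l • v = 0) (v : V) :
    p ^ (k + l + 1) • v = 0 := by
  set δ : AddMonoid.End V := y - 1 with hδ
  have hyδ : y = 1 + δ := by rw [hδ]; abel
  have hδa : ∀ w, δ w = y w - w := fun w => rfl
  -- the norm is zero on multiples of `p ^ (k + l)`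
  have hnorm : ∀ w : V, (∑ i ∈ range p, y ^ i) (p ^ (k + l) • w) = 0 := by
    intro w
    set n : AddMonoid.End V := ∑ i ∈ range p, y ^ i with hn
    have h1 : ∀ u, y (n u) - n u = (y ^ p) u - u := by
      intro u
      have h2 : (y - 1) * n = y ^ p - 1 := by rw [hn, mul_geom_sum]
      have h3 := DFunLike.congr_fun h2 u
      exact h3
    have h2 : y (n (p ^ k • w)) = n (p ^ k • w) := by
      rw [← sub_eq_zero, h1, map_nsmul, ← smul_sub, hy]
    have h3 := hC _ h2
    rw [show p ^ (k + l) • w = p ^ l • (p ^ k • w) by rw [← mul_nsmul', ← pow_add, add_comm],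
      map_nsmul, h3]
  have hyp : ∀ w : V, (y ^ p) (p ^ (k + l) • w) = p ^ (k + l) • w := by
    intro w
    have := hy w
    rw [add_comm, pow_add, mul_nsmul', map_nsmul, map_nsmul]
    congr 1
    rw [smul_sub] at this
    exact sub_eq_zero.1 this
  -- the group of `p`-torsion elements that are multiples of `p ^ (k + l)`
  obtain ⟨U, hUmem⟩ : ∃ U : AddSubgroup V, ∀ u, u ∈ U ↔
      (p • u = 0 ∧ ∃ w, u = p ^ (k + l) • w) := ⟨
    { carrier := {u | p • u = 0 ∧ ∃ w, u = p ^ (k + l) • w}
      zero_mem' := ⟨smul_zero _, 0, (smul_zero _).symm⟩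
      add_mem' := by
        rintro a b ⟨ha, w, hw⟩ ⟨hb, w', hw'⟩
        exact ⟨by rw [smul_add, ha, hb, add_zero], w + w', by rw [hw, hw', smul_add]⟩
      neg_mem' := by
        rintro a ⟨ha, w, hw⟩
        exact ⟨by rw [smul_neg, ha, neg_zero], -w, by rw [hw, smul_neg]⟩ }, fun u => Iff.rfl⟩
  have hyU : ∀ u ∈ U, y u ∈ U := by
    intro u hu0
    obtain ⟨hu, w, hw⟩ := (hUmem u).1 hu0
    exact (hUmem _).2 ⟨by rw [← map_nsmul, hu, map_zero], y w, by rw [hw, map_nsmul]⟩
  have hUp : ∀ u : U, p • u = 0 := fun u => Subtype.ext ((hUmem u.1).1 u.2).1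
  have hcardU : Nat.card U ≤ p ^ 2 := by
    refine le_trans ?_ hr
    let ι : U → {v : V // p • v = 0} := fun u => ⟨u.1, ((hUmem u.1).1 u.2).1⟩
    apply Nat.card_le_card_of_injective ι
    intro a b hab
    have := congrArg Subtype.val hab
    exact Subtype.ext this
  let X : AddMonoid.End U :=
    AddMonoidHom.codRestrict (AddMonoidHom.comp (y : V →+ V) U.subtype) U fun u => hyU u.1 u.2
  have hX : ∀ u : U, (X u).1 = y u.1 := fun u => rfl
  have hXp : ∀ (i : ℕ) (u : U), ((X ^ i) u).1 = (y ^ i) u.1 := by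
    intro i
    induction i with
    | zero => intro u; rfl
    | succ i ih =>
      intro u
      rw [pow_succ', pow_succ']
      change y ((X ^ i) u).1 = y ((y ^ i) u.1)
      rw [ih]
  have hδ2 : ∀ u ∈ U, δ (δ u) = 0 := by
    intro u hu
    have h1 := @sq_zero p hp U _ _ (AddCommGroup.zmodModule hUp) hcardU X (by
      intro u
      apply Subtype.ext
      rw [hXp]
      obtain ⟨w, hw⟩ := ((hUmem u.1).1 u.2).2
      rw [hw]
      exact hyp w) ⟨u, hu⟩
    exact congrArg Subtype.val h1
  have hδU : ∀ u ∈ U, δ u ∈ U := by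
    intro u hu
    rw [hδa]
    exact U.sub_mem (hyU u hu) hu
  -- no elements of order `p ^ 2`
  by_contra hv
  obtain ⟨n, hn⟩ := exists_order (k := 1) hp.out hN (c := p ^ (k + l) • v) (by
    rw [pow_one]
    rw [pow_succ'] at hv
    rwa [mul_nsmul'] at hv)
  set w := n • (p ^ (k + l) • v) with hw
  have hw' : w = p ^ (k + l) • (n • v) := by
    rw [hw, ← mul_nsmul', ← mul_nsmul', mul_comm]
  have hpp : p • (p • w) = 0 := by
    rw [← mul_nsmul', ← pow_two]
    have := addOrderOf_nsmul_eq_zero w
    rwa [hn] at this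
  have hpw : p • w ∈ U := (hUmem _).2
    ⟨hpp, p • (n • v), by rw [hw', ← mul_nsmul', mul_comm, mul_nsmul']⟩
  have hδw : δ (δ w) ∈ U := by
    refine (hUmem _).2 ⟨?_, δ (δ (n • v)), ?_⟩
    · rw [← map_nsmul, ← map_nsmul]
      exact hδ2 _ hpw
    · rw [hw', map_nsmul, map_nsmul]
  have hδj : ∀ (j : ℕ) (u : V), δ (δ u) = 0 → (δ ^ (j + 2)) u = 0 := by
    intro j u hu
    rw [pow_add, pow_two]
    change (δ ^ j) (δ (δ u)) = 0
    rw [hu, map_zero]
  obtain ⟨c, hc⟩ : p ∣ p.choose 2 := hp.out.dvd_choose_self (by norm_num) (by omega)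
  have hsum : (∑ i ∈ range p, y ^ i) w = p • w + c • δ (p • w) := by
    rw [hyδ, geom_binom]
    have h1 : ∀ j ∈ range p, ((p.choose (j + 1)) • δ ^ j) w =
        if j = 0 then p • w else if j = 1 then c • δ (p • w) else 0 := by
      intro j hj
      have hj' := Finset.mem_range.1 hj
      change (p.choose (j + 1)) • ((δ ^ j) w) = _
      by_cases hj0 : j = 0
      · subst hj0
        rw [if_pos rfl, zero_add, Nat.choose_one_right, pow_zero]
        rfl
      · rw [if_neg hj0]
        by_cases hj1 : j = 1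
        · subst hj1
          rw [if_pos rfl, pow_one, hc, mul_comm, mul_nsmul']
          congr 1
          exact (map_nsmul δ p w).symm
        · rw [if_neg hj1]
          by_cases hjp : j + 1 = p
          · have h2 : (δ ^ j) w = 0 := by
              have h3 : j = (j - 4 + 2) + 2 := by omega
              rw [h3, pow_add, pow_two δ]
              change (δ ^ (j - 4 + 2)) (δ (δ w)) = 0
              exact hδj _ _ (hδ2 _ hδw)
            rw [h2, smul_zero]
          · obtain ⟨d, hd⟩ : p ∣ p.choose (j + 1) := hp.out.dvd_choose_self (by omega) (by omega)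
            rw [hd, mul_comm, mul_nsmul', ← map_nsmul]
            have h3 : (δ ^ j) (p • w) = 0 := by
              rw [show j = (j - 2) + 2 by omega]
              exact hδj _ _ (hδ2 _ hpw)
            rw [h3, smul_zero]
    have h2 : (∑ j ∈ range p, (p.choose (j + 1)) • δ ^ j) w =
        ∑ j ∈ range p, ((p.choose (j + 1)) • δ ^ j) w := by
      exact end_sum_apply _ _ _
    rw [h2, Finset.sum_congr rfl h1]
    have h3 : range p = insert 0 (insert 1 ((range p).filter fun j => 2 ≤ j)) := by
      ext j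
      simp only [Finset.mem_range, Finset.mem_insert, Finset.mem_filter]
      omega
    rw [h3, Finset.sum_insert (by simp), Finset.sum_insert (by simp)]
    rw [if_pos rfl, if_neg one_ne_zero, if_pos rfl]
    have h4 : ∑ j ∈ (range p).filter (fun j => 2 ≤ j),
        (if j = 0 then p • w else if j = 1 then c • δ (p • w) else 0) = 0 := by
      apply Finset.sum_eq_zero
      intro j hj
      have := (Finset.mem_filter.1 hj).2
      rw [if_neg (by omega), if_neg (by omega)]
    rw [h4, add_zero]
  have h5 : p • w + c • δ (p • w) = 0 := by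
    rw [← hsum, hw']
    exact hnorm _
  have h6 : δ (p • w) = 0 := by
    have := congrArg δ h5
    rw [map_add, map_nsmul _ c, hδ2 _ hpw, smul_zero, add_zero, map_zero] at this
    exact this
  rw [h6, smul_zero, add_zero] at h5
  have h7 := addOrderOf_dvd_of_nsmul_eq_zero h5
  rw [hn] at h7
  have h8 : p ^ 2 ≤ p := Nat.le_of_dvd hp.out.pos h7
  have h9 : p < p ^ 2 := by
    calc p = p ^ 1 := (pow_one p).symm
      _ < p ^ 2 := Nat.pow_lt_pow_right hp.out.one_lt (by norm_num)
  omega

end

end Run7.h505.RT
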