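import Pool.Agent.Run7.h505.RT.U

/-!
For `p ≥ 5`, boundedness of the abelianization bounds the group; examples for `p ≤ 3`.
-/

set_option autoImplicit false

namespace Run7.h505.RT

open Module Finset

/-- exponents -/
def eb : ℕ → ℕ
  | 0 => 0
  | n + 1 => 3 * eb n + 4

theorem five_chain {V : Type} [AddCommGroup V] [Finite V] {p : ℕ} [hp : Fact p.Prime]
    (hp5 : 5 ≤ p) {N : ℕ} (hN : Nat.card V = p ^ N)
    (hr : ∀ j, Nat.card {v : V // p ^ j • v = 0} ≤ p ^ (2 * j)) (x : AddMonoid.End V) (s : ℕ)
    (hx : x ^ p ^ s = 1) (i : ℕ) : i ≤ s →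
    (∀ v : V, p ^ eb i • v = 0) ∨ (∀ v, p ^ eb i • ((x ^ p ^ (s - i)) v - v) = 0) := by
  have hr1 : Nat.card {v : V // p • v = 0} ≤ p ^ 2 := by
    have := hr 1
    simpa using this
  induction i with
  | zero =>
    intro _
    right
    intro v
    rw [Nat.sub_zero, hx]
    simp
  | succ i ih =>
    intro hi
    rcases ih (by omega) with h | h
    · left
      intro v
      exact smul_le (by change eb i ≤ 3 * eb i + 4; omega) (h v)
    · have hy : ∀ v, p ^ eb i • (((x ^ p ^ (s - (i + 1))) ^ p) v - v) = 0 := by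
        intro v
        rw [← pow_mul, ← pow_succ, show s - (i + 1) + 1 = s - i by omega]
        exact h v
      rcases base_odd hp.out (by omega) hN hr (x ^ p ^ (s - (i + 1))) (eb i) hy with h | h
      · left
        intro v
        have := five_base hp5 hN hr1 _ (eb i) (2 * eb i + 3) hy h v
        exact smul_le (by change _ ≤ 3 * eb i + 4; omega) this
      · right
        intro v
        exact smul_le (by change _ ≤ 3 * eb i + 4; omega) (h v)

/-- For `p ≥ 5` a finite `p`-group with a normal subgroup `A` of index at most `m`, abelian and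
generated by two elements, and with an abelianization of order at most `M`, has bounded order. -/
theorem five_normal (p : ℕ) [hp : Fact p.Prime] (hp5 : 5 ≤ p) (m M : ℕ) {G : Type} [Group G]
    [Finite G] (hG : IsPGroup p G) (A : Subgroup G)
    [A.Normal] (hA : ∀ a ∈ A, ∀ b ∈ A, a * b = b * a) {g h : G} (hg : g ∈ A) (hh : h ∈ A)
    (hgen : ∀ a ∈ A, ∃ i j : ℕ, a = g ^ i * h ^ j) (hm : A.index ≤ m)
    (hM : Nat.card (Abelianization G) ≤ M) :
    Nat.card G ≤ m * p ^ (2 * (eb m + (m + M))) := by
  let _ := cgA A hA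
  let Φ : G →* AddMonoid.End (Additive A) :=
    { toFun := fun x => MonoidHom.toAdditive (MulAut.conjNormal x : A ≃* A).toMonoidHom
      map_one' := by
        apply AddMonoidHom.ext
        intro a
        apply Additive.toMul.injective
        apply Subtype.ext
        change (1 : G) * a.toMul.1 * (1 : G)⁻¹ = a.toMul.1
        rw [one_mul, inv_one, mul_one]
      map_mul' := by
        intro x y
        apply AddMonoidHom.ext
        intro a
        apply Additive.toMul.injective
        apply Subtype.ext
        change (x * y) * a.toMul.1 * (x * y)⁻¹ = x * (y * a.toMul.1 * y⁻¹) * x⁻¹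
        group }
  have hΦ : ∀ (x : G) (a : Additive A), ((Φ x a).toMul : G) = x * a.toMul * x⁻¹ := by
    intro x a
    rfl
  obtain ⟨N, hN⟩ := (IsPGroup.iff_card.1 (hG.to_subgroup A))
  have hN' : Nat.card (Additive A) = p ^ N := hN
  have hr : ∀ n, 0 < n → Nat.card {v : Additive A // n • v = 0} ≤ n ^ 2 := by
    intro n hn
    apply card_torsion (a := Additive.ofMul (⟨g, hg⟩ : A)) (b := Additive.ofMul (⟨h, hh⟩ : A)) _ hn
    intro v
    obtain ⟨i, j, hij⟩ := hgen v.toMul.1 v.toMul.2
    refine ⟨i, j, ?_⟩
    apply Additive.toMul.injective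
    apply Subtype.ext
    exact hij
  have hr' : ∀ j, Nat.card {v : Additive A // p ^ j • v = 0} ≤ p ^ (2 * j) := by
    intro j
    refine (hr _ (pow_pos hp.out.pos j)).trans (le_of_eq ?_)
    rw [← pow_mul, mul_comm]
  have hV0 : ∀ (x : G) (v : Additive A), Φ x v = v ↔ x * v.toMul.1 = v.toMul.1 * x := by
    intro x v
    rw [← Additive.toMul.injective.eq_iff, ← Subtype.coe_injective.eq_iff, hΦ,
      mul_inv_eq_iff_eq_mul]
  -- the index
  obtain ⟨k, hk⟩ := hG.index A
  have hkm : k ≤ m := by
    have : k < p ^ k := Nat.lt_pow_self hp.out.one_lt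
    omega
  have hpow : ∀ x : G, Φ x ^ p ^ m = 1 := by
    intro x
    rw [← map_pow]
    have hx : x ^ p ^ m ∈ A := by
      rw [show p ^ m = p ^ k * p ^ (m - k) by rw [← pow_add]; congr 1; omega, pow_mul]
      apply Subgroup.pow_mem
      rw [← hk]
      exact A.pow_index_mem x
    apply AddMonoidHom.ext
    intro v
    change Φ (x ^ p ^ m) v = v
    rw [hV0]
    exact hA _ hx _ v.toMul.2
  have hpow' : ∀ x : G, Φ x ^ p ^ (m + 1) = 1 := by
    intro x
    rw [pow_succ, pow_mul, hpow, one_pow]
  -- common fixed points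
  have hfix : ∀ v, (∀ x, Φ x v = v) → p ^ (m + M) • v = 0 := by
    intro v hv
    set f := MonoidHom.transfer (MonoidHom.id A) with hf
    set a : G := v.toMul.1 with ha
    have hcen : ∀ x : G, x * a = a * x := fun x => (hV0 x v).1 (hv x)
    have key : ∀ (k : ℕ) (g₀ : G), g₀⁻¹ * a ^ k * g₀ ∈ A → g₀⁻¹ * a ^ k * g₀ = a ^ k := by
      intro k g₀ _
      have h1 : Commute g₀ (a ^ k) := (show Commute g₀ a from hcen g₀).pow_right k
      rw [mul_assoc, ← h1.eq, inv_mul_cancel_left]
    have h1 : f a = ⟨a ^ A.index, MonoidHom.transfer_eq_pow_aux a key⟩ :=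
      MonoidHom.transfer_eq_pow (MonoidHom.id A) a key
    obtain ⟨l, hl⟩ := hG.index (commutator G)
    have hlM : l ≤ M := by
      have h2 : l < p ^ l := Nat.lt_pow_self hp.out.one_lt
      have h3 : (commutator G).index ≤ M := hM
      omega
    have h2 : f (a ^ (commutator G).index) = 1 := by
      have := Abelianization.commutator_subset_ker f ((commutator G).pow_index_mem a)
      exact MonoidHom.mem_ker.1 this
    rw [map_pow, h1] at h2
    have h3 := congrArg Subtype.val h2
    have h4 : a ^ p ^ (k + l) = 1 := by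
      rw [pow_add, pow_mul, ← hk, ← hl]
      exact h3
    have h5 : a ^ p ^ (m + M) = 1 := by
      rw [show p ^ (m + M) = p ^ (k + l) * p ^ (m + M - (k + l)) by
        rw [← pow_add]; congr 1; omega, pow_mul, h4, one_pow]
    apply Additive.toMul.injective
    apply Subtype.ext
    exact h5
  have hkill : ∀ v : Additive A, p ^ (eb m + (m + M)) • v = 0 := by
    by_cases hall : ∀ v : Additive A, p ^ eb m • v = 0
    · intro v
      exact smul_le (by omega) (hall v)
    · intro v
      have h1 : p ^ (m + M) • (p ^ eb m • v) = 0 := by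
        apply hfix
        intro x
        rcases five_chain hp5 hN' hr' (Φ x) m (hpow x) m le_rfl with h2 | h2
        · exact absurd h2 hall
        · have h3 := h2 v
          rw [Nat.sub_self, pow_zero, pow_one, smul_sub, ← map_nsmul] at h3
          exact sub_eq_zero.1 h3
      rw [add_comm, pow_add, mul_nsmul', h1]
  have hcardA : Nat.card A ≤ p ^ (2 * (eb m + (m + M))) := by
    refine le_trans ?_ (hr' (eb m + (m + M)))
    let ι : A → {v : Additive A // p ^ (eb m + (m + M)) • v = 0} :=
      fun a => ⟨Additive.ofMul a, hkill _⟩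
    apply Nat.card_le_card_of_injective ι
    intro a b hab
    have := congrArg Subtype.val hab
    exact Additive.ofMul.injective this
  rw [← A.card_mul_index, mul_comm]
  exact Nat.mul_le_mul hm hcardA

theorem five (p : ℕ) [hp : Fact p.Prime] (hp5 : 5 ≤ p) (m M : ℕ) : ∃ N : ℕ,
    ∀ (G : Type) [Group G] [Fintype G], IsPGroup p G →
      (∃ g h : G, Commute g h ∧ (Subgroup.closure {g, h}).index ≤ m) →
      Nat.card (Abelianization G) ≤ M → Fintype.card G ≤ N := by
  refine ⟨m.factorial * p ^ (2 * (eb m.factorial + (m.factorial + M))), ?_⟩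
  intro G _ _ hG ⟨g, h, hgh, hm⟩ hM
  set A := Subgroup.closure {g, h} with hA
  obtain ⟨g', h', hgh', hcore⟩ := sub_two hgh A.normalCore A.normalCore_le
  have hidx : A.normalCore.index ≤ m.factorial := by
    have h1 : A.normalCore.index ∣ A.index.factorial := by
      rw [Subgroup.normalCore_eq_ker, Subgroup.index_ker, Subgroup.index_eq_card, ← Nat.card_perm]
      exact Subgroup.card_subgroup_dvd_card _
    exact (Nat.le_of_dvd (Nat.factorial_pos _) h1).trans (Nat.factorial_le hm)
  have hcomm : ∀ a ∈ A.normalCore, ∀ b ∈ A.normalCore, a * b = b * a := by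
    intro a ha b hb
    rw [hcore] at ha hb
    obtain ⟨i, j, rfl⟩ := mem_closure_pair hgh' ha
    obtain ⟨i', j', rfl⟩ := mem_closure_pair hgh' hb
    have h1 : Commute (g' ^ i * h' ^ j) (g' ^ i' * h' ^ j') := by
      apply Commute.mul_left
      · exact ((Commute.refl g').pow_pow i i').mul_right (hgh'.pow_pow i j')
      · exact (hgh'.symm.pow_pow j i').mul_right ((Commute.refl h').pow_pow j j')
    exact h1.eq
  have hg' : g' ∈ A.normalCore := by rw [hcore]; exact Subgroup.subset_closure (by simp)
  have hh' : h' ∈ A.normalCore := by rw [hcore]; exact Subgroup.subset_closure (by simp)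
  rw [← Nat.card_eq_fintype_card]
  exact five_normal p hp5 m.factorial M hG A.normalCore hcomm hg' hh'
    (fun a ha => by rw [hcore] at ha; exact mem_closure_pair hgh' ha) hidx hM

end Run7.h505.RT
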